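import Pool.Agent.Helper85.PF.Basic

/-! Project PF, piece A2: the basis generates, uniqueness of homomorphisms, retractions. -/

set_option autoImplicit false
set_option linter.unusedSectionVars false

universe u

namespace Pool.Agent.Helper85.PF

open Filter Topology

variable {p : ℕ} [Fact p.Prime] {X F : Type u} [Group F] [TopologicalSpace F]
  [IsTopologicalGroup F] {ι : X → F}

private theorem isProP_closed (hF : IsProP p F) (F0 : Subgroup F) (hc : IsClosed (F0 : Set F)) :
    IsProP p F0 := by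
  have := hF.compact
  have := hF.totDisc
  refine ⟨?_, ?_, ?_⟩
  · exact isCompact_iff_compactSpace.1 hc.isCompact
  · infer_instance
  · intro U hU hUo
    obtain ⟨W, hW, hWU⟩ := isOpen_induced_iff.1 hUo
    have h1 : (1 : F) ∈ W := by
      have h2 : (1 : F0) ∈ (Subtype.val ⁻¹' W : Set F0) := by
        rw [hWU]; exact U.one_mem
      exact h2
    obtain ⟨V, hV⟩ := ProfiniteGrp.exist_openNormalSubgroup_sub_open_nhds_of_one hW h1
    obtain ⟨n, hn⟩ := hF.index V.toSubgroup V.isNormal' V.isOpen'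
    have h3 : V.toSubgroup.subgroupOf F0 ≤ U := by
      intro g hg
      have h4 : (g : F) ∈ W := hV (Subgroup.mem_subgroupOf.1 hg)
      have h5 : g ∈ (Subtype.val ⁻¹' W : Set F0) := h4
      rw [hWU] at h5
      exact h5
    have : V.toSubgroup.Normal := V.isNormal'
    have h6 : U.index ∣ p ^ n := by
      rw [← hn]
      exact (Subgroup.index_dvd_of_le h3).trans
        (Subgroup.relIndex_dvd_index_of_normal V.toSubgroup F0)
    obtain ⟨m, _, hm⟩ := (Nat.dvd_prime_pow (Fact.out : p.Prime)).1 h6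
    exact ⟨m, hm⟩

/-- PROOF. `F0 := FY ι univ` is a closed subgroup of `F`, so compact and totally disconnected, and
pro-`p`: an open normal subgroup `U` of `F0` contains `V ⊓ F0` for some open normal subgroup `V`
of `F` (Mathlib: `ProfiniteGrp.exist_openNormalSubgroup_sub_open_nhds_of_one` or similar, for
compact totally disconnected groups), so `U.index` divides `V.index` (relIndex) which is a power of `p`.
`ι` corestricted to `F0` tends to `1`; `hF.univ F0` gives `φ : F →* F0` with `φ (ι x) = ι x`; then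
`F0.subtype.comp φ` and `id` are continuous endomorphisms of `F` agreeing on `ι x`, so equal by the
uniqueness in `hF.univ F`. Hence `F0 = ⊤`. -/
theorem FY_univ (hF : IsFreeProP p ι) : FY ι Set.univ = ⊤ := by
  have hcl : IsClosed ((FY ι Set.univ : Subgroup F) : Set F) :=
    Subgroup.isClosed_topologicalClosure _
  have hmem : ∀ x, ι x ∈ FY ι Set.univ := fun x =>
    Subgroup.le_topologicalClosure _ (Subgroup.subset_closure ⟨x, Set.mem_univ x, rfl⟩)
  have hP := isProP_closed hF.isProP (FY ι Set.univ) hcl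
  have hf : Tendsto (fun x => (⟨ι x, hmem x⟩ : FY ι Set.univ)) cofinite (𝓝 1) := by
    rw [Topology.IsEmbedding.subtypeVal.tendsto_nhds_iff]
    exact hF.conv
  obtain ⟨φ, ⟨hφ, hφ1⟩, _⟩ := hF.univ (FY ι Set.univ) hP _ hf
  obtain ⟨ψ, _, hψ⟩ := hF.univ F hF.isProP ι hF.conv
  have e1 : (FY ι Set.univ).subtype.comp φ = ψ := by
    refine hψ _ ⟨continuous_subtype_val.comp hφ, fun x => ?_⟩
    rw [MonoidHom.comp_apply, hφ1 x]
    rfl
  have e2 : MonoidHom.id F = ψ := hψ _ ⟨continuous_id, fun x => rfl⟩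
  rw [eq_top_iff]
  intro g _
  have e3 : ((FY ι Set.univ).subtype.comp φ) g = g := by rw [e1, ← e2]; rfl
  rw [← e3]
  exact (φ g).2

/-- PROOF. `{g | φ g = ψ g}` is a closed subgroup containing all `ι x`; use `FY_univ`. -/
theorem hom_ext (hF : IsFreeProP p ι) {M : Type*} [Monoid M] [TopologicalSpace M] [T2Space M]
    (φ ψ : F →* M) (hφ : Continuous φ) (hψ : Continuous ψ)
    (h : ∀ x, φ (ι x) = ψ (ι x)) : φ = ψ := by
  have h1 : FY ι Set.univ ≤ φ.eqLocus ψ := by
    refine Subgroup.topologicalClosure_minimal _ ?_ (isClosed_eq hφ hψ)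
    rw [Subgroup.closure_le]
    rintro _ ⟨x, _, rfl⟩
    exact h x
  rw [FY_univ hF] at h1
  ext g
  exact h1 (Subgroup.mem_top g)

/-- PROOF. `hF.univ F` applied to the map `x ↦ if x ∈ Y then ι x else 1`, which tends to `1` along
`cofinite`. The four properties: closed subgroups and generators (`Subgroup.closure_induction`,
continuity of `π`). -/
theorem exists_retract (hF : IsFreeProP p ι) (Y : Set X) : ∃ π : F →* F, Continuous π ∧
    (∀ x ∈ Y, π (ι x) = ι x) ∧ (∀ x ∉ Y, π (ι x) = 1) ∧ (∀ g ∈ FY ι Y, π g = g) ∧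
    (∀ Z : Set X, ∀ g ∈ FY ι Z, π g ∈ FY ι (Z ∩ Y)) := by
  classical
  have := hF.isProP.compact
  have := hF.isProP.totDisc
  have hconv : Tendsto (fun x => if x ∈ Y then ι x else 1) cofinite (𝓝 1) := by
    refine Tendsto.if' hF.conv tendsto_const_nhds
  obtain ⟨π, ⟨hπ, hπ1⟩, _⟩ := hF.univ F hF.isProP _ hconv
  have hin : ∀ x ∈ Y, π (ι x) = ι x := fun x hx => by rw [hπ1 x, if_pos hx]
  have hout : ∀ x ∉ Y, π (ι x) = 1 := fun x hx => by rw [hπ1 x, if_neg hx]
  refine ⟨π, hπ, hin, hout, ?_, ?_⟩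
  · have h1 : FY ι Y ≤ π.eqLocus (MonoidHom.id F) := by
      refine Subgroup.topologicalClosure_minimal _ ?_ (isClosed_eq hπ continuous_id)
      rw [Subgroup.closure_le]
      rintro _ ⟨x, hx, rfl⟩
      exact hin x hx
    exact fun g hg => h1 hg
  · intro Z
    have h1 : FY ι Z ≤ (FY ι (Z ∩ Y)).comap π := by
      refine Subgroup.topologicalClosure_minimal _ ?_
        ((Subgroup.isClosed_topologicalClosure _).preimage hπ)
      rw [Subgroup.closure_le]
      rintro _ ⟨x, hx, rfl⟩
      rw [SetLike.mem_coe, Subgroup.mem_comap]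
      by_cases hxY : x ∈ Y
      · rw [hin x hxY]
        exact Subgroup.le_topologicalClosure _ (Subgroup.subset_closure ⟨x, ⟨hx, hxY⟩, rfl⟩)
      · rw [hout x hxY]
        exact Subgroup.one_mem _
    exact fun g hg => h1 hg

end Pool.Agent.Helper85.PF
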