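import Pool.Agent.Helper85.PF.St.A2

/-! Project PF, piece A5: change of basis. -/

set_option autoImplicit false
set_option linter.unusedSectionVars false

universe u

namespace Pool.Agent.Helper85.PF

open Filter Topology

namespace A5aux

section

variable {X Z k : Type*} [Ring k]

theorem mul_ne_zero_split (v : List X) : ∀ a b : NC X k, (a * b) v ≠ 0 →
    ∃ v1 v2, v = v1 ++ v2 ∧ a v1 ≠ 0 ∧ b v2 ≠ 0 := by
  induction v with
  | nil =>
    intro a b h
    rw [NC.mul_nil] at h
    exact ⟨[], [], rfl, left_ne_zero_of_mul h, right_ne_zero_of_mul h⟩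
  | cons x v ih =>
    intro a b h
    rw [NC.mul_cons] at h
    by_cases h1 : a [] * b (x :: v) = 0
    · rw [h1, zero_add] at h
      obtain ⟨v1, v2, rfl, h2, h3⟩ := ih _ _ h
      exact ⟨x :: v1, v2, rfl, h2, h3⟩
    · exact ⟨[], x :: v, rfl, left_ne_zero_of_mul h1, right_ne_zero_of_mul h1⟩

/-- the words contributing to the coefficient at `v` -/
def Fs (c : X → NC Z k) (v : List Z) : Set (List X) := {w | ((w.map c).prod : NC Z k) v ≠ 0}

theorem Fs_finite (c : X → NC Z k) (hc0 : ∀ x, c x [] = 0)
    (hc : ∀ v : List Z, {x | c x v ≠ 0}.Finite) : ∀ (n : ℕ) (v : List Z), v.length ≤ n →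
      (Fs c v).Finite := by
  intro n
  induction n with
  | zero =>
    intro v hv
    have hv0 : v = [] := List.length_eq_zero_iff.1 (by omega)
    refine (Set.finite_singleton []).subset ?_
    intro w hw
    cases w with
    | nil => rfl
    | cons x w =>
      exfalso
      apply hw
      rw [hv0, List.map_cons, List.prod_cons, NC.mul_nil, hc0, zero_mul]
  | succ n ih =>
    intro v hv
    have hfin : (⋃ i ∈ Finset.range v.length,
        Set.image2 List.cons {x | c x (v.take (i + 1)) ≠ 0} (Fs c (v.drop (i + 1)))).Finite := by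
      refine Set.Finite.biUnion (Finset.finite_toSet _) ?_
      intro i hi
      have hi' : i < v.length := Finset.mem_range.1 hi
      refine Set.Finite.image2 _ (hc _) (ih _ ?_)
      rw [List.length_drop]
      omega
    refine ((Set.finite_singleton []).union hfin).subset ?_
    intro w hw
    cases w with
    | nil => exact Or.inl rfl
    | cons x w =>
      right
      have hw' : (c x * (w.map c).prod : NC Z k) v ≠ 0 := by
        have := hw
        unfold Fs at this
        rw [Set.mem_ofPred_eq, List.map_cons, List.prod_cons] at this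
        exact this
      obtain ⟨v1, v2, hv12, h1, h2⟩ := mul_ne_zero_split v _ _ hw'
      cases v1 with
      | nil => exact absurd (hc0 x) h1
      | cons z v1 =>
        rw [Set.mem_iUnion₂]
        refine ⟨v1.length, ?_, ?_⟩
        · rw [Finset.mem_range, hv12]
          simp
        · have e1 : v.take (v1.length + 1) = z :: v1 := by
            rw [hv12]
            simp
          have e2 : v.drop (v1.length + 1) = v2 := by
            rw [hv12]
            simp
          rw [e1, e2]
          exact ⟨x, h1, w, h2, rfl⟩

/-- monomials -/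
noncomputable def mon (w : List X) : NC X k := (w.map NC.var).prod

theorem mon_cons (x : X) (w : List X) : (mon (x :: w) : NC X k) = NC.var x * mon w := by
  unfold mon
  rw [List.map_cons, List.prod_cons]

theorem mon_append (w w' : List X) : (mon (w ++ w') : NC X k) = mon w * mon w' := by
  unfold mon
  rw [List.map_append, List.prod_append]

open Classical in
theorem mon_apply (w : List X) : ∀ v : List X, (mon w : NC X k) v = if v = w then 1 else 0 := by
  induction w with
  | nil =>
    intro v
    cases v with
    | nil => rw [if_pos rfl]; rfl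
    | cons x v => rw [if_neg (List.cons_ne_nil _ _)]; rfl
  | cons y w ih =>
    intro v
    rw [mon_cons]
    cases v with
    | nil => rw [if_neg (List.cons_ne_nil _ _).symm, NC.var_mul_nil]
    | cons x v =>
      by_cases hxy : x = y
      · subst hxy
        rw [NC.var_mul_cons_self, ih]
        by_cases hv : v = w
        · rw [if_pos hv, if_pos (by rw [hv])]
        · rw [if_neg hv, if_neg (fun h => hv (List.cons.inj h).2)]
      · rw [NC.var_mul_cons_ne hxy, if_neg (fun h => hxy (List.cons.inj h).1)]

/-- truncation to a finite set of words -/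
noncomputable def trunc (a : NC X k) (W : Finset (List X)) : NC X k :=
  ∑ w ∈ W, NC.C (a w) * mon w

open Classical in
theorem trunc_apply (a : NC X k) (W : Finset (List X)) (v : List X) :
    trunc a W v = if v ∈ W then a v else 0 := by
  have happ : trunc a W v = ∑ w ∈ W, (NC.C (a w) * mon w : NC X k) v := Finset.sum_apply v _ _
  rw [happ]
  have h1 : ∀ w ∈ W, (NC.C (a w) * mon w : NC X k) v = if v = w then a w else 0 := by
    intro w _
    rw [NC.C_mul_apply, mon_apply, mul_ite, mul_one, mul_zero]
  rw [Finset.sum_congr rfl h1]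
  exact Finset.sum_ite_eq W v a

theorem tendsto_trunc [TopologicalSpace k] (a : NC X k) :
    Tendsto (trunc a) atTop (𝓝 a) := by
  classical
  rw [NC.tendsto_iff]
  intro v
  refine (tendsto_const_nhds (x := a v)).congr' ?_
  filter_upwards [Filter.eventually_ge_atTop ({v} : Finset (List X))] with W hW
  rw [trunc_apply, if_pos (hW (Finset.mem_singleton_self v))]

end

end A5aux

open A5aux in
/-- Substitution of a null family of series without constant term.
PROOF. For a word `v` over `Z` only finitely many words `w` over `X` contribute to `(∑ a w • c_w) v`, `c_w = (w.map c).prod`: `|w| ≤ |v|` (as `c x [] = 0`, `c_w v = 0` for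
`|w| > |v|`) and all letters of `w` lie in the finite set `S v` of `x` with `c x v' ≠ 0` for some factor (contiguous subword) `v'` of `v`. Suggested definition by recursion on a bound `n`:
`E 0 a v = 0`, `E (n+1) a v = a [] * 1 v + ∑ x ∈ S v, (c x * E n (sh a x)) v` and `E a v = E (|v|+1) a v`; show independence of `n > |v|` and of enlarging `S v`, additivity, multiplicativity (induction on `|v|`, using
`sh (a*b) x = C (a []) * sh b x + sh a x * b`), `E (var x) = c x`, and continuity (each coefficient depends on finitely many coefficients of `a`). -/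
theorem exists_subst {X Z : Type u} {k : Type} [CommRing k] [TopologicalSpace k]
    [DiscreteTopology k] (c : X → NC Z k) (hc0 : ∀ x, c x [] = 0)
    (hc : ∀ v : List Z, {x | c x v ≠ 0}.Finite) :
    ∃ E : NC X k →+* NC Z k, Continuous E ∧ ∀ x, E (NC.var x) = c x := by
  classical
  have hF : ∀ v, (Fs c v).Finite := fun v => Fs_finite c hc0 hc v.length v le_rfl
  -- the additive map
  let E0 : NC X k →+ NC Z k :=
    { toFun := fun a v => ∑ w ∈ (hF v).toFinset, a w * ((w.map c).prod : NC Z k) v
      map_zero' := by
        ext v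
        exact Finset.sum_eq_zero fun w _ => zero_mul _
      map_add' := by
        intro a b
        ext v
        rw [NC.add_apply, ← Finset.sum_add_distrib]
        exact Finset.sum_congr rfl fun w _ => add_mul _ _ _ }
  have hE0 : ∀ (a : NC X k) (v : List Z), E0 a v =
      ∑ w ∈ (hF v).toFinset, a w * ((w.map c).prod : NC Z k) v := fun a v => rfl
  have hcont : Continuous E0 := by
    rw [NC.continuous_iff]
    intro v
    simp only [hE0]
    refine continuous_finsetSum _ fun w _ => ?_
    exact (NC.continuous_apply w).mul continuous_const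
  have hmon : ∀ (s : k) (w : List X), E0 (NC.C s * mon w) = NC.C s * (w.map c).prod := by
    intro s w
    ext v
    rw [hE0, NC.C_mul_apply]
    have h1 : ∀ w' ∈ (hF v).toFinset, (NC.C s * mon w : NC X k) w' * ((w'.map c).prod : NC Z k) v =
        if w' = w then s * ((w.map c).prod : NC Z k) v else 0 := by
      intro w' _
      rw [NC.C_mul_apply, mon_apply]
      by_cases h : w' = w
      · rw [if_pos h, if_pos h, mul_one, h]
      · rw [if_neg h, if_neg h, mul_zero, zero_mul]
    rw [Finset.sum_congr rfl h1, Finset.sum_ite_eq']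
    split_ifs with h2
    · rfl
    · have h3 : ((w.map c).prod : NC Z k) v = 0 := by
        by_contra h4
        exact h2 ((Set.Finite.mem_toFinset _).2 h4)
      rw [h3, mul_zero]
  have hmul : ∀ a b : NC X k, E0 (a * b) = E0 a * E0 b := by
    intro a b
    have h1 : ∀ (W : Finset (List X)), E0 (trunc a W * trunc b W) =
        E0 (trunc a W) * E0 (trunc b W) := by
      intro W
      unfold trunc
      rw [Finset.sum_mul_sum, map_sum, map_sum, map_sum, Finset.sum_mul_sum]
      refine Finset.sum_congr rfl fun w _ => ?_
      rw [map_sum]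
      refine Finset.sum_congr rfl fun w' _ => ?_
      have h2 : (NC.C (a w) * mon w * (NC.C (b w') * mon w') : NC X k) =
          NC.C (a w * b w') * mon (w ++ w') := by
        rw [mon_append, map_mul]
        calc (NC.C (a w) * mon w * (NC.C (b w') * mon w') : NC X k) =
            NC.C (a w) * (mon w * NC.C (b w')) * mon w' := by simp only [mul_assoc]
          _ = NC.C (a w) * (NC.C (b w') * mon w) * mon w' := by rw [NC.C_commutes (b w')]
          _ = NC.C (a w) * NC.C (b w') * (mon w * mon w') := by simp only [mul_assoc]
      rw [h2, hmon, hmon, hmon, List.map_append, List.prod_append, map_mul]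
      calc (NC.C (a w) * NC.C (b w') * ((w.map c).prod * (w'.map c).prod) : NC Z k) =
          NC.C (a w) * (NC.C (b w') * (w.map c).prod) * (w'.map c).prod := by
            simp only [mul_assoc]
        _ = NC.C (a w) * ((w.map c).prod * NC.C (b w')) * (w'.map c).prod := by
            rw [NC.C_commutes (b w')]
        _ = NC.C (a w) * (w.map c).prod * (NC.C (b w') * (w'.map c).prod) := by
            simp only [mul_assoc]
    have h3 : Tendsto (fun W => E0 (trunc a W * trunc b W)) atTop (𝓝 (E0 (a * b))) :=
      (hcont.tendsto _).comp ((tendsto_trunc a).mul (tendsto_trunc b))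
    have h4 : Tendsto (fun W => E0 (trunc a W) * E0 (trunc b W)) atTop (𝓝 (E0 a * E0 b)) :=
      ((hcont.tendsto _).comp (tendsto_trunc a)).mul ((hcont.tendsto _).comp (tendsto_trunc b))
    simp only [h1] at h3
    exact tendsto_nhds_unique h3 h4
  have hone : E0 1 = 1 := by
    have h1 : (1 : NC X k) = NC.C 1 * mon [] := by
      rw [map_one, one_mul]
      rfl
    rw [h1, hmon, map_one, one_mul]
    rfl
  refine ⟨{ E0 with map_one' := hone, map_mul' := hmul }, hcont, ?_⟩
  intro x
  have h1 : (NC.var x : NC X k) = NC.C 1 * mon [x] := by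
    rw [map_one, one_mul, mon_cons]
    exact (mul_one _).symm
  change E0 (NC.var x) = c x
  rw [h1, hmon, map_one, one_mul]
  simp

variable {p : ℕ} [Fact p.Prime] {X Z F : Type u} [Group F] [TopologicalSpace F]
  [IsTopologicalGroup F] {ι : X → F} {κ : Z → F}

open A5aux in
/-- continuous ring homomorphisms are determined by the variables -/
private theorem ringHom_ext_var {R : Type*} [Ring R] [TopologicalSpace R] [T2Space R]
    (f g : NC X (ZMod p) →+* R) (hf : Continuous f) (hg : Continuous g)
    (h : ∀ x, f (NC.var x) = g (NC.var x)) (a : NC X (ZMod p)) : f a = g a := by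
  have hC : ∀ s : ZMod p, f (NC.C s) = g (NC.C s) := by
    intro s
    have h1 : f.comp NC.C = g.comp NC.C := Subsingleton.elim _ _
    exact DFunLike.congr_fun h1 s
  have hmon : ∀ w : List X, f (mon w) = g (mon w) := by
    intro w
    induction w with
    | nil =>
      have h1 : (mon [] : NC X (ZMod p)) = 1 := rfl
      rw [h1, map_one, map_one]
    | cons x w ih => rw [mon_cons, map_mul, map_mul, h x, ih]
  have h1 : ∀ W : Finset (List X), f (trunc a W) = g (trunc a W) := by
    intro W
    unfold trunc
    rw [map_sum, map_sum]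
    refine Finset.sum_congr rfl fun w _ => ?_
    rw [map_mul, map_mul, hC, hmon]
  have h2 : Tendsto (fun W => f (trunc a W)) atTop (𝓝 (f a)) :=
    (hf.tendsto _).comp (tendsto_trunc a)
  have h3 : Tendsto (fun W => g (trunc a W)) atTop (𝓝 (g a)) :=
    (hg.tendsto _).comp (tendsto_trunc a)
  simp only [h1] at h2
  exact tendsto_nhds_unique h2 h3

private theorem nu_nil (hF' : IsFreeProP p κ) {ν : F →* NC Z (ZMod p)} (hν : IsMagnus p κ ν)
    (g : F) : ν g [] = 1 := by
  have h1 := hom_ext hF' ((NC.aug : NC Z (ZMod p) →+* ZMod p).toMonoidHom.comp ν) 1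
    ((NC.continuous_apply []).comp hν.cont) continuous_const (by
      intro z
      change ν (κ z) [] = 1
      rw [hν.var z]
      simp)
  exact DFunLike.congr_fun h1 g

/-- the substitution which expresses `ν` in terms of `μ` -/
private theorem exists_change (hF : IsFreeProP p ι) (hF' : IsFreeProP p κ)
    {μ : F →* NC X (ZMod p)} (hμ : IsMagnus p ι μ) {ν : F →* NC Z (ZMod p)}
    (hν : IsMagnus p κ ν) :
    ∃ E : NC X (ZMod p) →+* NC Z (ZMod p), Continuous E ∧ ∀ g, E (μ g) = ν g := by
  obtain ⟨E, hE, hvar⟩ := exists_subst (X := X) (Z := Z) (k := ZMod p)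
    (fun x => ν (ι x) - 1) (by
      intro x
      change ν (ι x) [] - 1 = 0
      rw [nu_nil hF' hν, sub_self]) (by
      intro v
      have h1 : Tendsto (fun x => ν (ι x) v) cofinite (𝓝 (ν 1 v)) :=
        (((NC.continuous_apply v).comp hν.cont).tendsto 1).comp hF.conv
      have h2 : ∀ᶠ x in cofinite, ν (ι x) v = ν 1 v :=
        h1.eventually (p := fun z => z = ν 1 v) ((isOpen_discrete {ν 1 v}).mem_nhds rfl)
      rw [Filter.eventually_cofinite] at h2
      refine h2.subset ?_
      intro x hx h3
      apply hx
      change ν (ι x) v - (1 : NC Z (ZMod p)) v = 0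
      rw [h3, map_one, sub_self])
  refine ⟨E, hE, ?_⟩
  have h1 := hom_ext hF (E.toMonoidHom.comp μ) ν (hE.comp hμ.cont) hν.cont (by
    intro x
    change E (μ (ι x)) = ν (ι x)
    rw [hμ.var x, map_add, map_one, hvar x]
    exact add_sub_cancel _ _)
  intro g
  exact DFunLike.congr_fun h1 g

private theorem map_clIdeal {A B : Type*} [Ring A] [TopologicalSpace A] [IsTopologicalRing A]
    [Ring B] [TopologicalSpace B] [IsTopologicalRing B] (E : A →+* B) (hE : Continuous E) (u : A)
    {a : A} (ha : a ∈ clIdeal u) : E a ∈ clIdeal (E u) := by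
  let I : AddSubgroup A := (clIdeal (E u)).comap E.toAddMonoidHom
  have hI : IsClosed (I : Set A) := (isClosed_clIdeal (E u)).preimage hE
  have h : clIdeal u ≤ I := clIdeal_le hI fun b c => by
    change E (b * u * c) ∈ clIdeal (E u)
    rw [map_mul, map_mul]
    exact mul_mem_clIdeal_right _ (mul_mem_clIdeal_left _ (mem_clIdeal_self _))
  exact h ha

/-- Complete primeness of the closed ideal of `r - 1` does not depend on the basis.
PROOF. `E : NC X → NC Z` with `E (var x) = ν (ι x) - 1` (`ν (ι x) [] = 1`; `ν ∘ ι → 1` since `ι → 1` and `ν` is continuous) satisfies `E ∘ μ = ν` (`hom_ext`), similarly `E' : NC Z → NC X` with `E' ∘ ν = μ`.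
`E' ∘ E = id`: continuous ring homomorphisms which agree on all `var x` (`E' (E (var x)) = E' (ν (ι x) - 1) = μ (ι x) - 1 = var x`), and finite combinations of words are dense (`ZMod p`-linearity is automatic). So
`E` is a bijection with `E u = v`, `u = μ r - 1`, `v = ν r - 1`, and `E (clIdeal u) = clIdeal v` (`clIdeal_le` for the preimages under `E` and `E'`). -/
theorem isPrimeCl_transfer (hF : IsFreeProP p ι) (hF' : IsFreeProP p κ)
    {μ : F →* NC X (ZMod p)} (hμ : IsMagnus p ι μ) {ν : F →* NC Z (ZMod p)}
    (hν : IsMagnus p κ ν) (r : F) (h : IsPrimeCl (ν r - 1)) : IsPrimeCl (μ r - 1) := by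
  obtain ⟨E, hE, hEμ⟩ := exists_change hF hF' hμ hν
  obtain ⟨E', hE', hEν⟩ := exists_change hF' hF hν hμ
  have hid : ∀ a, E' (E a) = a := by
    intro a
    refine ringHom_ext_var (E'.comp E) (RingHom.id _) (hE'.comp hE) continuous_id ?_ a
    intro x
    have h1 : (NC.var x : NC X (ZMod p)) = μ (ι x) - 1 := by
      rw [hμ.var x]
      exact (add_sub_cancel_left _ _).symm
    change E' (E (NC.var x)) = NC.var x
    rw [h1, map_sub, map_sub, hEμ, hEν, map_one, map_one]
  have hu : E (μ r - 1) = ν r - 1 := by rw [map_sub, hEμ, map_one]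
  have hv : E' (ν r - 1) = μ r - 1 := by rw [map_sub, hEν, map_one]
  intro a b hab
  have h1 : E a * E b ∈ clIdeal (ν r - 1) := by
    rw [← map_mul, ← hu]
    exact map_clIdeal E hE _ hab
  rcases h _ _ h1 with h2 | h2
  · left
    rw [← hid a, ← hv]
    exact map_clIdeal E' hE' _ h2
  · right
    rw [← hid b, ← hv]
    exact map_clIdeal E' hE' _ h2

end Pool.Agent.Helper85.PF
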