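import Pool.Agent.Helper85.PF.Basic

/-! Project PF, piece C1: normal generation in pro-`p` groups. -/

set_option autoImplicit false
set_option linter.unusedSectionVars false

universe u

namespace Pool.Agent.Helper85.PF

open Filter Topology

open scoped commutatorElement

variable {p : ℕ} [Fact p.Prime] {F : Type u} [Group F] [TopologicalSpace F]
  [IsTopologicalGroup F]

/-- `R_1`: the closed normal subgroup generated by `r^p` and the commutators of `r` -/
def RN1 (p : ℕ) (r : F) : Subgroup F :=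
  (Subgroup.normalClosure ({r ^ p} ∪ Set.range fun g : F => ⁅r, g⁆)).topologicalClosure

instance RN1_normal (p : ℕ) (r : F) : (RN1 p r).Normal :=
  Subgroup.is_normal_topologicalClosure _

theorem isClosed_RN1 (p : ℕ) (r : F) : IsClosed (RN1 p r : Set F) :=
  Subgroup.isClosed_topologicalClosure _

theorem isClosed_RN (r : F) : IsClosed (RN r : Set F) :=
  Subgroup.isClosed_topologicalClosure _

private theorem rpow_mem_RN1 (p : ℕ) (r : F) : r ^ p ∈ RN1 p r :=
  Subgroup.le_topologicalClosure _ (Subgroup.subset_normalClosure (Or.inl rfl))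

private theorem comm_mem_RN1 (p : ℕ) (r g : F) : ⁅r, g⁆ ∈ RN1 p r :=
  Subgroup.le_topologicalClosure _ (Subgroup.subset_normalClosure (Or.inr ⟨g, rfl⟩))

private theorem self_mem_RN (r : F) : r ∈ RN r :=
  Subgroup.le_topologicalClosure _ (Subgroup.subset_normalClosure rfl)

private theorem RN1_le_of (p : ℕ) (r : F) (N : Subgroup F) [N.Normal] (hN : IsClosed (N : Set F))
    (h1 : r ^ p ∈ N) (h2 : ∀ g, ⁅r, g⁆ ∈ N) : RN1 p r ≤ N := by
  refine Subgroup.topologicalClosure_minimal _ (Subgroup.normalClosure_le_normal ?_) hN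
  rintro x (hx | ⟨g, rfl⟩)
  · rw [Set.mem_singleton_iff] at hx
    rw [hx]
    exact h1
  · exact h2 g

private theorem RN_le_of (r : F) (N : Subgroup F) [N.Normal] (hN : IsClosed (N : Set F))
    (h1 : r ∈ N) : RN r ≤ N := by
  refine Subgroup.topologicalClosure_minimal _ (Subgroup.normalClosure_le_normal ?_) hN
  intro x hx
  rw [Set.mem_singleton_iff] at hx
  rw [hx]
  exact h1

private theorem RN1_le_RN (p : ℕ) (r : F) : RN1 p r ≤ RN r := by
  refine RN1_le_of p r _ (isClosed_RN r) (Subgroup.pow_mem _ (self_mem_RN r) p) (fun g => ?_)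
  rw [commutatorElement_def]
  have h1 : g * r⁻¹ * g⁻¹ ∈ RN r :=
    (RN_normal r).conj_mem _ ((RN r).inv_mem (self_mem_RN r)) g
  have h2 : r * g * r⁻¹ * g⁻¹ = r * (g * r⁻¹ * g⁻¹) := by group
  rw [h2]
  exact (RN r).mul_mem (self_mem_RN r) h1

private theorem exists_nhd (hF : IsProP p F) {r : F} {A : Set F} (hA : IsClosed A) (hr : r ∉ A) :
    ∃ H : Subgroup F, H.Normal ∧ IsOpen (H : Set F) ∧ ∀ v ∈ H, r * v ∉ A := by
  have := hF.compact
  have := hF.totDisc
  obtain ⟨H, hH⟩ := ProfiniteGrp.exist_openNormalSubgroup_sub_open_nhds_of_one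
    (U := {v : F | r * v ∉ A}) (hA.isOpen_compl.preimage (continuous_const_mul r))
    (by simpa using hr)
  exact ⟨H.toSubgroup, H.isNormal', H.isOpen', fun v hv => hH hv⟩

/-- A closed normal subgroup `S` not containing `r` is contained in an open normal subgroup `N` with `r ∉ N`
and `RN1 p r ≤ N`.
PROOF. Some open normal `N0 ≥ S` does not contain `r` (`S` is closed, `F` compact totally disconnected: an open normal
`V` with `r V ∩ S = ∅`, `N0 = S ⊔ V`, elements `s * v`). Among the (finitely many) normal subgroups containing `N0` choose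
a maximal one `N` not containing `r` (it is open). In the finite `p`-group `P = F ⧸ N ≠ 1` (use `hF.index`) every
nontrivial normal subgroup contains the image of `r`; the centre of `P` contains an element `z` of order `p`
(`IsPGroup.center_nontrivial`, `exists_prime_orderOf_dvd_card`), `zpowers z` is normal, so the image of `r` is in `zpowers z`: it is central
with `p`-th power `1`. So `r^p ∈ N`, `⁅r,g⁆ ∈ N`, and `RN1 p r ≤ N` (`N` is open, so closed). -/
theorem exists_open_not_mem (hF : IsProP p F) {r : F} {S : Subgroup F} [S.Normal]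
    (hS : IsClosed (S : Set F)) (hr : r ∉ S) :
    ∃ N : Subgroup F, N.Normal ∧ IsOpen (N : Set F) ∧ S ≤ N ∧ r ∉ N ∧ RN1 p r ≤ N := by
  obtain ⟨H, hHn, hHo, hH⟩ := exists_nhd hF hS hr
  have hN0n : (S ⊔ H).Normal := inferInstance
  have hN0o : IsOpen ((S ⊔ H : Subgroup F) : Set F) := Subgroup.isOpen_mono le_sup_right hHo
  have hrN0 : r ∉ S ⊔ H := by
    intro h
    obtain ⟨s, hs, v, hv, hsv⟩ := Subgroup.mem_sup_of_normal_right.mp h
    refine hH v⁻¹ (H.inv_mem hv) ?_
    have : r * v⁻¹ = s := by rw [← hsv]; group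
    rw [this]
    exact hs
  obtain ⟨N, ⟨hNn, hN0, hrN⟩, hmin⟩ := (measure (fun N : Subgroup F => N.index)).wf.has_min
    {N : Subgroup F | N.Normal ∧ S ⊔ H ≤ N ∧ r ∉ N} ⟨S ⊔ H, hN0n, le_rfl, hrN0⟩
  have hNo : IsOpen (N : Set F) := Subgroup.isOpen_mono hN0 hN0o
  obtain ⟨n, hn⟩ := hF.index N hNn hNo
  have hp := (Fact.out : p.Prime)
  have hfi : N.FiniteIndex := ⟨by rw [hn]; exact pow_ne_zero _ hp.ne_zero⟩
  have hcard : Nat.card (F ⧸ N) = p ^ n := by rw [← hn]; rfl
  have : Finite (F ⧸ N) :=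
    Nat.finite_of_card_ne_zero (by rw [hcard]; exact pow_ne_zero _ hp.ne_zero)
  have hP : IsPGroup p (F ⧸ N) := IsPGroup.of_card hcard
  have : Nontrivial (F ⧸ N) := by
    refine ⟨⟨(QuotientGroup.mk' N) r, 1, fun h => hrN ?_⟩⟩
    exact (QuotientGroup.eq_one_iff r).1 h
  have := hP.center_nontrivial
  have hZ : IsPGroup p (Subgroup.center (F ⧸ N)) := hP.to_subgroup _
  have hdvd : p ∣ Nat.card (Subgroup.center (F ⧸ N)) := by
    rcases hZ.card_eq_or_dvd with h | h
    · exact absurd h (by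
        have := Finite.one_lt_card (α := Subgroup.center (F ⧸ N))
        omega)
    · exact h
  obtain ⟨z, hz⟩ := exists_prime_orderOf_dvd_card' p hdvd
  have hz1 : (z : F ⧸ N) ≠ 1 := by
    intro h
    have h2 : z = 1 := Subtype.ext h
    rw [h2, orderOf_one] at hz
    exact hp.one_lt.ne hz
  have hzp : (z : F ⧸ N) ^ p = 1 := by
    have h2 : z ^ p = 1 := by rw [← hz]; exact pow_orderOf_eq_one z
    have h3 := congrArg (fun y : Subgroup.center (F ⧸ N) => (y : F ⧸ N)) h2
    simpa using h3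
  have hzc : ∀ g : F ⧸ N, g * (z : F ⧸ N) = z * g := fun g => Subgroup.mem_center_iff.1 z.2 g
  have hzn : (Subgroup.zpowers (z : F ⧸ N)).Normal := by
    refine ⟨fun x hx g => ?_⟩
    obtain ⟨i, rfl⟩ := Subgroup.mem_zpowers_iff.1 hx
    have h2 : Commute g ((z : F ⧸ N) ^ i) := Commute.zpow_right (hzc g) i
    rw [h2.eq, mul_inv_cancel_right]
    exact hx
  have hN'n : ((Subgroup.zpowers (z : F ⧸ N)).comap (QuotientGroup.mk' N)).Normal :=
    hzn.comap _
  have hNN' : N < (Subgroup.zpowers (z : F ⧸ N)).comap (QuotientGroup.mk' N) := by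
    refine lt_of_le_of_ne (fun g hg => ?_) (fun h => ?_)
    · rw [Subgroup.mem_comap]
      have : QuotientGroup.mk' N g = 1 := (QuotientGroup.eq_one_iff g).2 hg
      rw [this]
      exact Subgroup.one_mem _
    · obtain ⟨g, hg⟩ := QuotientGroup.mk'_surjective N (z : F ⧸ N)
      have h2 : g ∈ (Subgroup.zpowers (z : F ⧸ N)).comap (QuotientGroup.mk' N) := by
        rw [Subgroup.mem_comap, hg]
        exact Subgroup.mem_zpowers _
      rw [← h] at h2
      exact hz1 (by rw [← hg]; exact (QuotientGroup.eq_one_iff g).2 h2)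
  have hrN' : r ∈ (Subgroup.zpowers (z : F ⧸ N)).comap (QuotientGroup.mk' N) := by
    by_contra h
    exact hmin _ ⟨hN'n, hN0.trans hNN'.le, h⟩ (Subgroup.index_strictAnti hNN')
  rw [Subgroup.mem_comap] at hrN'
  obtain ⟨i, hi⟩ := Subgroup.mem_zpowers_iff.1 hrN'
  refine ⟨N, hNn, hNo, le_sup_left.trans hN0, hrN, ?_⟩
  refine RN1_le_of p r N (Subgroup.isClosed_of_isOpen N hNo) ?_ ?_
  · rw [← QuotientGroup.eq_one_iff]
    change QuotientGroup.mk' N (r ^ p) = 1
    rw [map_pow, ← hi, ← zpow_natCast, ← zpow_mul, mul_comm, zpow_mul, zpow_natCast, hzp, one_zpow]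
  · intro g
    rw [← QuotientGroup.eq_one_iff]
    change QuotientGroup.mk' N ⁅r, g⁆ = 1
    rw [map_commutatorElement, commutatorElement_eq_one_iff_mul_comm, ← hi]
    exact (Commute.zpow_left (hzc _).symm i).eq

/-- PROOF. `exists_open_not_mem` with `S = ⊥`. -/
theorem not_mem_RN1_self (hF : IsProP p F) {r : F} (hr : r ≠ 1) : r ∉ RN1 p r := by
  have := hF.totDisc
  have hb : IsClosed ((⊥ : Subgroup F) : Set F) := by
    rw [Subgroup.coe_bot]
    exact isClosed_singleton
  obtain ⟨N, _, _, _, h1, h2⟩ := exists_open_not_mem hF (r := r) (S := ⊥) hb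
    (fun h => hr (Subgroup.mem_bot.1 h))
  exact fun h => h1 (h2 h)

/-- PROOF. The set `{r^i * t | i < p, t ∈ RN1 p r}` is a closed normal subgroup (`r^p`, `⁅r,g⁆ ∈ RN1 p r`; finite union of cosets)
containing `r`; so it contains `RN r`. -/
theorem exists_pow_mul (hF : IsProP p F) {r s : F} (hs : s ∈ RN r) :
    ∃ i : ℕ, i < p ∧ ∃ t ∈ RN1 p r, s = r ^ i * t := by
  have hp := (Fact.out : p.Prime)
  set π := QuotientGroup.mk' (RN1 p r) with hπ
  have hrp : π r ^ p = 1 := by
    rw [← map_pow]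
    exact (QuotientGroup.eq_one_iff _).2 (rpow_mem_RN1 p r)
  have hcomm : ∀ g, Commute g (π r) := by
    intro g
    obtain ⟨g, rfl⟩ := QuotientGroup.mk'_surjective (RN1 p r) g
    have h1 : π ⁅r, g⁆ = 1 := (QuotientGroup.eq_one_iff _).2 (comm_mem_RN1 p r g)
    rw [map_commutatorElement, commutatorElement_eq_one_iff_mul_comm] at h1
    exact h1.symm
  have hKn : (Subgroup.zpowers (π r)).Normal := by
    refine ⟨fun x hx g => ?_⟩
    obtain ⟨i, rfl⟩ := Subgroup.mem_zpowers_iff.1 hx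
    rw [((hcomm g).zpow_right i).eq, mul_inv_cancel_right]
    exact hx
  have hKn' : ((Subgroup.zpowers (π r)).comap π).Normal := hKn.comap _
  have hmem : ∀ g, g ∈ (Subgroup.zpowers (π r)).comap π →
      ∃ i : ℕ, i < p ∧ ∃ t ∈ RN1 p r, g = r ^ i * t := by
    intro g hg
    rw [Subgroup.mem_comap] at hg
    obtain ⟨i, hi⟩ := Subgroup.mem_zpowers_iff.1 hg
    have hp0 : (0 : ℤ) < p := by exact_mod_cast hp.pos
    refine ⟨(i % p).toNat, ?_, (r ^ (i % p).toNat)⁻¹ * g, ?_, by group⟩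
    · have h1 := Int.emod_lt_of_pos i hp0
      have h2 := Int.emod_nonneg i hp0.ne'
      omega
    · rw [← QuotientGroup.eq_one_iff]
      change π ((r ^ (i % p).toNat)⁻¹ * g) = 1
      rw [map_mul, map_inv, map_pow, ← hi, ← zpow_natCast,
        Int.toNat_of_nonneg (Int.emod_nonneg i hp0.ne')]
      have h3 : (π r) ^ i = (π r) ^ (i % p) := by
        conv_lhs => rw [← Int.emod_add_mul_ediv i p, zpow_add, zpow_mul, zpow_natCast, hrp,
          one_zpow, mul_one]
      rw [h3, inv_mul_cancel]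
  have hK : IsClosed (((Subgroup.zpowers (π r)).comap π : Subgroup F) : Set F) := by
    have hset : (((Subgroup.zpowers (π r)).comap π : Subgroup F) : Set F) =
        ⋃ i ∈ Finset.range p, (fun t => r ^ i * t) '' (RN1 p r : Set F) := by
      ext g
      simp only [Set.mem_iUnion, Finset.mem_range, Set.mem_image, exists_prop]
      constructor
      · intro hg
        obtain ⟨i, hi, t, ht, he⟩ := hmem g hg
        exact ⟨i, hi, t, ht, he.symm⟩
      · rintro ⟨i, _, t, ht, rfl⟩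
        change π (r ^ i * t) ∈ Subgroup.zpowers (π r)
        have h1 : π t = 1 := (QuotientGroup.eq_one_iff _).2 ht
        rw [map_mul, h1, mul_one, map_pow]
        exact Subgroup.pow_mem _ (Subgroup.mem_zpowers _) i
    rw [hset]
    refine isClosed_biUnion_finset fun i _ => ?_
    exact (Homeomorph.mulLeft (r ^ i)).isClosedMap _ (isClosed_RN1 p r)
  have hr : r ∈ (Subgroup.zpowers (π r)).comap π := Subgroup.mem_zpowers _
  exact hmem s (RN_le_of r _ hK hr hs)

/-- PROOF. `RN s ≤ RN r` is clear. If `r ∉ RN s` take `N ≥ RN s` from `exists_open_not_mem`; `s = r^i * t` with `0 < i < p`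
(as `s ∉ RN1 p r`), `t ∈ N`, `s ∈ N`, so `r^i ∈ N` and `r^p ∈ N`, so `r ∈ N` (coprime), contradiction. -/
theorem eq_of_not_mem_RN1 (hF : IsProP p F) {r s : F} (hs : s ∈ RN r) (hs1 : s ∉ RN1 p r) :
    RN s = RN r := by
  have hp := (Fact.out : p.Prime)
  refine le_antisymm (RN_le_of s _ (isClosed_RN r) hs) (RN_le_of r _ (isClosed_RN s) ?_)
  by_contra hr
  obtain ⟨N, hNn, _, hSN, hrN, hN1⟩ := exists_open_not_mem hF (isClosed_RN s) hr
  obtain ⟨i, hi, t, ht, he⟩ := exists_pow_mul hF hs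
  have hi0 : i ≠ 0 := by
    rintro rfl
    rw [pow_zero, one_mul] at he
    exact hs1 (he ▸ ht)
  have h1 : r ^ i ∈ N := by
    have h2 : r ^ i = s * t⁻¹ := by rw [he]; group
    rw [h2]
    exact N.mul_mem (hSN (self_mem_RN s)) (N.inv_mem (hN1 ht))
  have h2 : r ^ p ∈ N := hN1 (rpow_mem_RN1 p r)
  have h3 : (QuotientGroup.mk' N r) ^ i = 1 := by
    rw [← map_pow]
    exact (QuotientGroup.eq_one_iff _).2 h1
  have h4 : (QuotientGroup.mk' N r) ^ p = 1 := by
    rw [← map_pow]
    exact (QuotientGroup.eq_one_iff _).2 h2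
  have h5 := Nat.dvd_gcd (orderOf_dvd_of_pow_eq_one h3) (orderOf_dvd_of_pow_eq_one h4)
  have h6 : Nat.gcd i p = 1 :=
    Nat.Coprime.symm ((Nat.Prime.coprime_iff_not_dvd hp).2
      (fun h => absurd (Nat.le_of_dvd (Nat.pos_of_ne_zero hi0) h) (by omega)))
  rw [h6, Nat.dvd_one, orderOf_eq_one_iff] at h5
  exact hrN ((QuotientGroup.eq_one_iff r).1 h5)

/-- PROOF. `r ∉ Y * RN1 p r`: if `r = y * t` then `y ∈ RN r` (`RN1 p r ≤ RN r`) so `y ∈ RN1 p r`, `r ∈ RN1 p r`, against
`not_mem_RN1_self`. `Y * RN1 p r` is compact, so closed, so there is an open normal `V` with `r V ∩ Y * RN1 p r = ∅`. Put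
`M = RN1 p r ⊔ V` (elements `t * v`). -/
theorem exists_open_normal (hF : IsProP p F) {r : F} (hr : r ≠ 1) (Y : Subgroup F)
    (hYc : IsClosed (Y : Set F)) (hY : ∀ g ∈ Y, g ∈ RN r → g ∈ RN1 p r) :
    ∃ M : Subgroup F, M.Normal ∧ IsOpen (M : Set F) ∧ r ^ p ∈ M ∧ (∀ g, ⁅r, g⁆ ∈ M) ∧
      ∀ y ∈ Y, ∀ m ∈ M, r ≠ y * m := by
  have := hF.compact
  have := hF.totDisc
  have hYk : IsCompact (Y : Set F) := hYc.isCompact
  have hRk : IsCompact (RN1 p r : Set F) := (isClosed_RN1 p r).isCompact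
  have hYR : IsClosed ((fun q : F × F => q.1 * q.2) '' ((Y : Set F) ×ˢ (RN1 p r : Set F))) :=
    ((hYk.prod hRk).image continuous_mul).isClosed
  have hr1 : r ∉ (fun q : F × F => q.1 * q.2) '' ((Y : Set F) ×ˢ (RN1 p r : Set F)) := by
    rintro ⟨⟨y, t⟩, ⟨hy, ht⟩, he⟩
    change y * t = r at he
    have hy2 : y ∈ RN r := by
      have h1 : y = r * t⁻¹ := by rw [← he]; group
      rw [h1]
      exact (RN r).mul_mem (self_mem_RN r) ((RN r).inv_mem (RN1_le_RN p r ht))
    have h2 : r ∈ RN1 p r := by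
      have h3 : y * t ∈ RN1 p r := (RN1 p r).mul_mem (hY y hy hy2) ht
      rwa [he] at h3
    exact not_mem_RN1_self hF hr h2
  obtain ⟨H, hHn, hHo, hH⟩ := exists_nhd hF hYR hr1
  refine ⟨RN1 p r ⊔ H, inferInstance, Subgroup.isOpen_mono le_sup_right hHo,
    le_sup_left (a := RN1 p r) (rpow_mem_RN1 p r),
    fun g => le_sup_left (a := RN1 p r) (comm_mem_RN1 p r g), ?_⟩
  intro y hy m hm he
  obtain ⟨t, ht, v, hv, htv⟩ := Subgroup.mem_sup_of_normal_right.mp hm
  refine hH v⁻¹ (H.inv_mem hv) ⟨(y, t), ⟨hy, ht⟩, ?_⟩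
  change y * t = r * v⁻¹
  rw [he, ← htv]
  group

end Pool.Agent.Helper85.PF
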