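import Mathlib

/-! Project PF, piece C2: an equivariant function on a finite group. -/

set_option autoImplicit false

namespace Pool.Agent.Helper85.PF

/-- PROOF. `z` has order exactly `p` (`z ≠ 1` as `1 ∈ H`) and `z^i ∈ H` implies `p ∣ i`. Let `K = {h * z^i | h ∈ H}`, a subgroup
(`z` is central), and `χ : K → ZMod p`, `χ (h * z^i) = i`, well defined with `χ (k * k') = χ k + χ k'`. Choose representatives
`g0` of the right cosets `K g` and put `ρ g = χ (g * (g0 g)⁻¹)`. (Any other way is fine: `z` acts freely on the set of right cosets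
`H g`, choose an equivariant map of this set to `ZMod p`.) -/
theorem exists_rho {p : ℕ} [Fact p.Prime] {P : Type*} [Group P] (z : P)
    (hz : ∀ g, z * g = g * z) (hzp : z ^ p = 1) (H : Subgroup P) (hH : z ∉ H) :
    ∃ ρ : P → ZMod p, (∀ g, ρ (z * g) = ρ g + 1) ∧ ∀ h ∈ H, ∀ g, ρ (h * g) = ρ g := by
  have hzi : ∀ (i : ℤ) (g : P), z ^ i * g = g * z ^ i := by
    intro i g
    have h1 : Commute z g := hz g
    exact (h1.zpow_left i).eq
  have hzero : ∀ i : ℤ, z ^ i ∈ H → (i : ZMod p) = 0 := by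
    intro i hi
    by_contra hne
    rw [ZMod.intCast_zmod_eq_zero_iff_dvd] at hne
    have hp : Prime (p : ℤ) := Nat.prime_iff_prime_int.mp (Fact.out : p.Prime)
    have hcop : IsCoprime (p : ℤ) i := (Prime.coprime_iff_not_dvd hp).mpr hne
    obtain ⟨a, b, hab⟩ := hcop
    apply hH
    have h1 : z = (z ^ i) ^ b := by
      calc z = z ^ (1 : ℤ) := (zpow_one z).symm
        _ = z ^ (a * p + b * i) := by rw [hab]
        _ = (z ^ (p : ℤ)) ^ a * (z ^ i) ^ b := by
          rw [zpow_add, mul_comm a, mul_comm b, zpow_mul, zpow_mul]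
        _ = (z ^ i) ^ b := by rw [zpow_natCast, hzp, one_zpow, one_mul]
    rw [h1]
    exact H.zpow_mem hi b
  have huniq : ∀ (h h' r : P) (i j : ℤ), h ∈ H → h' ∈ H → h * z ^ i * r = h' * z ^ j * r →
      (i : ZMod p) = (j : ZMod p) := by
    intro h h' r i j hh hh' e
    have e1 : h * z ^ i = h' * z ^ j := mul_right_cancel e
    have e2 : z ^ (i - j) = h⁻¹ * h' := by
      rw [zpow_sub, eq_inv_mul_iff_mul_eq, ← mul_assoc, e1, mul_assoc, mul_inv_cancel, mul_one]
    have e3 : z ^ (i - j) ∈ H := by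
      rw [e2]
      exact H.mul_mem (H.inv_mem hh) hh'
    have e4 := hzero _ e3
    rw [Int.cast_sub] at e4
    exact sub_eq_zero.mp e4
  let S : Setoid P :=
    { r := fun g g' => ∃ h ∈ H, ∃ i : ℤ, g' = h * z ^ i * g
      iseqv :=
        { refl := fun g => ⟨1, H.one_mem, 0, by simp⟩
          symm := by
            rintro g g' ⟨h, hh, i, rfl⟩
            refine ⟨h⁻¹, H.inv_mem hh, -i, ?_⟩
            rw [mul_assoc h⁻¹, hzi, mul_assoc (h * z ^ i), mul_assoc h,
              inv_mul_cancel_left, hzi, mul_assoc, ← zpow_add, neg_add_cancel, zpow_zero, mul_one]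
          trans := by
            rintro g g' g'' ⟨h, hh, i, rfl⟩ ⟨h', hh', j, rfl⟩
            refine ⟨h' * h, H.mul_mem hh' hh, j + i, ?_⟩
            rw [zpow_add, mul_assoc h' (z ^ j), ← mul_assoc (z ^ j), ← mul_assoc (z ^ j), hzi j h]
            simp only [mul_assoc] } }
  have key : ∀ g : P, ∃ i : ℤ, ∃ h ∈ H, g = h * z ^ i * (Quotient.mk S g).out := by
    intro g
    obtain ⟨h, hh, i, e⟩ : ∃ h ∈ H, ∃ i : ℤ, g = h * z ^ i * (Quotient.mk S g).out :=
      Quotient.mk_out (s := S) g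
    exact ⟨i, h, hh, e⟩
  choose i h hh e using key
  refine ⟨fun g => (i g : ZMod p), ?_, ?_⟩
  · intro g
    have h1 : Quotient.mk S (z * g) = Quotient.mk S g := by
      apply Quotient.sound
      show ∃ h ∈ H, ∃ i : ℤ, g = h * z ^ i * (z * g)
      refine ⟨1, H.one_mem, -1, ?_⟩
      rw [one_mul, zpow_neg_one, inv_mul_cancel_left]
    have h2 := e (z * g)
    rw [h1] at h2
    have h3 : z * g = h g * z ^ (i g + 1) * (Quotient.mk S g).out := by
      conv_lhs => rw [e g]
      rw [← mul_assoc, ← mul_assoc, hz (h g), mul_assoc (h g), zpow_add, zpow_one, hzi]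
    have h4 := huniq _ _ _ _ _ (hh (z * g)) (hh g) (h2.symm.trans h3)
    rw [Int.cast_add, Int.cast_one] at h4
    exact h4
  · intro h0 hh0 g
    have h1 : Quotient.mk S (h0 * g) = Quotient.mk S g := by
      apply Quotient.sound
      show ∃ h ∈ H, ∃ i : ℤ, g = h * z ^ i * (h0 * g)
      refine ⟨h0⁻¹, H.inv_mem hh0, 0, ?_⟩
      rw [zpow_zero, mul_one, inv_mul_cancel_left]
    have h2 := e (h0 * g)
    rw [h1] at h2
    have h3 : h0 * g = h0 * h g * z ^ (i g) * (Quotient.mk S g).out := by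
      conv_lhs => rw [e g]
      simp only [mul_assoc]
    exact huniq _ _ _ _ _ (hh (h0 * g)) (H.mul_mem hh0 (hh g)) (h2.symm.trans h3)

end Pool.Agent.Helper85.PF
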