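import Pool.Agent.Helper85.PF.St.A4
import Pool.Agent.Helper85.PF.St.C1
import Pool.Agent.Helper85.PF.St.C2

/-! Project PF, piece C3: if the Fox derivative of `r` lies in the closed ideal of `r - 1` then some
element associated to `r` does not involve `x`. -/

set_option autoImplicit false
set_option linter.unusedSectionVars false

universe u

namespace Pool.Agent.Helper85.PF

open Filter Topology

open scoped commutatorElement

variable {p : ℕ} [Fact p.Prime] {X F : Type u} [Group F] [TopologicalSpace F]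
  [IsTopologicalGroup F] {ι : X → F}

/-- the additive extension of a function on the group to the group algebra -/
private noncomputable def ladd {P k : Type*} [Group P] [Ring k] (ρ : P → k) :
    MonoidAlgebra k P →+ k :=
  (Finsupp.liftAddHom (fun g => AddMonoidHom.mulRight (ρ g))).comp
    (MonoidAlgebra.coeffAddEquiv (R := k) (M := P)).toAddMonoidHom

private theorem ladd_single {P k : Type*} [Group P] [Ring k] (ρ : P → k) (g : P) (c : k) :
    ladd ρ (MonoidAlgebra.single g c) = c * ρ g := by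
  change (Finsupp.liftAddHom (fun g => AddMonoidHom.mulRight (ρ g)))
    (MonoidAlgebra.single g c).coeff = c * ρ g
  rw [MonoidAlgebra.coeff_single, Finsupp.liftAddHom_apply_single]
  rfl

private theorem of_sub_one_mul_single {P k : Type*} [Group P] [Ring k] (h g : P) (c : k) :
    (MonoidAlgebra.of k P h - 1) * MonoidAlgebra.single g c =
      MonoidAlgebra.single (h * g) c - MonoidAlgebra.single g c := by
  rw [sub_mul, one_mul, MonoidAlgebra.of_apply, MonoidAlgebra.single_mul_single, one_mul]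

private theorem ladd_sub_one_mul {P k : Type*} [Group P] [Ring k] (ρ σ : P → k) (h : P)
    (hρ : ∀ g, ρ (h * g) = ρ g + σ g) (b : MonoidAlgebra k P) :
    ladd ρ ((MonoidAlgebra.of k P h - 1) * b) = ladd σ b := by
  induction b using MonoidAlgebra.induction_linear with
  | zero => rw [mul_zero, map_zero, map_zero]
  | add x y hx hy => rw [mul_add, map_add, map_add, hx, hy]
  | single g c =>
    rw [of_sub_one_mul_single, map_sub, ladd_single, ladd_single, ladd_single, hρ, mul_add,
      add_sub_cancel_left]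

private theorem ladd_zero {P k : Type*} [Group P] [Ring k] (b : MonoidAlgebra k P) :
    ladd (fun _ : P => (0 : k)) b = 0 := by
  induction b using MonoidAlgebra.induction_linear with
  | zero => rw [map_zero]
  | add x y hx hy => rw [map_add, hx, hy, add_zero]
  | single g c => rw [ladd_single, mul_zero]

private theorem of_central {P k : Type*} [Group P] [Ring k] (z : P) (hz : ∀ g, z * g = g * z)
    (b : MonoidAlgebra k P) : MonoidAlgebra.of k P z * b = b * MonoidAlgebra.of k P z := by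
  induction b using MonoidAlgebra.induction_linear with
  | zero => rw [mul_zero, zero_mul]
  | add x y hx hy => rw [mul_add, add_mul, hx, hy]
  | single g c =>
    rw [MonoidAlgebra.of_apply, MonoidAlgebra.single_mul_single, MonoidAlgebra.single_mul_single,
      one_mul, mul_one, hz]

/-- an additive functional depending on finitely many coefficients has closed kernel -/
private theorem isClosed_ker (φ : NC X (ZMod p) →+ ZMod p) (W : Finset (List X))
    (hW : ∀ a b : NC X (ZMod p), (∀ w ∈ W, a w = b w) → φ a = φ b) :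
    IsClosed (φ.ker : Set (NC X (ZMod p))) := by
  rw [← isOpen_compl_iff, isOpen_iff_mem_nhds]
  intro a0 ha0
  have h5 : ∀ᶠ a in 𝓝 a0, ∀ w ∈ W, a w = a0 w := by
    rw [Filter.eventually_all_finset]
    intro w _
    have h6 : Continuous fun a : NC X (ZMod p) => a w := NC.continuous_apply w
    exact h6.continuousAt.eventually (p := fun z => z = a0 w)
      ((isOpen_discrete {a0 w}).mem_nhds rfl)
  refine Filter.mem_of_superset h5 ?_
  intro a ha h1
  apply ha0
  change φ a0 = 0
  rw [← hW a a0 ha]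
  exact h1

/-- PROOF. If `r = 1` take `s = 1`. Suppose no `s ∈ Y := FY ι {x}ᶜ` has `RN s = RN r`. By `eq_of_not_mem_RN1` every
`g ∈ Y` with `g ∈ RN r` is in `RN1 p r`. `exists_open_normal` gives `M`. `P = F ⧸ M`, `z = mk r` is central, `z^p = 1`,
`z ∉ H := image of Y` (`Y.map (mk' M)`). `exists_rho` gives `ρ`. Let `L : MonoidAlgebra (ZMod p) P → ZMod p` be the linear extension of `ρ`
(`Finsupp.sum`/`Finsupp.lsum`/`MonoidAlgebra` as finsupp) and `ε` the augmentation (linear extension of `1`). Then `L ((of z - 1) * b) = ε b` and `L ((of h - 1) * b) = 0`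
for `h ∈ H` (check on `b = of g`, linearity). Let `E, S, W` be from `exists_groupAlg_eval`.
Claim: for `c ∈ clIdeal (μ r - 1)`: `L ((of (mk (ι x)) - 1) * E c) = 0`. `{c | ...}` is an additive subgroup, closed (the function depends on
finitely many coefficients, `W`, `ZMod p` discrete), so `clIdeal_le`: for `c = b * (μ r - 1) * c'`:
`(of ξ - 1) * E b * (of z - 1) * E c' = (of z - 1) * ((of ξ - 1) * E b * E c')` (`of z` is central), `L` of it is
`ε ((of ξ - 1) * ...) = 0`.
Now apply the recursion of `E` to `a = μ r - 1` (`a [] = 0`: `μ r` has constant term `1`, `hom_ext` with `aug`, or use that the constant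
term is a homomorphism `F → ZMod p` trivial on the `ι x`): `E a = of z - 1`,
`1 = ρ z - ρ 1 = L (of z - 1) = ∑ y ∈ S, L ((of (mk (ι y)) - 1) * E (sh a y))`; the terms `y ≠ x` vanish since `mk (ι y) ∈ H`, the term `y = x` (if `x ∈ S`) vanishes by the
claim and `h`. Contradiction `1 = 0` in `ZMod p`. -/
theorem dep_of_mem (hF : IsFreeProP p ι) {μ : F →* NC X (ZMod p)} (hμ : IsMagnus p ι μ) (r : F)
    (x : X) (h : NC.sh (μ r - 1) x ∈ clIdeal (μ r - 1)) : Dep ι r {x}ᶜ := by
  by_cases hr : r = 1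
  · exact ⟨1, Subgroup.one_mem _, by rw [hr]⟩
  by_contra hcon
  have hYc : IsClosed (FY ι {x}ᶜ : Set F) := Subgroup.isClosed_topologicalClosure _
  have hY : ∀ g ∈ FY ι {x}ᶜ, g ∈ RN r → g ∈ RN1 p r := by
    intro g hg hgr
    by_contra hg1
    exact hcon ⟨g, hg, eq_of_not_mem_RN1 hF.isProP hgr hg1⟩
  obtain ⟨M, hMn, hMo, hMp, hMc, hMs⟩ := exists_open_normal hF.isProP hr (FY ι {x}ᶜ) hYc hY
  obtain ⟨z, hzr⟩ : ∃ z : F ⧸ M, z = QuotientGroup.mk r := ⟨_, rfl⟩
  have hz : ∀ g, z * g = g * z := by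
    intro g
    obtain ⟨g, rfl⟩ := QuotientGroup.mk'_surjective M g
    have h1 : QuotientGroup.mk' M ⁅r, g⁆ = 1 := (QuotientGroup.eq_one_iff _).2 (hMc g)
    rw [map_commutatorElement, commutatorElement_eq_one_iff_mul_comm] at h1
    rw [hzr]
    exact h1
  have hzp : z ^ p = 1 := by
    have h1 : QuotientGroup.mk' M (r ^ p) = 1 := (QuotientGroup.eq_one_iff _).2 hMp
    rw [map_pow] at h1
    rw [hzr]
    exact h1
  have hH : z ∉ (FY ι {x}ᶜ).map (QuotientGroup.mk' M) := by
    rintro ⟨y, hy, hyz⟩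
    rw [hzr] at hyz
    have h1 : y⁻¹ * r ∈ M := QuotientGroup.eq.1 hyz
    exact hMs y hy _ h1 (by group)
  obtain ⟨ρ, hρz, hρH⟩ := exists_rho (p := p) z hz hzp ((FY ι {x}ᶜ).map (QuotientGroup.mk' M)) hH
  obtain ⟨E, S, W, hE, hErec, hW⟩ := exists_groupAlg_eval hF hμ M hMo
  obtain ⟨L, hL⟩ : ∃ L : MonoidAlgebra (ZMod p) (F ⧸ M) →+ ZMod p, L = ladd ρ := ⟨_, rfl⟩
  obtain ⟨ε, hε⟩ : ∃ ε : MonoidAlgebra (ZMod p) (F ⧸ M) →+ ZMod p, ε = ladd (fun _ => 1) :=
    ⟨_, rfl⟩
  have hF1 : ∀ b, L ((MonoidAlgebra.of (ZMod p) (F ⧸ M) z - 1) * b) = ε b := by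
    intro b
    rw [hL, hε]
    exact ladd_sub_one_mul ρ (fun _ => 1) z hρz b
  have hF2 : ∀ q ∈ (FY ι {x}ᶜ).map (QuotientGroup.mk' M), ∀ b,
      L ((MonoidAlgebra.of (ZMod p) (F ⧸ M) q - 1) * b) = 0 := by
    intro q hq b
    rw [hL, ladd_sub_one_mul ρ (fun _ => 0) q (fun g => by rw [hρH q hq, add_zero]) b]
    exact ladd_zero b
  have hF3 : ∀ q b, ε ((MonoidAlgebra.of (ZMod p) (F ⧸ M) q - 1) * b) = 0 := by
    intro q b
    rw [hε, ladd_sub_one_mul (fun _ => 1) (fun _ => 0) q (fun g => by rw [add_zero]) b]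
    exact ladd_zero b
  have hEa : E (μ r - 1) = MonoidAlgebra.of (ZMod p) (F ⧸ M) z - 1 := by
    rw [map_sub, map_one, hE, hzr]
  -- the claim
  obtain ⟨φ, hφ⟩ : ∃ φ : NC X (ZMod p) →+ ZMod p, ∀ a, φ a =
      L ((MonoidAlgebra.of (ZMod p) (F ⧸ M) (QuotientGroup.mk (ι x)) - 1) * E a) :=
    ⟨L.comp ((AddMonoidHom.mulLeft
      (MonoidAlgebra.of (ZMod p) (F ⧸ M) (QuotientGroup.mk (ι x)) - 1)).comp
      (E : NC X (ZMod p) →+ MonoidAlgebra (ZMod p) (F ⧸ M))), fun a => rfl⟩
  have hcl : clIdeal (μ r - 1) ≤ φ.ker := by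
    refine clIdeal_le (isClosed_ker φ W fun a b hab => by rw [hφ, hφ, hW a b hab]) ?_
    intro b c
    change φ (b * (μ r - 1) * c) = 0
    have hEm : E (b * (μ r - 1) * c) = E b * (MonoidAlgebra.of (ZMod p) (F ⧸ M) z - 1) * E c := by
      rw [← hEa, ← map_mul, ← map_mul]
    rw [hφ, hEm]
    have hcen := of_central (k := ZMod p) z hz
    have h1 : (MonoidAlgebra.of (ZMod p) (F ⧸ M) (QuotientGroup.mk (ι x)) - 1) *
        (E b * (MonoidAlgebra.of (ZMod p) (F ⧸ M) z - 1) * E c) =
        (MonoidAlgebra.of (ZMod p) (F ⧸ M) z - 1) *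
        ((MonoidAlgebra.of (ZMod p) (F ⧸ M) (QuotientGroup.mk (ι x)) - 1) * (E b * E c)) := by
      have h2 := hcen ((MonoidAlgebra.of (ZMod p) (F ⧸ M) (QuotientGroup.mk (ι x)) - 1) * E b)
      calc (MonoidAlgebra.of (ZMod p) (F ⧸ M) (QuotientGroup.mk (ι x)) - 1) *
          (E b * (MonoidAlgebra.of (ZMod p) (F ⧸ M) z - 1) * E c)
          = (((MonoidAlgebra.of (ZMod p) (F ⧸ M) (QuotientGroup.mk (ι x)) - 1) * E b) *
            MonoidAlgebra.of (ZMod p) (F ⧸ M) z -
            ((MonoidAlgebra.of (ZMod p) (F ⧸ M) (QuotientGroup.mk (ι x)) - 1) * E b)) * E c := by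
            noncomm_ring
        _ = (MonoidAlgebra.of (ZMod p) (F ⧸ M) z *
            ((MonoidAlgebra.of (ZMod p) (F ⧸ M) (QuotientGroup.mk (ι x)) - 1) * E b) -
            ((MonoidAlgebra.of (ZMod p) (F ⧸ M) (QuotientGroup.mk (ι x)) - 1) * E b)) * E c := by
            rw [h2]
        _ = _ := by noncomm_ring
    rw [h1, hF1, hF3]
  -- the constant term
  have hεalg : ∀ c : ZMod p, ε (algebraMap (ZMod p) _ c) = c := by
    intro c
    rw [hε, MonoidAlgebra.coe_algebraMap]
    change ladd _ (MonoidAlgebra.single 1 (algebraMap (ZMod p) (ZMod p) c)) = c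
    rw [ladd_single, mul_one]
    rfl
  have h0 : (μ r - 1 : NC X (ZMod p)) [] = 0 := by
    have h1 := congrArg ε (hErec (μ r - 1))
    rw [map_add, hεalg, map_sum, Finset.sum_eq_zero (fun y _ => hF3 _ _), add_zero, hEa] at h1
    rw [← h1]
    have h2 := hF3 z 1
    rwa [mul_one] at h2
  have h1 := congrArg L (hErec (μ r - 1))
  rw [h0, map_zero, zero_add, map_sum, hEa] at h1
  have h2 := hF1 1
  rw [mul_one] at h2
  rw [h2, Finset.sum_eq_zero] at h1
  · have h3 := hεalg 1
    rw [map_one] at h3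
    rw [h3] at h1
    exact one_ne_zero h1
  · intro y _
    by_cases hy : y = x
    · rw [hy]
      have h3 := hcl h
      have h4 : φ (NC.sh (μ r - 1) x) = 0 := h3
      rw [hφ] at h4
      exact h4
    · refine hF2 _ ⟨ι y, ?_, rfl⟩ _
      exact Subgroup.le_topologicalClosure _ (Subgroup.subset_closure ⟨y, hy, rfl⟩)

end Pool.Agent.Helper85.PF
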