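import Pool.Agent.Helper85.PF.St.A2

/-! Project PF, piece D1: from the dichotomy to Q1. -/

set_option autoImplicit false
set_option linter.unusedSectionVars false

universe u

namespace Pool.Agent.Helper85.PF

open Filter Topology

variable {p : ℕ} [Fact p.Prime] {X F : Type u} [Group F] [TopologicalSpace F]
  [IsTopologicalGroup F] {ι : X → F}

private theorem mem_RN_self (a : F) : a ∈ RN a :=
  Subgroup.le_topologicalClosure _ (Subgroup.subset_normalClosure rfl)

private theorem RN_le_of_mem {a : F} {N : Subgroup F} [N.Normal] (hc : IsClosed (N : Set F))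
    (ha : a ∈ N) : RN a ≤ N := by
  apply Subgroup.topologicalClosure_minimal _ _ hc
  apply Subgroup.normalClosure_le_normal
  rwa [Set.singleton_subset_iff]

private theorem isClosed_RN (a : F) : IsClosed (RN a : Set F) :=
  Subgroup.isClosed_topologicalClosure _

private theorem map_mem_RN {π : F →* F} (hπ : Continuous π) {a b : F} (h : a ∈ RN b) :
    π a ∈ RN (π b) := by
  have h1 : RN b ≤ (RN (π b)).comap π := by
    refine RN_le_of_mem ?_ ?_
    · exact (isClosed_RN (π b)).preimage hπ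
    · exact mem_RN_self (π b)
  exact h1 h

/-- PROOF. Let `X'` be minimal, `x ∈ X'`, and suppose `s ∈ FY ι {x}ᶜ`, `RN s = RN r`; let `s' ∈ FY ι X'`, `RN s' = RN r`. Let
`π` be the retraction for `X'` (`exists_retract`). `π s ∈ FY ι ({x}ᶜ ∩ X')`, `π s' = s'`. For all `a, b`: `a ∈ RN b → π a ∈ RN (π b)`
(`RN (π b)` is closed and normal, its preimage is a closed normal subgroup containing `b`). `s ∈ RN s'` gives `π s ∈ RN s'`, `s' ∈ RN s` gives
`s' ∈ RN (π s)`; so `RN (π s) = RN s' = RN r`, `Dep ι r ({x}ᶜ ∩ X')`, and minimality gives `X' ≤ {x}ᶜ ∩ X'`, contradiction. -/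
theorem q1_of_dichotomy (hF : IsFreeProP p ι) (r : F)
    (h : ∀ x, StaysFree ι r x ∨ Dep ι r {x}ᶜ) : Q1 ι r := by
  intro X' hX' x hx
  rcases h x with hs | ⟨s, hs, hsr⟩
  · exact hs
  exfalso
  obtain ⟨s', hs', hsr'⟩ := hX'.prop
  obtain ⟨π, hπ, -, -, hfix, hmap⟩ := exists_retract hF X'
  have h1 : π s ∈ RN s' := by
    have h2 : s ∈ RN s' := by rw [hsr', ← hsr]; exact mem_RN_self s
    have h3 := map_mem_RN hπ h2
    rwa [hfix s' hs'] at h3
  have h4 : s' ∈ RN (π s) := by
    have h2 : s' ∈ RN s := by rw [hsr, ← hsr']; exact mem_RN_self s'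
    have h3 := map_mem_RN hπ h2
    rwa [hfix s' hs'] at h3
  have h5 : RN (π s) = RN r := by
    rw [← hsr']
    exact le_antisymm (RN_le_of_mem (isClosed_RN s') h1) (RN_le_of_mem (isClosed_RN (π s)) h4)
  have h6 : Dep ι r ({x}ᶜ ∩ X') := ⟨π s, hmap _ s hs, h5⟩
  have h7 : X' ≤ {x}ᶜ ∩ X' := hX'.2 h6 Set.inter_subset_right
  exact (h7 hx).1 rfl

end Pool.Agent.Helper85.PF
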