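import Pool.Agent.Helper85.PF.FA

/-! Project PF, piece E2: reduction to finite alphabets. -/

set_option autoImplicit false
set_option linter.unusedSectionVars false

universe u

namespace Pool.Agent.Helper85.PF

open Filter Topology

variable {X k : Type*} [Ring k] [TopologicalSpace k] [IsTopologicalRing k] [CompactSpace k]
  [T2Space k]

private theorem res_mem_clIdeal (S : Set X) {u j : NC X k} (hj : j ∈ clIdeal u) :
    (res S j : NC S k) ∈ clIdeal (res S u : NC S k) := by
  let I : AddSubgroup (NC X k) :=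
    (clIdeal (res S u : NC S k)).comap (res S : NC X k →+* NC S k).toAddMonoidHom
  have hI : IsClosed (I : Set (NC X k)) :=
    (isClosed_clIdeal (res S u : NC S k)).preimage (continuous_res S)
  have h : clIdeal u ≤ I := clIdeal_le hI fun b c => by
    change (res S (b * u * c) : NC S k) ∈ clIdeal (res S u : NC S k)
    rw [map_mul, map_mul]
    exact mul_mem_clIdeal_right _ (mul_mem_clIdeal_left _ (mem_clIdeal_self _))
  exact h hj

/-- PROOF. `⊆`: `clIdeal_le` for the preimage. `⊇`: the image is closed (compact, `isClosed_clIdeal`) and contains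
`b * res S u * c` (`res_surjective`). -/
theorem map_res_clIdeal (S : Set X) (u : NC X k) :
    (res S : NC X k → NC S k) '' (clIdeal u : Set (NC X k)) = (clIdeal (res S u) : Set (NC S k)) := by
  apply Set.Subset.antisymm
  · rintro _ ⟨j, hj, rfl⟩
    exact res_mem_clIdeal S hj
  · let I : AddSubgroup (NC S k) :=
      (clIdeal u).map (res S : NC X k →+* NC S k).toAddMonoidHom
    have hcoe : (I : Set (NC S k)) = (res S : NC X k → NC S k) '' (clIdeal u : Set (NC X k)) := rfl
    have hI : IsClosed (I : Set (NC S k)) := by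
      rw [hcoe]
      exact ((isClosed_clIdeal u).isCompact.image (continuous_res S)).isClosed
    have h : clIdeal (res S u : NC S k) ≤ I := clIdeal_le hI fun b c => by
      obtain ⟨b', rfl⟩ := res_surjective S b
      obtain ⟨c', rfl⟩ := res_surjective S c
      refine ⟨b' * u * c', ?_, ?_⟩
      · exact mul_mem_clIdeal_right _ (mul_mem_clIdeal_left _ (mem_clIdeal_self _))
      · change (res S (b' * u * c') : NC S k) = _
        rw [map_mul, map_mul]
    exact h

private theorem lift_word {S : Set X} {w : List X} (h : ∀ x ∈ w, x ∈ S) :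
    ∃ w' : List S, w'.map Subtype.val = w := by
  induction w with
  | nil => exact ⟨[], rfl⟩
  | cons x w ih =>
    obtain ⟨w', hw'⟩ := ih fun y hy => h y (List.mem_cons_of_mem _ hy)
    exact ⟨⟨x, h x List.mem_cons_self⟩ :: w', by rw [List.map_cons, hw']⟩

/-- PROOF. If `res S a ∈ clIdeal (res S u)` for all large finite `S`, choose `j S ∈ clIdeal u` with `res S (j S) = res S a` by
`map_res_clIdeal`; `j S → a` along `atTop` of `Finset X` (each coefficient is eventually equal), closedness. -/
theorem mem_clIdeal_of_res (u a : NC X k) (S₀ : Finset X)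
    (h : ∀ S : Finset X, S₀ ⊆ S → res (S : Set X) a ∈ clIdeal (res (S : Set X) u)) :
    a ∈ clIdeal u := by
  classical
  have h1 : ∀ S : Finset X, ∃ j : NC X k, S₀ ⊆ S →
      j ∈ clIdeal u ∧ (res (S : Set X) j : NC (S : Set X) k) = res (S : Set X) a := by
    intro S
    by_cases hS : S₀ ⊆ S
    · have h2 : (res (S : Set X) a : NC (S : Set X) k) ∈
          (clIdeal (res (S : Set X) u : NC (S : Set X) k) : Set (NC (S : Set X) k)) := h S hS
      rw [← map_res_clIdeal] at h2
      obtain ⟨j, hj, hj2⟩ := h2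
      exact ⟨j, fun _ => ⟨hj, hj2⟩⟩
    · exact ⟨0, fun h => absurd h hS⟩
  choose j hj using h1
  refine (isClosed_clIdeal u).mem_of_tendsto (f := j) (b := Filter.atTop) (x := a) ?_ ?_
  · rw [NC.tendsto_iff]
    intro w
    refine tendsto_const_nhds.congr' ?_
    rw [Filter.EventuallyEq, Filter.eventually_atTop]
    refine ⟨S₀ ∪ w.toFinset, fun S hS => ?_⟩
    have hS0 : S₀ ⊆ S := Finset.union_subset_left hS
    have hSw : ∀ x ∈ w, x ∈ (S : Set X) := fun x hx =>
      hS (Finset.mem_union_right _ (List.mem_toFinset.2 hx))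
    obtain ⟨w', hw'⟩ := lift_word hSw
    have h3 := congrArg (fun b : NC (S : Set X) k => b w') (hj S hS0).2
    simp only [res_apply, hw'] at h3
    exact h3.symm
  · rw [Filter.eventually_atTop]
    exact ⟨S₀, fun S hS => (hj S hS).1⟩

private theorem res_mem_of_subset {S T : Set X} (hST : S ⊆ T) {u a : NC X k}
    (h : (res T a : NC T k) ∈ clIdeal (res T u : NC T k)) :
    (res S a : NC S k) ∈ clIdeal (res S u : NC S k) := by
  have h2 : (res T a : NC T k) ∈ (clIdeal (res T u : NC T k) : Set (NC T k)) := h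
  rw [← map_res_clIdeal] at h2
  obtain ⟨j, hj, hj2⟩ := h2
  have h3 : (res S a : NC S k) = res S j := by
    ext w
    rw [res_apply, res_apply]
    obtain ⟨w', hw'⟩ := lift_word (S := T) (w := w.map Subtype.val) (by
      intro x hx
      obtain ⟨y, _, rfl⟩ := List.mem_map.1 hx
      exact hST y.2)
    have h4 := congrArg (fun b : NC T k => b w') hj2
    simp only [res_apply, hw'] at h4
    exact h4.symm
  rw [h3]
  exact res_mem_clIdeal S hj

/-- PROOF. Let `a * b ∈ clIdeal u`, `a, b ∉ clIdeal u`. By `mem_clIdeal_of_res` there are `S₁ ⊇ S₀` with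
`res S₁ a ∉ clIdeal (res S₁ u)` and `S₂` for `b`. For `S = S₁ ∪ S₂` also `res S a ∉ clIdeal (res S u)` (restrict further: the restriction
of a series in `clIdeal (res S u)` to `S₁` lies in `clIdeal (res S₁ u)`; do it on the level of `X` with `map_res_clIdeal`: if
`res S a = res S j`, `j ∈ clIdeal u`, then `res S₁ a = res S₁ j`). But `res S a * res S b = res S (a*b) ∈ clIdeal (res S u)`. -/
theorem isPrimeCl_of_res (u : NC X k) (S₀ : Finset X)
    (h : ∀ S : Finset X, S₀ ⊆ S → IsPrimeCl (res (S : Set X) u)) : IsPrimeCl u := by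
  classical
  intro a b hab
  by_contra hcon
  push Not at hcon
  obtain ⟨ha, hb⟩ := hcon
  have h1 : ∃ S₁ : Finset X, S₀ ⊆ S₁ ∧
      (res (S₁ : Set X) a : NC (S₁ : Set X) k) ∉ clIdeal (res (S₁ : Set X) u) := by
    by_contra hc
    push Not at hc
    exact ha (mem_clIdeal_of_res u a S₀ hc)
  have h2 : ∃ S₂ : Finset X, S₀ ⊆ S₂ ∧
      (res (S₂ : Set X) b : NC (S₂ : Set X) k) ∉ clIdeal (res (S₂ : Set X) u) := by
    by_contra hc
    push Not at hc
    exact hb (mem_clIdeal_of_res u b S₀ hc)
  obtain ⟨S₁, hS1, ha1⟩ := h1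
  obtain ⟨S₂, hS2, hb2⟩ := h2
  have hab' := res_mem_clIdeal ((S₁ ∪ S₂ : Finset X) : Set X) hab
  rw [map_mul] at hab'
  rcases h (S₁ ∪ S₂) (hS1.trans Finset.subset_union_left) _ _ hab' with h3 | h3
  · exact ha1 (res_mem_of_subset (Finset.coe_subset.2 Finset.subset_union_left) h3)
  · exact hb2 (res_mem_of_subset (Finset.coe_subset.2 Finset.subset_union_right) h3)

end Pool.Agent.Helper85.PF
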