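import Pool.Agent.Helper85.PF.FA

/-! Project PF, piece T0: the free algebra inside the power series. -/

set_option autoImplicit false
set_option linter.unusedSectionVars false

universe u

namespace Pool.Agent.Helper85.PF

open Filter Topology

variable {X k : Type*} [CommRing k]

/-- the monomial of a word -/
private noncomputable def wp (X k : Type*) [CommRing k] (w : List X) : FreeAlgebra k X :=
  (w.map (FreeAlgebra.ι k)).prod

private theorem toNC_wp (w : List X) : ∀ v : List X,
    toNC (wp X k w) w = 1 ∧ (v ≠ w → toNC (wp X k w) v = 0) := by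
  induction w with
  | nil =>
    intro v
    have h1 : toNC (wp X k []) = 1 := by simp [wp]
    rw [h1]
    refine ⟨rfl, fun h => ?_⟩
    cases v with
    | nil => exact absurd rfl h
    | cons x v => rfl
  | cons x w ih =>
    intro v
    have h1 : toNC (wp X k (x :: w)) = NC.var x * toNC (wp X k w) := by
      simp [wp]
    rw [h1]
    refine ⟨?_, fun h => ?_⟩
    · rw [NC.var_mul_cons_self]
      exact (ih []).1
    · cases v with
      | nil => simp
      | cons y v =>
        by_cases hy : y = x
        · subst hy
          rw [NC.var_mul_cons_self]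
          exact (ih v).2 (fun h2 => h (by rw [h2]))
        · exact NC.var_mul_cons_ne hy _ _

private theorem equiv_wp (w : List X) :
    FreeAlgebra.equivMonoidAlgebraFreeMonoid (wp X k w) =
      MonoidAlgebra.single (FreeMonoid.ofList w) 1 := by
  induction w with
  | nil =>
    have h1 : wp X k [] = 1 := by simp [wp]
    rw [h1, map_one]
    rfl
  | cons x w ih =>
    have h1 : wp X k (x :: w) = FreeAlgebra.ι k x * wp X k w := by simp [wp]
    have h2 : FreeAlgebra.equivMonoidAlgebraFreeMonoid (FreeAlgebra.ι k x) =
        (MonoidAlgebra.single (FreeMonoid.of x) 1 : MonoidAlgebra k (FreeMonoid X)) := by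
      simp [FreeAlgebra.equivMonoidAlgebraFreeMonoid, MonoidAlgebra.of_apply]
    rw [h1, map_mul, ih, h2, MonoidAlgebra.single_mul_single, one_mul]
    rfl

/-- PROOF. `FreeAlgebra.equivMonoidAlgebraFreeMonoid` : the element of `MonoidAlgebra k (FreeMonoid X)` is the finitely
supported coefficient function of `toNC t`: show `toNC (e.symm f) w = f (FreeMonoid.ofList w)` for `f = single w' c` by
induction on `w'` (`var_mul_cons_self`, `var_mul_cons_ne`), then by linearity. -/
theorem toNC_injective : Function.Injective (toNC : FreeAlgebra k X →ₐ[k] NC X k) := by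
  classical
  rw [injective_iff_map_eq_zero]
  intro t ht
  set f : MonoidAlgebra k (FreeMonoid X) := FreeAlgebra.equivMonoidAlgebraFreeMonoid t with hf
  have h1 : t = ∑ m ∈ f.coeff.support, f.coeff m • wp X k (FreeMonoid.toList m) := by
    apply FreeAlgebra.equivMonoidAlgebraFreeMonoid.injective
    rw [← hf, map_sum]
    simp only [map_smul, equiv_wp]
    conv_lhs => rw [← MonoidAlgebra.sum_coeff_single f]
    refine Finset.sum_congr rfl fun m _ => ?_
    simp
  have h2 : ∀ m, f.coeff m = 0 := by
    intro m
    by_contra hm
    have h3 : (toNC t : NC X k) (FreeMonoid.toList m) = 0 := by rw [ht]; rfl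
    rw [h1, map_sum] at h3
    have happ : (∑ m ∈ f.coeff.support, toNC (f.coeff m • wp X k (FreeMonoid.toList m)) : NC X k)
        (FreeMonoid.toList m) = ∑ m' ∈ f.coeff.support,
          (toNC (f.coeff m' • wp X k (FreeMonoid.toList m')) : NC X k) (FreeMonoid.toList m) :=
      Finset.sum_apply _ _ _
    rw [happ, Finset.sum_eq_single m] at h3
    · rw [map_smul, NC.smul_apply, (toNC_wp _ []).1, mul_one] at h3
      exact hm h3
    · intro m' _ hne
      rw [map_smul, NC.smul_apply, (toNC_wp _ _).2, mul_zero]
      intro h4
      exact hne (FreeMonoid.toList.injective h4.symm)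
    · intro hn
      exact absurd (Finsupp.mem_support_iff.2 hm) hn
  rw [h1]
  exact Finset.sum_eq_zero fun m _ => by rw [h2 m, zero_smul]

/-- finitely supported series are in the image. PROOF. Finite sum of `c • toNC ((w.map ι).prod)`. -/
theorem exists_toNC_of_finite (a : NC X k) (h : {w | a w ≠ 0}.Finite) :
    ∃ t : FreeAlgebra k X, toNC t = a := by
  classical
  refine ⟨∑ w ∈ h.toFinset, a w • wp X k w, ?_⟩
  ext v
  rw [map_sum]
  have happ : (∑ w ∈ h.toFinset, toNC (a w • wp X k w) : NC X k) v =
      ∑ w ∈ h.toFinset, (toNC (a w • wp X k w) : NC X k) v := Finset.sum_apply _ _ _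
  rw [happ]
  by_cases hv : a v = 0
  · rw [hv]
    refine Finset.sum_eq_zero fun w hw => ?_
    rw [map_smul, NC.smul_apply, (toNC_wp w v).2, mul_zero]
    rintro rfl
    exact (h.mem_toFinset.1 hw) hv
  · rw [Finset.sum_eq_single v]
    · rw [map_smul, NC.smul_apply, (toNC_wp v []).1, mul_one]
    · intro w _ hw
      rw [map_smul, NC.smul_apply, (toNC_wp w v).2 (Ne.symm hw), mul_zero]
    · intro hn
      exact absurd (h.mem_toFinset.2 hv) hn

/-- PROOF. Finitely many words of weight `d` over a finite alphabet with positive weights (length `≤ d`). -/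
theorem exists_toNC_hc [Finite X] (wt : X → ℕ) (hwt : ∀ x, 0 < wt x) (d : ℕ) (a : NC X k) :
    ∃ t : FreeAlgebra k X, toNC t = hc wt d a := by
  apply exists_toNC_of_finite
  refine (List.finite_length_le X d).subset ?_
  intro w hw
  rw [Set.mem_ofPred_eq, hc_apply] at hw
  have h1 : wtw wt w = d := by
    by_contra h
    rw [if_neg h] at hw
    exact hw rfl
  rw [Set.mem_ofPred_eq, ← h1]
  have h2 : ∀ w : List X, w.length ≤ wtw wt w := by
    intro w
    induction w with
    | nil => simp
    | cons x w ih =>
      have := hwt x
      rw [List.length_cons, wtw_cons]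
      omega
  exact h2 w

end Pool.Agent.Helper85.PF
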