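import Pool.Agent.Helper85.PF.St.E1
import Pool.Agent.Helper85.PF.St.T0

/-! Project PF, piece E3: the criterion for a completely prime initial ideal. -/

set_option autoImplicit false
set_option linter.unusedSectionVars false

universe u

namespace Pool.Agent.Helper85.PF

open Filter Topology

variable {X k : Type*} [CommRing k] [TopologicalSpace k] [IsTopologicalRing k] [CompactSpace k]
  [T2Space k]

/-- elements of the ideal of the initial form have no terms of low weight -/
private theorem e3_low {wt : X → ℕ} {n : ℕ} {u : NC X k} {ρ : FreeAlgebra k X}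
    (hρ : toNC ρ = hc wt n u) {t : FreeAlgebra k X} (ht : t ∈ TwoSidedIdeal.span {ρ}) :
    Low wt n (toNC t) := by
  induction ht using TwoSidedIdeal.span_induction with
  | mem x hx =>
    rw [Set.mem_singleton_iff] at hx
    rw [hx, hρ]
    exact low_hc wt n u
  | zero =>
    rw [map_zero]
    intro w _
    rfl
  | add x y hx hy ihx ihy =>
    rw [map_add]
    exact ihx.add wt ihy
  | neg x hx ih =>
    rw [map_neg]
    exact ih.neg wt
  | left_absorb a x hx ih =>
    rw [map_mul]
    exact ih.mul_left wt _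
  | right_absorb a x hx ih =>
    rw [map_mul]
    exact ih.mul_right wt _

private theorem e3_low_sum {wt : X → ℕ} {κ : Type*} {s : Finset κ} {f : κ → NC X k} {d : ℕ}
    (h : ∀ i ∈ s, Low wt d (f i)) : Low wt d (∑ i ∈ s, f i) := by
  classical
  induction s using Finset.induction_on with
  | empty =>
    rw [Finset.sum_empty]
    intro w _
    rfl
  | insert i s hi ih =>
    rw [Finset.sum_insert hi]
    exact (h i (Finset.mem_insert_self i s)).add wt
      (ih fun j hj => h j (Finset.mem_insert_of_mem hj))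

/-- the components of elements of the ideal of the initial form are components of elements of the
closed ideal -/
private theorem e3_lift {wt : X → ℕ} {n : ℕ} {u : NC X k} (hlow : Low wt n u)
    {ρ : FreeAlgebra k X} (hρ : toNC ρ = hc wt n u) {t : FreeAlgebra k X}
    (ht : t ∈ TwoSidedIdeal.span {ρ}) :
    ∀ d, ∃ j ∈ clIdeal u, Low wt d j ∧ hc wt d j = hc wt d (toNC t) := by
  induction ht using TwoSidedIdeal.span_induction with
  | mem x hx =>
    rw [Set.mem_singleton_iff] at hx
    intro d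
    rw [hx, hρ]
    by_cases hd : d = n
    · subst hd
      exact ⟨u, mem_clIdeal_self u, hlow, (hc_hc_self wt d u).symm⟩
    · refine ⟨0, (clIdeal u).zero_mem, fun w _ => rfl, ?_⟩
      rw [hc_zero, hc_hc_ne wt hd]
  | zero =>
    intro d
    refine ⟨0, (clIdeal u).zero_mem, fun w _ => rfl, ?_⟩
    rw [map_zero]
  | add x y hx hy ihx ihy =>
    intro d
    obtain ⟨j, hj, hl, he⟩ := ihx d
    obtain ⟨j', hj', hl', he'⟩ := ihy d
    refine ⟨j + j', (clIdeal u).add_mem hj hj', hl.add wt hl', ?_⟩
    rw [map_add, hc_add, hc_add, he, he']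
  | neg x hx ih =>
    intro d
    obtain ⟨j, hj, hl, he⟩ := ih d
    refine ⟨-j, (clIdeal u).neg_mem hj, hl.neg wt, ?_⟩
    rw [map_neg, hc_neg, hc_neg, he]
  | left_absorb s x hx ih =>
    intro d
    choose j hj hl he using ih
    refine ⟨∑ q ∈ Finset.HasAntidiagonal.antidiagonal d, hc wt q.1 (toNC s) * j q.2, ?_, ?_, ?_⟩
    · exact AddSubgroup.sum_mem _ fun q _ => mul_mem_clIdeal_left _ (hj q.2)
    · refine e3_low_sum ?_
      intro q hq
      rw [Finset.HasAntidiagonal.mem_antidiagonal] at hq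
      have := (low_hc wt q.1 (toNC s)).mul wt (hl q.2)
      rwa [hq] at this
    · rw [hc_sum, map_mul, hc_mul]
      refine Finset.sum_congr rfl fun q hq => ?_
      rw [Finset.HasAntidiagonal.mem_antidiagonal] at hq
      have := hc_mul_of_low wt (low_hc wt q.1 (toNC s)) (hl q.2)
      rw [hq, hc_hc_self, he] at this
      exact this
  | right_absorb s x hx ih =>
    intro d
    choose j hj hl he using ih
    refine ⟨∑ q ∈ Finset.HasAntidiagonal.antidiagonal d, j q.1 * hc wt q.2 (toNC s), ?_, ?_, ?_⟩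
    · exact AddSubgroup.sum_mem _ fun q _ => mul_mem_clIdeal_right _ (hj q.1)
    · refine e3_low_sum ?_
      intro q hq
      rw [Finset.HasAntidiagonal.mem_antidiagonal] at hq
      have := (hl q.1).mul wt (low_hc wt q.2 (toNC s))
      rwa [hq] at this
    · rw [hc_sum, map_mul, hc_mul]
      refine Finset.sum_congr rfl fun q hq => ?_
      rw [Finset.HasAntidiagonal.mem_antidiagonal] at hq
      have := hc_mul_of_low wt (hl q.1) (low_hc wt q.2 (toNC s))
      rw [hq, hc_hc_self, he] at this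
      exact this

/-- the additive subgroup `K` of the proof -/
private def e3K (wt : X → ℕ) (ρ : FreeAlgebra k X) : AddSubgroup (NC X k) where
  carrier := {a | ∀ d, ∃ t ∈ TwoSidedIdeal.span {ρ}, toNC t = hc wt d a}
  zero_mem' := fun d => ⟨0, TwoSidedIdeal.zero_mem _, by rw [map_zero, hc_zero]⟩
  add_mem' := by
    intro a b ha hb d
    obtain ⟨t, ht, he⟩ := ha d
    obtain ⟨t', ht', he'⟩ := hb d
    exact ⟨t + t', TwoSidedIdeal.add_mem _ ht ht', by rw [map_add, hc_add, he, he']⟩
  neg_mem' := by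
    intro a ha d
    obtain ⟨t, ht, he⟩ := ha d
    exact ⟨-t, TwoSidedIdeal.neg_mem _ ht, by rw [map_neg, hc_neg, he]⟩

private theorem e3K_mem {wt : X → ℕ} {ρ : FreeAlgebra k X} {a : NC X k} :
    a ∈ e3K wt ρ ↔ ∀ d, ∃ t ∈ TwoSidedIdeal.span {ρ}, toNC t = hc wt d a := Iff.rfl

/-- a homogeneous series is in `K` if it comes from the ideal -/
private theorem e3K_of_hom {wt : X → ℕ} {ρ : FreeAlgebra k X} {d : ℕ} {a : NC X k}
    {t : FreeAlgebra k X} (ht : t ∈ TwoSidedIdeal.span {ρ}) (he : toNC t = hc wt d a) :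
    hc wt d a ∈ e3K wt ρ := by
  intro e
  by_cases h : e = d
  · subst h
    exact ⟨t, ht, by rw [hc_hc_self, he]⟩
  · exact ⟨0, TwoSidedIdeal.zero_mem _, by rw [map_zero, hc_hc_ne wt h]⟩

/-- PROOF. Let `I = TwoSidedIdeal.span {ρ}` and `K = {a | ∀ d, ∃ t ∈ I, toNC t = hc wt d a}`; apply `isPrimeCl_of_graded`.
K1: `hc d (b*a) = ∑ hc i b * hc j a` (`hc_mul`), `hc i b = toNC b_i` by `exists_toNC_hc`. K2: `hc_hc_self`, `hc_hc_ne`.
K3: show for all `t ∈ I` and `d` that there is `j ∈ clIdeal u` with `Low d j` and `hc d j = hc d (toNC t)`; the set of such `t` is closed under addition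
and contains `α ρ β`: `toNC (α ρ β) = toNC α * hc n u * toNC β`, `hc d` of it is `∑ hc i (toNC α) * hc n u * hc l (toNC β)` over
`i + n + l = d` (two applications of `hc_mul`), take `j = ∑ hc i (toNC α) * u * hc l (toNC β)` (`hc_mul_of_low`). (Elements of a span of a two-sided ideal:
`TwoSidedIdeal.mem_span_iff_exists_fin` or an induction; or show that the set of such `t` is a two-sided ideal.)
K4: homogeneous `a = toNC s`, `b = toNC t`: `a * b = hc (d+e) (a*b) = toNC t'`, `t' ∈ I`, so `s * t = t' ∈ I` (`toNC_injective`), `hprime`.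
K5 clear. K6: `ρ ≠ 0`, `hc n u [] = 0` so some `sh (hc n u) z ≠ 0`; it is homogeneous of weight `n - wt z < n` (`wt z ≤ n` by `sh_hc_lt`), while `toNC t` has
no terms of weight `< n` for `t ∈ I`; so it is not in `K`. -/
theorem isPrimeCl_of_initial [Finite X] (wt : X → ℕ) (hwt : ∀ x, 0 < wt x) {u : NC X k} {n : ℕ}
    (hn : 0 < n) (hlow : Low wt n u) (ρ : FreeAlgebra k X) (hρ : toNC ρ = hc wt n u)
    (hρ0 : ρ ≠ 0)
    (hprime : ∀ a b : FreeAlgebra k X, a * b ∈ TwoSidedIdeal.span {ρ} →
      a ∈ TwoSidedIdeal.span {ρ} ∨ b ∈ TwoSidedIdeal.span {ρ}) : IsPrimeCl u := by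
  classical
  have hρmem : ρ ∈ TwoSidedIdeal.span {ρ} := TwoSidedIdeal.subset_span rfl
  refine isPrimeCl_of_graded wt hwt hn hlow (e3K wt ρ) ?_ ?_ ?_ ?_ ?_ ?_ ?_
  · -- K1
    intro a b ha d
    choose t ht he using ha
    choose s hs using fun i => exists_toNC_hc wt hwt i b
    refine ⟨∑ q ∈ Finset.HasAntidiagonal.antidiagonal d, s q.1 * t q.2, ?_, ?_⟩
    · exact sum_mem fun q _ => TwoSidedIdeal.mul_mem_left _ _ _ (ht q.2)
    · rw [map_sum, hc_mul]
      refine Finset.sum_congr rfl fun q _ => ?_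
      rw [map_mul, hs, he]
  · -- K1'
    intro a b ha d
    choose t ht he using ha
    choose s hs using fun i => exists_toNC_hc wt hwt i b
    refine ⟨∑ q ∈ Finset.HasAntidiagonal.antidiagonal d, t q.1 * s q.2, ?_, ?_⟩
    · exact sum_mem fun q _ => TwoSidedIdeal.mul_mem_right _ _ _ (ht q.1)
    · rw [map_sum, hc_mul]
      refine Finset.sum_congr rfl fun q _ => ?_
      rw [map_mul, hs, he]
  · -- K2
    intro d a ha
    obtain ⟨t, ht, he⟩ := ha d
    exact e3K_of_hom ht he
  · -- K3
    intro d a ha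
    obtain ⟨t, ht, he⟩ := ha d
    obtain ⟨j, hj, hl, hje⟩ := e3_lift hlow hρ ht d
    refine ⟨j, hj, hl, ?_⟩
    rw [hje, he, hc_hc_self, hc_hc_self]
  · -- K4
    intro d e a b hab
    obtain ⟨s, hs⟩ := exists_toNC_hc wt hwt d a
    obtain ⟨t, ht⟩ := exists_toNC_hc wt hwt e b
    obtain ⟨t', ht', he'⟩ := hab (d + e)
    rw [hc_mul_hc] at he'
    have h1 : s * t = t' := by
      apply toNC_injective
      rw [map_mul, hs, ht, he']
    rcases hprime s t (h1 ▸ ht') with h | h
    · exact Or.inl (e3K_of_hom h hs)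
    · exact Or.inr (e3K_of_hom h ht)
  · -- K5
    exact e3K_of_hom hρmem hρ
  · -- K6
    have h1 : hc wt n u ≠ 0 := by
      intro h0
      apply hρ0
      apply toNC_injective
      rw [hρ, h0, map_zero]
    obtain ⟨w, hw⟩ : ∃ w, hc wt n u w ≠ 0 := by
      by_contra hcon
      push Not at hcon
      exact h1 (NC.ext hcon)
    have hwn : wtw wt w = n := by
      by_contra hne
      rw [hc_apply, if_neg hne] at hw
      exact hw rfl
    cases w with
    | nil =>
      rw [wtw_nil] at hwn
      omega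
    | cons z w =>
      rw [wtw_cons] at hwn
      have hz := hwt z
      refine ⟨z, fun hmem => ?_⟩
      have h2 : NC.sh (hc wt n u) z = hc wt (n - wt z) (NC.sh u z) := sh_hc wt (by omega) u
      obtain ⟨t, ht, he⟩ := hmem (n - wt z)
      have h3 : (toNC t : NC X k) w = 0 := e3_low hρ ht w (by omega)
      rw [he, h2, hc_hc_self, ← h2] at h3
      exact hw h3

end Pool.Agent.Helper85.PF
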