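import Pool.Agent.Helper85.PF.St.A2

/-! Project PF, piece G1: the initial form of a group element is orthogonal to shuffles. -/

set_option autoImplicit false
set_option linter.unusedSectionVars false

universe u

namespace Pool.Agent.Helper85.PF

open Filter Topology

variable {p : ℕ} [Fact p.Prime] {X F : Type u} [Group F] [TopologicalSpace F]
  [IsTopologicalGroup F] {ι : X → F}

open Classical in
/-- the infiltration product: `Inf u v a` is the sum of the coefficients of `a` over the words obtained by overlapping
shuffles of `u` and `v` -/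
noncomputable def Infl {X k : Type*} [Ring k] : List X → List X → NC X k → k
  | [], v, a => a v
  | u, [], a => a u
  | x :: u, y :: v, a => Infl u (y :: v) (NC.sh a x) + Infl (x :: u) v (NC.sh a y) +
      if x = y then Infl u v (NC.sh a x) else 0
  termination_by u v => u.length + v.length

section

variable {X k : Type*} [Ring k]

private theorem infl_nil (v : List X) (a : NC X k) : Infl [] v a = a v := by
  cases v <;> simp [Infl]

private theorem infl_nil' (u : List X) (a : NC X k) : Infl u [] a = a u := by
  cases u <;> simp [Infl]

private theorem sh_nil (v : List X) (a : NC X k) : Sh [] v a = a v := by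
  cases v <;> simp [Sh]

private theorem sh_nil' (u : List X) (a : NC X k) : Sh u [] a = a u := by
  cases u <;> simp [Sh]

private theorem infl_sub : ∀ (u v : List X) (a b : NC X k),
    Infl u v (a - b) = Infl u v a - Infl u v b
  | [], v, a, b => by rw [infl_nil, infl_nil, infl_nil, NC.sub_apply]
  | x :: u, [], a, b => by rw [infl_nil', infl_nil', infl_nil', NC.sub_apply]
  | x :: u, y :: v, a, b => by
    rw [Infl, Infl, Infl, NC.sh_sub, NC.sh_sub, infl_sub u (y :: v), infl_sub (x :: u) v,
      infl_sub u v]
    split_ifs <;> abel
  termination_by u v => u.length + v.length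

private theorem infl_zero (u v : List X) : Infl u v (0 : NC X k) = 0 := by
  have := infl_sub u v (0 : NC X k) 0
  rwa [sub_self, sub_self] at this

private theorem infl_one (x y : X) (u v : List X) :
    Infl (x :: u) (y :: v) (1 : NC X k) = 0 := by
  rw [Infl, NC.sh_one, NC.sh_one, infl_zero, infl_zero, infl_zero]
  simp

private theorem sh_zero' : ∀ (u v : List X), Sh u v (0 : NC X k) = 0
  | [], v => by rw [sh_nil]; rfl
  | x :: u, [] => by rw [sh_nil']; rfl
  | x :: u, y :: v => by
    rw [Sh, NC.sh_zero, NC.sh_zero, sh_zero' u (y :: v), sh_zero' (x :: u) v, add_zero]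
  termination_by u v => u.length + v.length

variable (wt : X → ℕ)

private theorem infl_low : ∀ (u v : List X) (m : ℕ) (a : NC X k), Low wt m a →
    wtw wt u + wtw wt v < m → Infl u v a = 0
  | [], v, m, a, ha, h => by rw [infl_nil]; exact ha v (by rw [wtw_nil] at h; omega)
  | x :: u, [], m, a, ha, h => by rw [infl_nil']; exact ha _ (by rw [wtw_nil] at h; omega)
  | x :: u, y :: v, m, a, ha, h => by
    rw [wtw_cons, wtw_cons] at h
    rw [Infl, infl_low u (y :: v) (m - wt x) _ (ha.sh wt x) (by rw [wtw_cons]; omega),
      infl_low (x :: u) v (m - wt y) _ (ha.sh wt y) (by rw [wtw_cons]; omega),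
      infl_low u v (m - wt x) _ (ha.sh wt x) (by omega)]
    simp
  termination_by u v => u.length + v.length

private theorem infl_eq_sh (hwt : ∀ x, 0 < wt x) : ∀ (u v : List X) (m : ℕ) (a : NC X k),
    Low wt m a → wtw wt u + wtw wt v = m → Infl u v a = Sh u v (hc wt m a)
  | [], v, m, a, ha, h => by
    rw [infl_nil, sh_nil, hc_apply, if_pos (by rw [wtw_nil] at h; omega)]
  | x :: u, [], m, a, ha, h => by
    rw [infl_nil', sh_nil', hc_apply, if_pos (by rw [wtw_nil] at h; omega)]
  | x :: u, y :: v, m, a, ha, h => by
    rw [wtw_cons, wtw_cons] at h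
    have hx := hwt x
    have hy := hwt y
    rw [Infl, Sh, sh_hc wt (by omega), sh_hc wt (by omega),
      infl_eq_sh hwt u (y :: v) (m - wt x) _ (ha.sh wt x) (by rw [wtw_cons]; omega),
      infl_eq_sh hwt (x :: u) v (m - wt y) _ (ha.sh wt y) (by rw [wtw_cons]; omega),
      infl_low wt u v (m - wt x) _ (ha.sh wt x) (by omega)]
    simp
  termination_by u v => u.length + v.length

private theorem sh_hc_ne : ∀ (u v : List X) (m : ℕ) (a : NC X k),
    wtw wt u + wtw wt v ≠ m → Sh u v (hc wt m a) = 0
  | [], v, m, a, h => by
    rw [sh_nil, hc_apply, if_neg (by rw [wtw_nil] at h; omega)]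
  | x :: u, [], m, a, h => by
    rw [sh_nil', hc_apply, if_neg (by rw [wtw_nil] at h; omega)]
  | x :: u, y :: v, m, a, h => by
    rw [wtw_cons, wtw_cons] at h
    rw [Sh]
    have h1 : Sh u (y :: v) (NC.sh (hc wt m a) x) = 0 := by
      by_cases hx : wt x ≤ m
      · rw [sh_hc wt hx]
        exact sh_hc_ne u (y :: v) _ _ (by rw [wtw_cons]; omega)
      · rw [sh_hc_lt wt (by omega), sh_zero']
    have h2 : Sh (x :: u) v (NC.sh (hc wt m a) y) = 0 := by
      by_cases hy : wt y ≤ m
      · rw [sh_hc wt hy]
        exact sh_hc_ne (x :: u) v _ _ (by rw [wtw_cons]; omega)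
      · rw [sh_hc_lt wt (by omega), sh_zero']
    rw [h1, h2, add_zero]
  termination_by u v => u.length + v.length

end

section gen

variable {X k : Type*} [CommRing k]

private theorem infl_add : ∀ (u v : List X) (a b : NC X k),
    Infl u v (a + b) = Infl u v a + Infl u v b := by
  intro u v a b
  have h := infl_sub u v (a + b) b
  rw [add_sub_cancel_right] at h
  rw [h]
  abel

/-- the property of Magnus series -/
private def IsGp (a : NC X k) : Prop := a [] = 1 ∧ ∀ u v : List X, a u * a v = Infl u v a

open Classical in
private theorem sh_step (z x : X) (a : NC X k) :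
    NC.sh ((1 + NC.var z) * a) x = NC.sh a x + if x = z then a else 0 := by
  rw [add_mul, one_mul, NC.sh_add]
  by_cases h : x = z
  · subst h
    rw [NC.sh_var_mul_self, if_pos rfl]
  · rw [NC.sh_var_mul_ne h, if_neg h]

private theorem step_nil (z : X) (a : NC X k) : ((1 + NC.var z) * a : NC X k) [] = a [] := by
  rw [NC.mul_nil, NC.add_apply, NC.var_nil, NC.one_nil, add_zero, one_mul]

open Classical in
private theorem step_cons (z x : X) (u : List X) (a : NC X k) :
    ((1 + NC.var z) * a : NC X k) (x :: u) = a (x :: u) + if x = z then a u else 0 := by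
  have := congrArg (fun b : NC X k => b u) (sh_step z x a)
  simp only [NC.sh_apply, NC.add_apply] at this
  rw [this]
  split_ifs <;> rfl

open Classical in
private theorem step_infl (z x y : X) (u v : List X) (a : NC X k) :
    Infl (x :: u) (y :: v) ((1 + NC.var z) * a) = Infl (x :: u) (y :: v) a +
      (if x = z then Infl u (y :: v) a else 0) + (if y = z then Infl (x :: u) v a else 0) +
      (if x = z then if y = z then Infl u v a else 0 else 0) := by
  have hi : ∀ (u v : List X) (c : Prop) [Decidable c], Infl u v (if c then a else 0) =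
      if c then Infl u v a else 0 := by
    intro u v c _
    split_ifs
    · rfl
    · exact infl_zero u v
  rw [Infl, Infl, sh_step, sh_step, infl_add, infl_add, infl_add, hi, hi, hi]
  by_cases hx : x = z <;> by_cases hy : y = z
  · subst hx
    subst hy
    simp only [if_true]
    abel
  · subst hx
    have : ¬ x = y := fun h => hy h.symm
    simp only [if_true, if_neg hy, if_neg this]
    abel
  · subst hy
    simp only [if_true, if_neg hx]
    abel
  · simp only [if_neg hx, if_neg hy]
    abel_nf

private theorem isGp_step (z : X) {a : NC X k} (h : IsGp a) : IsGp ((1 + NC.var z) * a) := by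
  classical
  refine ⟨by rw [step_nil]; exact h.1, ?_⟩
  intro u v
  cases u with
  | nil => rw [infl_nil, step_nil, h.1, one_mul]
  | cons x u =>
    cases v with
    | nil => rw [infl_nil', step_nil, h.1, mul_one]
    | cons y v =>
      rw [step_cons, step_cons, step_infl, ← h.2, ← h.2, ← h.2, ← h.2]
      split_ifs <;> ring

private theorem isGp_unstep (z : X) {a : NC X k} (h : IsGp ((1 + NC.var z) * a)) :
    IsGp a := by
  classical
  have h1 : a [] = 1 := by rw [← step_nil z a]; exact h.1
  refine ⟨h1, ?_⟩
  have key : ∀ (n : ℕ) (u v : List X), u.length + v.length = n → a u * a v = Infl u v a := by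
    intro n
    induction n using Nat.strong_induction_on with
    | _ n ih =>
    intro u v hn
    cases u with
    | nil => rw [infl_nil, h1, one_mul]
    | cons x u =>
      cases v with
      | nil => rw [infl_nil', h1, mul_one]
      | cons y v =>
        simp only [List.length_cons] at hn
        have h2 := h.2 (x :: u) (y :: v)
        have e1 := ih (u.length + (y :: v).length) (by simp; omega) u (y :: v) rfl
        have e2 := ih ((x :: u).length + v.length) (by simp; omega) (x :: u) v rfl
        have e3 := ih (u.length + v.length) (by omega) u v rfl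
        rw [step_cons, step_cons, step_infl, ← e1, ← e2, ← e3] at h2
        have h3 : Infl (x :: u) (y :: v) a = (a (x :: u) + if x = z then a u else 0) *
            (a (y :: v) + if y = z then a v else 0) -
            (if x = z then a u * a (y :: v) else 0) - (if y = z then a (x :: u) * a v else 0) -
            (if x = z then if y = z then a u * a v else 0 else 0) := by
          rw [h2]; abel
        rw [h3]
        split_ifs <;> ring
  exact fun u v => key _ u v rfl

private theorem continuous_infl [TopologicalSpace k] [IsTopologicalRing k] :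
    ∀ u v : List X, Continuous fun a : NC X k => Infl u v a
  | [], v => by
    simp only [infl_nil]
    exact NC.continuous_apply v
  | x :: u, [] => by
    simp only [infl_nil']
    exact NC.continuous_apply _
  | x :: u, y :: v => by
    classical
    simp only [Infl]
    refine (((continuous_infl u (y :: v)).comp (NC.continuous_sh x)).add
      ((continuous_infl (x :: u) v).comp (NC.continuous_sh y))).add ?_
    split_ifs
    · exact (continuous_infl u v).comp (NC.continuous_sh x)
    · exact continuous_const
  termination_by u v => u.length + v.length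

end gen

/-- PROOF. The set `P` of `g` with `∀ u v, μ g u * μ g v = Infl u v (μ g)` is closed (finitely many coefficients, `ZMod p` discrete) and
contains `1`. For `a' = (1 + var z) * a`: `a' [] = a []`, `sh a' x = sh a x + if x = z then a else 0`, so by unfolding (no induction needed, `Infl` is additive in `a`)
`Infl u v a' = Infl u v a + [u = z u'] Infl u' v a + [v = z v'] Infl u v' a + [u = z u', v = z v'] Infl u' v' a`, and similarly
`a' u * a' v = (a u + [u = z u'] a u') * (a v + [v = z v'] a v')`. So `g ∈ P → ι z * g ∈ P`, and by induction on `|u| + |v|` also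
`ι z * g ∈ P → g ∈ P`. With `Subgroup.closure_induction_left` (or `closure_induction''`) all elements of `Subgroup.closure (range ι)` are in `P`, and these are
dense (`FY_univ`). -/
theorem infl_eq (hF : IsFreeProP p ι) {μ : F →* NC X (ZMod p)} (hμ : IsMagnus p ι μ) (g : F)
    (u v : List X) : μ g u * μ g v = Infl u v (μ g) := by
  have h1 : ∀ g ∈ Subgroup.closure (ι '' Set.univ), IsGp (μ g) := by
    intro g hg
    induction hg using Subgroup.closure_induction_left with
    | one =>
      rw [map_one]
      refine ⟨rfl, fun u v => ?_⟩
      cases u with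
      | nil => rw [infl_nil, NC.one_nil, one_mul]
      | cons x u =>
        cases v with
        | nil => rw [infl_nil', NC.one_nil, mul_one]
        | cons y v => rw [infl_one, NC.one_cons, zero_mul]
    | mul_left x hx y hy ih =>
      obtain ⟨z, _, rfl⟩ := hx
      rw [map_mul, hμ.var]
      exact isGp_step z ih
    | inv_mul_cancel x hx y hy ih =>
      obtain ⟨z, _, rfl⟩ := hx
      apply isGp_unstep z
      rw [← hμ.var, ← map_mul, mul_inv_cancel_left]
      exact ih
  have hcl : IsClosed {g : F | μ g u * μ g v = Infl u v (μ g)} := by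
    refine isClosed_eq ?_ ((continuous_infl u v).comp hμ.cont)
    exact ((NC.continuous_apply u).comp hμ.cont).mul ((NC.continuous_apply v).comp hμ.cont)
  have h2 : g ∈ FY ι Set.univ := by
    rw [FY_univ hF]
    trivial
  have h3 : (FY ι Set.univ : Set F) ⊆ {g : F | μ g u * μ g v = Infl u v (μ g)} :=
    closure_minimal (fun g hg => (h1 g hg).2 u v) hcl
  exact h3 h2

/-- PROOF. Let `a = μ g - 1`, `ρ = hc n a`. `Infl u v a = Infl u v (μ g)` for nonempty `u, v` (`Infl u v 1 = 0`). For
`Low n a` and `wtw u + wtw v = n`: `Infl u v a = Sh u v ρ` (induction on the lengths: for `Low n a` and `wtw u + wtw v < n` we have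
`Infl u v a = 0`; and for `wtw u + wtw v = n` equality `Infl u v a = Sh u v a = Sh u v (hc n a)`, using `Low.sh`, `sh_hc`); and `μ g u = 0`
since `0 < wtw u < n`. For `wtw u + wtw v ≠ n`: `Sh u v (hc n a) = 0` by induction. -/
theorem sh_initial_eq_zero (hF : IsFreeProP p ι) {μ : F →* NC X (ZMod p)}
    (hμ : IsMagnus p ι μ) (g : F) (wt : X → ℕ) (hwt : ∀ x, 0 < wt x) (n : ℕ)
    (hlow : Low wt n (μ g - 1)) (u v : List X) (hu : u ≠ []) (hv : v ≠ []) :
    Sh u v (hc wt n (μ g - 1)) = 0 := by
  by_cases h : wtw wt u + wtw wt v = n
  · obtain ⟨x, u, rfl⟩ := List.exists_cons_of_ne_nil hu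
    obtain ⟨y, v, rfl⟩ := List.exists_cons_of_ne_nil hv
    rw [← infl_eq_sh wt hwt _ _ n _ hlow h, infl_sub, infl_one, sub_zero, ← infl_eq hF hμ]
    have h1 : (μ g - 1) (x :: u) = 0 := hlow _ (by
      have := hwt y
      rw [wtw_cons wt y] at h
      omega)
    rw [NC.sub_apply, NC.one_cons, sub_zero] at h1
    rw [h1, zero_mul]
  · exact sh_hc_ne wt _ _ n _ h

end Pool.Agent.Helper85.PF
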