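import Pool.Agent.Helper85.PF.St.T0

/-! Project PF, piece G2: the Dynkin operator. -/

set_option autoImplicit false
set_option linter.unusedSectionVars false

universe u

namespace Pool.Agent.Helper85.PF

attribute [local instance 100] LieRing.ofAssociativeRing

open Filter Topology

section aux

variable {X k : Type*} [CommRing k]

/-- the monomial of a word -/
private noncomputable def wq (X k : Type*) [CommRing k] (w : List X) : FreeAlgebra k X :=
  (w.map (FreeAlgebra.ι k)).prod

private theorem wq_nil : wq X k [] = 1 := by simp [wq]

private theorem wq_cons (x : X) (w : List X) :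
    wq X k (x :: w) = FreeAlgebra.ι k x * wq X k w := by simp [wq]

private theorem wq_append (v w : List X) : wq X k (v ++ w) = wq X k v * wq X k w := by simp [wq]

private theorem toNC_wq_self (w : List X) : toNC (wq X k w) w = 1 := by
  induction w with
  | nil => rw [wq_nil, map_one]; rfl
  | cons x w ih => rw [wq_cons, map_mul, toNC_ι, NC.var_mul_cons_self, ih]

private theorem toNC_wq_ne (w : List X) : ∀ v : List X, v ≠ w → toNC (wq X k w) v = 0 := by
  induction w with
  | nil =>
    intro v h
    rw [wq_nil, map_one]
    cases v with
    | nil => exact absurd rfl h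
    | cons x v => rfl
  | cons x w ih =>
    intro v h
    rw [wq_cons, map_mul, toNC_ι]
    cases v with
    | nil => simp
    | cons y v =>
      by_cases hy : y = x
      · subst hy
        rw [NC.var_mul_cons_self]
        exact ih v (fun h2 => h (by rw [h2]))
      · exact NC.var_mul_cons_ne hy _ _

private theorem exists_finsupp (t : FreeAlgebra k X) :
    ∃ f : List X →₀ k, Finsupp.linearCombination k (wq X k) f = t := by
  have h1 : t ∈ Submodule.span k (Set.range (wq X k)) := by
    have hw : ∀ w, wq X k w ∈ Submodule.span k (Set.range (wq X k)) :=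
      fun w => Submodule.subset_span ⟨w, rfl⟩
    induction t using FreeAlgebra.induction with
    | grade0 r =>
      rw [Algebra.algebraMap_eq_smul_one, ← wq_nil (X := X)]
      exact Submodule.smul_mem _ _ (hw [])
    | grade1 x =>
      have := hw [x]
      rwa [wq_cons, wq_nil, mul_one] at this
    | mul a b ha hb =>
      induction ha using Submodule.span_induction with
      | mem a ha =>
        obtain ⟨u, rfl⟩ := ha
        induction hb using Submodule.span_induction with
        | mem b hb =>
          obtain ⟨v, rfl⟩ := hb
          rw [← wq_append]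
          exact hw _
        | zero => rw [mul_zero]; exact Submodule.zero_mem _
        | add b b' _ _ h1 h2 => rw [mul_add]; exact Submodule.add_mem _ h1 h2
        | smul c b _ h1 => rw [mul_smul_comm]; exact Submodule.smul_mem _ _ h1
      | zero => rw [zero_mul]; exact Submodule.zero_mem _
      | add a a' _ _ h1 h2 => rw [add_mul]; exact Submodule.add_mem _ h1 h2
      | smul c a _ h1 => rw [smul_mul_assoc]; exact Submodule.smul_mem _ _ h1
    | add a b ha hb => exact Submodule.add_mem _ ha hb
  rw [Finsupp.mem_span_range_iff_exists_finsupp] at h1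
  obtain ⟨f, hf⟩ := h1
  exact ⟨f, hf⟩

private theorem toNC_lc (f : List X →₀ k) (w : List X) :
    toNC (Finsupp.linearCombination k (wq X k) f) w = f w := by
  induction f using Finsupp.induction_linear with
  | zero => simp
  | add f g hf hg => rw [map_add, map_add, NC.add_apply, hf, hg, Finsupp.add_apply]
  | single v c =>
    rw [Finsupp.linearCombination_single, map_smul, NC.smul_apply]
    by_cases h : w = v
    · subst h
      rw [toNC_wq_self, Finsupp.single_eq_same, mul_one]
    · rw [toNC_wq_ne _ _ h, mul_zero, Finsupp.single_eq_of_ne h]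

private theorem Sh_add (u v : List X) : ∀ a b : NC X k, Sh u v (a + b) = Sh u v a + Sh u v b := by
  induction hn : u.length + v.length using Nat.strong_induction_on generalizing u v with
  | _ n ih =>
    intro a b
    match u, v with
    | [], v => simp [Sh]
    | x :: u, [] => simp [Sh]
    | x :: u, y :: v =>
      rw [Sh, Sh, Sh, NC.sh_add, NC.sh_add]
      simp only [List.length_cons] at hn
      rw [ih (u.length + (y :: v).length) (by simp only [List.length_cons]; omega) u (y :: v) rfl,
        ih ((x :: u).length + v.length) (by simp only [List.length_cons]; omega) (x :: u) v rfl]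
      abel

private theorem Sh_smul (c : k) (u v : List X) : ∀ a : NC X k, Sh u v (c • a) = c * Sh u v a := by
  induction hn : u.length + v.length using Nat.strong_induction_on generalizing u v with
  | _ n ih =>
    intro a
    match u, v with
    | [], v => simp [Sh]
    | x :: u, [] => simp [Sh]
    | x :: u, y :: v =>
      rw [Sh, Sh, NC.sh_smul, NC.sh_smul]
      simp only [List.length_cons] at hn
      rw [ih (u.length + (y :: v).length) (by simp only [List.length_cons]; omega) u (y :: v) rfl,
        ih ((x :: u).length + v.length) (by simp only [List.length_cons]; omega) (x :: u) v rfl]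
      ring

private theorem Sh_zero (u v : List X) : Sh u v (0 : NC X k) = 0 := by
  have := Sh_smul (0 : k) u v (0 : NC X k)
  rwa [zero_smul, zero_mul] at this

private def c1 (x : X) (q : List X × List X) : List X × List X := (x :: q.1, q.2)
private def c2 (x : X) (q : List X × List X) : List X × List X := (q.1, x :: q.2)

private theorem c1_inj (x : X) : Function.Injective (c1 x) := by
  rintro ⟨a, b⟩ ⟨c, d⟩ h
  simp only [c1, Prod.mk.injEq, List.cons.injEq, true_and] at h
  rw [h.1, h.2]

private theorem c2_inj (x : X) : Function.Injective (c2 x) := by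
  rintro ⟨a, b⟩ ⟨c, d⟩ h
  simp only [c2, Prod.mk.injEq, List.cons.injEq, true_and] at h
  rw [h.1, h.2]

/-- the coproduct of a word -/
private noncomputable def del (k : Type*) [CommRing k] : List X → ((List X × List X) →₀ k)
  | [] => Finsupp.single ([], []) 1
  | x :: w => Finsupp.mapDomain (c1 x) (del k w) + Finsupp.mapDomain (c2 x) (del k w)

private theorem Sh_nil_left (v : List X) (a : NC X k) : Sh [] v a = a v := by
  simp [Sh]

private theorem Sh_nil_right (u : List X) (a : NC X k) : Sh u [] a = a u := by
  cases u <;> simp [Sh]

private theorem del_apply (w : List X) : ∀ u v : List X,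
    del k w (u, v) = Sh u v (toNC (wq X k w)) := by
  induction w with
  | nil =>
    intro u v
    rw [wq_nil, map_one, del]
    match u, v with
    | [], [] => simp [Sh]
    | [], y :: v => simp [Sh]
    | x :: u, [] => simp [Sh]
    | x :: u, y :: v =>
      rw [Sh, NC.sh_one, NC.sh_one, Sh_zero, Sh_zero, Finsupp.single_eq_of_ne (by simp), add_zero]
  | cons z w ih =>
    intro u v
    have m1 : ∀ u v, Finsupp.mapDomain (c1 z) (del k w) (z :: u, v) = del k w (u, v) := by
      intro u v
      exact Finsupp.mapDomain_apply (c1_inj z) (del k w) (u, v)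
    have m2 : ∀ u v, Finsupp.mapDomain (c2 z) (del k w) (u, z :: v) = del k w (u, v) := by
      intro u v
      exact Finsupp.mapDomain_apply (c2_inj z) (del k w) (u, v)
    have n1 : ∀ v, Finsupp.mapDomain (c1 z) (del k w) ([], v) = 0 := by
      intro v
      apply Finsupp.mapDomain_of_notMem_range
      rintro ⟨q, hq⟩
      simp [c1] at hq
    have n1' : ∀ x u v, x ≠ z → Finsupp.mapDomain (c1 z) (del k w) (x :: u, v) = 0 := by
      intro x u v hx
      apply Finsupp.mapDomain_of_notMem_range
      rintro ⟨q, hq⟩
      simp only [c1, Prod.mk.injEq, List.cons.injEq] at hq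
      exact hx hq.1.1.symm
    have n2 : ∀ u, Finsupp.mapDomain (c2 z) (del k w) (u, []) = 0 := by
      intro u
      apply Finsupp.mapDomain_of_notMem_range
      rintro ⟨q, hq⟩
      simp [c2] at hq
    have n2' : ∀ y u v, y ≠ z → Finsupp.mapDomain (c2 z) (del k w) (u, y :: v) = 0 := by
      intro y u v hy
      apply Finsupp.mapDomain_of_notMem_range
      rintro ⟨q, hq⟩
      simp only [c2, Prod.mk.injEq, List.cons.injEq] at hq
      exact hy hq.2.1.symm
    rw [wq_cons, map_mul, toNC_ι, del, Finsupp.add_apply]
    match u, v with
    | [], [] => rw [n1, n2, Sh_nil_left]; simp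
    | [], y :: v =>
      rw [n1, zero_add, Sh_nil_left]
      by_cases hy : y = z
      · subst hy
        rw [m2, NC.var_mul_cons_self, ih, Sh_nil_left]
      · rw [n2' y _ _ hy, NC.var_mul_cons_ne hy]
    | x :: u, [] =>
      rw [n2, add_zero, Sh_nil_right]
      by_cases hx : x = z
      · subst hx
        rw [m1, NC.var_mul_cons_self, ih, Sh_nil_right]
      · rw [n1' x _ _ hx, NC.var_mul_cons_ne hx]
    | x :: u, y :: v =>
      rw [Sh]
      congr 1
      · by_cases hx : x = z
        · subst hx
          rw [m1, NC.sh_var_mul_self, ih]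
        · rw [n1' x _ _ hx, NC.sh_var_mul_ne hx, Sh_zero]
      · by_cases hy : y = z
        · subst hy
          rw [m2, NC.sh_var_mul_self, ih]
        · rw [n2' y _ _ hy, NC.sh_var_mul_ne hy, Sh_zero]

/-- the antipode on words -/
private noncomputable def ant (k : Type*) [CommRing k] : List X → FreeAlgebra k X
  | [] => 1
  | x :: v => -(ant k v * FreeAlgebra.ι k x)

private noncomputable def mm (k : Type*) [CommRing k] (q : List X × List X) : FreeAlgebra k X :=
  wq X k q.1 * ant k q.2

private noncomputable def th (k : Type*) [CommRing k] (wt : X → ℕ) (q : List X × List X) :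
    FreeAlgebra k X := (wtw wt q.1 : k) • mm k q

private theorem lc_add {α N : Type*} [AddCommGroup N] [Module k N] (f g : α → N) (p : α →₀ k) :
    Finsupp.linearCombination k (f + g) p =
      Finsupp.linearCombination k f p + Finsupp.linearCombination k g p := by
  simp only [Finsupp.linearCombination_apply, Pi.add_apply, smul_add]
  exact Finsupp.sum_add

private theorem lc_comp {α N N' : Type*} [AddCommGroup N] [Module k N] [AddCommGroup N']
    [Module k N'] (L : N →ₗ[k] N') (f : α → N) (p : α →₀ k) :
    Finsupp.linearCombination k (fun a => L (f a)) p = L (Finsupp.linearCombination k f p) := by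
  rw [Finsupp.linearCombination_apply, Finsupp.linearCombination_apply, map_finsuppSum]
  simp only [map_smul]

private theorem mm_del (w : List X) :
    Finsupp.linearCombination k (mm k) (del k w) = if w = [] then 1 else 0 := by
  induction w with
  | nil => simp [del, mm, wq_nil, ant]
  | cons x w ih =>
    rw [del, map_add, Finsupp.linearCombination_mapDomain, Finsupp.linearCombination_mapDomain]
    have h1 : (mm k ∘ c1 x : List X × List X → FreeAlgebra k X) =
        fun q => LinearMap.mulLeft k (FreeAlgebra.ι k x) (mm k q) := by
      funext q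
      simp only [Function.comp, mm, c1, wq_cons, LinearMap.mulLeft_apply, mul_assoc]
    have h2 : (mm k ∘ c2 x : List X × List X → FreeAlgebra k X) =
        fun q => (-LinearMap.mulRight k (FreeAlgebra.ι k x)) (mm k q) := by
      funext q
      simp only [Function.comp, mm, c2, ant, LinearMap.neg_apply, LinearMap.mulRight_apply,
        mul_neg, mul_assoc]
    rw [h1, h2, lc_comp, lc_comp, ih, if_neg (List.cons_ne_nil x w), LinearMap.neg_apply,
      LinearMap.mulLeft_apply, LinearMap.mulRight_apply]
    split_ifs <;> simp

private theorem th_del_cons (wt : X → ℕ) (x : X) (w : List X) :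
    Finsupp.linearCombination k (th k wt) (del k (x :: w)) =
      ⁅FreeAlgebra.ι k x, Finsupp.linearCombination k (th k wt) (del k w)⁆ +
        (wt x : k) • (FreeAlgebra.ι k x * (if w = [] then 1 else 0)) := by
  rw [del, map_add, Finsupp.linearCombination_mapDomain, Finsupp.linearCombination_mapDomain]
  have h1 : (th k wt ∘ c1 x : List X × List X → FreeAlgebra k X) =
      (fun q => LinearMap.mulLeft k (FreeAlgebra.ι k x) (th k wt q)) +
        fun q => ((wt x : k) • LinearMap.mulLeft k (FreeAlgebra.ι k x)) (mm k q) := by
    funext q
    simp only [Function.comp, th, mm, c1, wq_cons, LinearMap.mulLeft_apply, Pi.add_apply,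
      LinearMap.smul_apply, wtw_cons, Nat.cast_add, add_smul, mul_smul_comm, mul_assoc]
    abel
  have h2 : (th k wt ∘ c2 x : List X × List X → FreeAlgebra k X) =
      fun q => (-LinearMap.mulRight k (FreeAlgebra.ι k x)) (th k wt q) := by
    funext q
    simp only [Function.comp, th, mm, c2, ant, LinearMap.neg_apply, LinearMap.mulRight_apply,
      mul_neg, mul_assoc, smul_mul_assoc, smul_neg]
  rw [h1, h2, lc_add, lc_comp, lc_comp, lc_comp, mm_del, LinearMap.neg_apply,
    LinearMap.mulLeft_apply, LinearMap.mulRight_apply, LinearMap.smul_apply,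
    LinearMap.mulLeft_apply, LieRing.of_associative_ring_bracket]
  abel

private theorem th_del_mem (wt : X → ℕ) (w : List X) :
    Finsupp.linearCombination k (th k wt) (del k w) ∈
      LieSubalgebra.lieSpan k (FreeAlgebra k X) (Set.range (FreeAlgebra.ι k)) := by
  induction w with
  | nil =>
    have h1 : Finsupp.linearCombination k (th k wt) (del k ([] : List X)) = 0 := by
      simp [del, th]
    rw [h1]
    exact LieSubalgebra.zero_mem _
  | cons x w ih =>
    have hx : FreeAlgebra.ι k x ∈
        LieSubalgebra.lieSpan k (FreeAlgebra k X) (Set.range (FreeAlgebra.ι k)) :=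
      LieSubalgebra.subset_lieSpan ⟨x, rfl⟩
    rw [th_del_cons]
    refine LieSubalgebra.add_mem _ (LieSubalgebra.lie_mem _ hx ih) ?_
    split_ifs
    · rw [mul_one]
      exact LieSubalgebra.smul_mem _ _ hx
    · rw [mul_zero, smul_zero]
      exact LieSubalgebra.zero_mem _

end aux

/-- A homogeneous element `a` of weight `n` of the free algebra which is orthogonal to all proper shuffles (that is, primitive)
satisfies `n • a ∈ Lie(X)`.
PROOF. Let `M = FreeMonoid X`, `A = MonoidAlgebra k M` (`≃ FreeAlgebra k X`), `A2 = MonoidAlgebra k (M × M)`.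
`Δ : A →ₐ A2`, `x ↦ single (x,1) 1 + single (1,x) 1` (lift). Coefficient of `(u,v)` in `Δ a` is `Sh u v a`: by linearity for words `a = x w`
by induction: `Δ (x w) = (x⊗1 + 1⊗x) * Δ w`.
`θ : A2 →ₗ A`, `single (u,v) 1 ↦ Y u * S v`, with `Y u = (wtw u) • u` and `S v = (-1)^|v| reverse v`; `m : A2 →ₗ A`,
`single (u,v) 1 ↦ u * S v`. Then `m ((x⊗1 + 1⊗x) * T) = x * m T - m T * x`, so `m (Δ w) = 0` for a nonempty word `w`, `m (Δ 1) = 1`; and
`θ ((x⊗1 + 1⊗x) * T) = x * θ T - θ T * x + wt x • (x * m T)`, so `D w := θ (Δ w)` satisfies `D 1 = 0`, `D (x w) = ⁅x, D w⁆ + [w = 1] wt x • x`: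
`D w` is in the Lie span of the variables for each word `w`, so `θ (Δ a)` is for each `a`. For `a` as in the theorem, `Δ a = ∑ a_w (w⊗1 + 1⊗w)` if
`a` has constant term `0`, so `θ (Δ a) = ∑ a_w wtw w • w = n • a`. (If `n = 0` the claim is trivial; if `n > 0` the constant term is `0` by homogeneity.) -/
theorem dynkin {X k : Type*} [CommRing k] (wt : X → ℕ) (n : ℕ) (a : FreeAlgebra k X)
    (hom : hc wt n (toNC a) = toNC a)
    (hprim : ∀ u v : List X, u ≠ [] → v ≠ [] → Sh u v (toNC a) = 0) :
    (n : k) • a ∈ LieSubalgebra.lieSpan k (FreeAlgebra k X) (Set.range (FreeAlgebra.ι k)) := by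
  rcases Nat.eq_zero_or_pos n with hn | hn
  · subst hn
    rw [Nat.cast_zero, zero_smul]
    exact LieSubalgebra.zero_mem _
  obtain ⟨f, rfl⟩ := exists_finsupp a
  have hcoef : ∀ w, toNC (Finsupp.linearCombination k (wq X k) f) w = f w := toNC_lc f
  have hhom : ∀ w, wtw wt w ≠ n → f w = 0 := by
    intro w hw
    rw [← hcoef w, ← hom, hc_apply, if_neg hw]
  have hf0 : f [] = 0 := hhom [] (by rw [wtw_nil]; omega)
  -- the coproduct of the element
  set dd : (List X × List X) →₀ k := Finsupp.linearCombination k (del k) f with hdd
  have hddc : ∀ u v, dd (u, v) = Sh u v (toNC (Finsupp.linearCombination k (wq X k) f)) := by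
    intro u v
    rw [hdd]
    clear hdd dd hf0 hhom hcoef hprim hom
    induction f using Finsupp.induction_linear with
    | zero => simp [Sh_zero]
    | add f g hf hg =>
      rw [map_add, map_add, map_add, Finsupp.add_apply, hf, hg, Sh_add]
    | single w c =>
      rw [Finsupp.linearCombination_single, Finsupp.linearCombination_single, map_smul,
        Finsupp.smul_apply, smul_eq_mul, Sh_smul, del_apply]
  have hdd2 : dd = Finsupp.mapDomain (fun w => (w, ([] : List X))) f +
      Finsupp.mapDomain (fun w => (([] : List X), w)) f := by
    have i1 : Function.Injective (fun w : List X => (w, ([] : List X))) := by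
      intro a b h
      exact congrArg Prod.fst h
    have i2 : Function.Injective (fun w : List X => (([] : List X), w)) := by
      intro a b h
      exact congrArg Prod.snd h
    ext ⟨u, v⟩
    rw [hddc, Finsupp.add_apply]
    match u, v with
    | [], [] =>
      rw [Sh_nil_left, hcoef]
      have e1 := Finsupp.mapDomain_apply i1 f []
      have e2 := Finsupp.mapDomain_apply i2 f []
      rw [e1, e2, hf0, add_zero]
    | [], y :: v =>
      rw [Sh_nil_left, hcoef]
      have e1 : Finsupp.mapDomain (fun w : List X => (w, ([] : List X))) f ([], y :: v) = 0 := by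
        apply Finsupp.mapDomain_of_notMem_range
        rintro ⟨q, hq⟩
        simp at hq
      have e2 := Finsupp.mapDomain_apply i2 f (y :: v)
      rw [e1, e2, zero_add]
    | x :: u, [] =>
      rw [Sh_nil_right, hcoef]
      have e2 : Finsupp.mapDomain (fun w : List X => (([] : List X), w)) f (x :: u, []) = 0 := by
        apply Finsupp.mapDomain_of_notMem_range
        rintro ⟨q, hq⟩
        simp at hq
      have e1 := Finsupp.mapDomain_apply i1 f (x :: u)
      rw [e1, e2, add_zero]
    | x :: u, y :: v =>
      rw [hprim (x :: u) (y :: v) (List.cons_ne_nil _ _) (List.cons_ne_nil _ _)]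
      have e1 : Finsupp.mapDomain (fun w : List X => (w, ([] : List X))) f (x :: u, y :: v) = 0 := by
        apply Finsupp.mapDomain_of_notMem_range
        rintro ⟨q, hq⟩
        simp at hq
      have e2 : Finsupp.mapDomain (fun w : List X => (([] : List X), w)) f (x :: u, y :: v) = 0 := by
        apply Finsupp.mapDomain_of_notMem_range
        rintro ⟨q, hq⟩
        simp at hq
      rw [e1, e2, add_zero]
  -- apply the operator
  have h1 : Finsupp.linearCombination k (th k wt) dd =
      (n : k) • Finsupp.linearCombination k (wq X k) f := by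
    rw [hdd2, map_add, Finsupp.linearCombination_mapDomain, Finsupp.linearCombination_mapDomain,
      Finsupp.linearCombination_apply, Finsupp.linearCombination_apply,
      Finsupp.linearCombination_apply]
    have h2 : (f.sum fun i a => a • (th k wt ∘ fun w : List X => (([] : List X), w)) i) = 0 := by
      refine Finset.sum_eq_zero fun i _ => ?_
      simp [th]
    rw [h2, add_zero, Finsupp.smul_sum]
    refine Finsupp.sum_congr fun i hi => ?_
    have h3 : wtw wt i = n := by
      by_contra h
      exact (Finsupp.mem_support_iff.1 hi) (hhom i h)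
    simp only [Function.comp, th, mm, ant, mul_one, h3]
    rw [smul_comm]
  rw [← h1, hdd]
  have h2 : Finsupp.linearCombination k (th k wt) (Finsupp.linearCombination k (del k) f) =
      f.sum fun i a => a • Finsupp.linearCombination k (th k wt) (del k i) := by
    rw [Finsupp.linearCombination_apply k f, map_finsuppSum]
    simp only [map_smul]
  rw [h2, Finsupp.sum]
  refine Submodule.sum_mem (LieSubalgebra.lieSpan k (FreeAlgebra k X)
    (Set.range (FreeAlgebra.ι k))).toSubmodule fun i _ => ?_
  exact LieSubalgebra.smul_mem _ _ (th_del_mem wt i)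

end Pool.Agent.Helper85.PF
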