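import Pool.Agent.Helper85.PF.St.G3B

/-! Project PF, piece G4: the ideal generated by a Lie polynomial is completely prime. -/

set_option autoImplicit false

namespace Pool.Agent.Helper85.PF

attribute [local instance 100] LieRing.ofAssociativeRing

namespace G4aux

variable {X k : Type*} [Field k]

/-- the natural map of the free Lie algebra to the free algebra -/
noncomputable def Phi (X k : Type*) [Field k] : FreeLieAlgebra k X →ₗ⁅k⁆ FreeAlgebra k X :=
  FreeLieAlgebra.lift k (FreeAlgebra.ι k)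

theorem Phi_of (x : X) : Phi X k (FreeLieAlgebra.of k x) = FreeAlgebra.ι k x :=
  FreeLieAlgebra.lift_of_apply _ x

/-- the quotient map by a Lie ideal as a Lie algebra homomorphism -/
def mkL {L : Type*} [LieRing L] [LieAlgebra k L] (K : LieIdeal k L) : L →ₗ⁅k⁆ L ⧸ K where
  toLinearMap := K.toSubmodule.mkQ
  map_lie' := rfl

theorem mkL_eq_zero {L : Type*} [LieRing L] [LieAlgebra k L] (K : LieIdeal k L) {x : L}
    (hx : x ∈ K) : mkL K x = 0 :=
  (Submodule.Quotient.mk_eq_zero K.toSubmodule).2 hx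

/-- factor a Lie algebra homomorphism through a quotient -/
def liftL {L L' : Type*} [LieRing L] [LieAlgebra k L] [LieRing L'] [LieAlgebra k L']
    (K : LieIdeal k L) (θ : L →ₗ⁅k⁆ L') (h : ∀ x ∈ K, θ x = 0) : L ⧸ K →ₗ⁅k⁆ L' where
  toLinearMap := K.toSubmodule.liftQ (θ : L →ₗ[k] L') (fun x hx => h x hx)
  map_lie' := by
    intro x y
    induction x using Submodule.Quotient.induction_on with
    | H x =>
      induction y using Submodule.Quotient.induction_on with
      | H y => exact θ.map_lie x y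

theorem liftL_mkL {L L' : Type*} [LieRing L] [LieAlgebra k L] [LieRing L'] [LieAlgebra k L']
    (K : LieIdeal k L) (θ : L →ₗ⁅k⁆ L') (h : ∀ x ∈ K, θ x = 0) (x : L) :
    liftL K θ h (mkL K x) = θ x := rfl

/-- the map to the enveloping algebra of the quotient -/
noncomputable def phi (K : LieIdeal k (FreeLieAlgebra k X)) :
    FreeAlgebra k X →ₐ[k] UniversalEnvelopingAlgebra k (FreeLieAlgebra k X ⧸ K) :=
  FreeAlgebra.lift k fun x => UniversalEnvelopingAlgebra.ι k (mkL K (FreeLieAlgebra.of k x))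

theorem phi_ι (K : LieIdeal k (FreeLieAlgebra k X)) (x : X) :
    phi K (FreeAlgebra.ι k x) =
      UniversalEnvelopingAlgebra.ι k (mkL K (FreeLieAlgebra.of k x)) :=
  FreeAlgebra.lift_ι_apply _ _

theorem phi_Phi (K : LieIdeal k (FreeLieAlgebra k X)) (y : FreeLieAlgebra k X) :
    phi K (Phi X k y) = UniversalEnvelopingAlgebra.ι k (mkL K y) := by
  have h : ((phi K : FreeAlgebra k X →ₗ⁅k⁆
      UniversalEnvelopingAlgebra k (FreeLieAlgebra k X ⧸ K))).comp (Phi X k) =
      (UniversalEnvelopingAlgebra.ι k).comp (mkL K) := by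
    apply FreeLieAlgebra.hom_ext
    intro x
    change phi K (Phi X k (FreeLieAlgebra.of k x)) = _
    rw [Phi_of, phi_ι]
    rfl
  exact DFunLike.congr_fun h y

end G4aux

open G4aux

/-- PROOF. `Φ : FreeLieAlgebra k X →ₗ⁅k⁆ FreeAlgebra k X`, `of x ↦ ι x` (`FreeLieAlgebra.lift`), has range the Lie span, so `ρ = Φ ρL`. `K = LieSubmodule.lieSpan k (FreeLieAlgebra k X) {ρL}` (a Lie
ideal), `g = FreeLieAlgebra k X ⧸ K`, `U = UniversalEnvelopingAlgebra k g` (no zero divisors: `noZeroDivisors_UEA`). `φ : FreeAlgebra k X →ₐ U`, `ι x ↦ ι (mk (of x))`; `φ ∘ Φ = ι ∘ mk` (two Lie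
homomorphisms on the free Lie algebra, `FreeLieAlgebra.hom_ext`), so `φ ρ = 0` and `φ` kills `J := TwoSidedIdeal.span {ρ}`. Conversely let `Q = J.ringCon.Quotient` (or `RingQuot`), a `k`-algebra; the Lie homomorphism
`FreeLieAlgebra k X → Q` (`Φ` followed by the quotient map) kills `ρL`, so it kills `K` (its kernel is a Lie ideal), so it factors through `g` and `U`: `ψ : U →ₐ Q` with `ψ ∘ φ` = quotient map (agree on generators). So `φ a = 0 → a ∈ J`.
Hence `a * b ∈ J → φ a * φ b = 0 → φ a = 0 ∨ φ b = 0 → a ∈ J ∨ b ∈ J`. -/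
theorem prime_of_lie {X k : Type*} [Field k] (ρ : FreeAlgebra k X)
    (hρ : ρ ∈ LieSubalgebra.lieSpan k (FreeAlgebra k X) (Set.range (FreeAlgebra.ι k))) :
    ∀ a b : FreeAlgebra k X, a * b ∈ TwoSidedIdeal.span {ρ} →
      a ∈ TwoSidedIdeal.span {ρ} ∨ b ∈ TwoSidedIdeal.span {ρ} := by
  have hle : LieSubalgebra.lieSpan k (FreeAlgebra k X) (Set.range (FreeAlgebra.ι k)) ≤
      (Phi X k).range := by
    rw [LieSubalgebra.lieSpan_le]
    rintro _ ⟨x, rfl⟩
    exact ⟨FreeLieAlgebra.of k x, Phi_of x⟩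
  obtain ⟨ρL, hρL⟩ := hle hρ
  have hρL : Phi X k ρL = ρ := hρL
  obtain ⟨K, hK⟩ : ∃ K : LieIdeal k (FreeLieAlgebra k X),
    K = LieSubmodule.lieSpan k (FreeLieAlgebra k X) {ρL} := ⟨_, rfl⟩
  have hmem : ρL ∈ K := by
    rw [hK]
    exact LieSubmodule.subset_lieSpan (Set.mem_singleton _)
  have := noZeroDivisors_UEA k (FreeLieAlgebra k X ⧸ K)
  -- `φ` kills the ideal
  have h1 : ∀ a, a ∈ TwoSidedIdeal.span {ρ} → phi K a = 0 := by
    have h2 : TwoSidedIdeal.span {ρ} ≤ TwoSidedIdeal.ker (phi K) := by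
      rw [TwoSidedIdeal.span_le, Set.singleton_subset_iff]
      change ρ ∈ TwoSidedIdeal.ker (phi K)
      rw [TwoSidedIdeal.mem_ker, ← hρL, phi_Phi, mkL_eq_zero K hmem, map_zero]
    intro a ha
    exact (TwoSidedIdeal.mem_ker _).1 (h2 ha)
  -- the kernel of `φ` is the ideal
  have h2 : ∀ a, phi K a = 0 → a ∈ TwoSidedIdeal.span {ρ} := by
    obtain ⟨J, hJ⟩ : ∃ J : TwoSidedIdeal (FreeAlgebra k X), J = TwoSidedIdeal.span {ρ} := ⟨_, rfl⟩
    rw [← hJ]
    let π : FreeAlgebra k X →ₐ[k] J.ringCon.Quotient := RingCon.mkₐ k _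
    have hπ : ∀ a, π a = 0 ↔ a ∈ J := by
      intro a
      have h3 : π a = π 0 ↔ J.ringCon a 0 := Quotient.eq''
      rw [map_zero] at h3
      rw [h3]
      exact (J.mem_iff a).symm
    let θ : FreeLieAlgebra k X →ₗ⁅k⁆ J.ringCon.Quotient :=
      (π : FreeAlgebra k X →ₗ⁅k⁆ J.ringCon.Quotient).comp (Phi X k)
    have hθ : ∀ y, θ y = π (Phi X k y) := fun y => rfl
    have hker : ∀ y ∈ K, θ y = 0 := by
      have h4 : K ≤ θ.ker := by
        rw [hK, LieSubmodule.lieSpan_le, Set.singleton_subset_iff]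
        change ρL ∈ θ.ker
        rw [LieHom.mem_ker, hθ, hρL, hπ, hJ]
        exact TwoSidedIdeal.subset_span (Set.mem_singleton _)
      intro y hy
      exact LieHom.mem_ker.1 (h4 hy)
    let ψ : UniversalEnvelopingAlgebra k (FreeLieAlgebra k X ⧸ K) →ₐ[k] J.ringCon.Quotient :=
      UniversalEnvelopingAlgebra.lift k (liftL K θ hker)
    have hψ : ψ.comp (phi K) = π := by
      apply FreeAlgebra.hom_ext
      funext x
      change ψ (phi K (FreeAlgebra.ι k x)) = π (FreeAlgebra.ι k x)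
      rw [phi_ι, UniversalEnvelopingAlgebra.lift_ι_apply, liftL_mkL, hθ, Phi_of]
    intro a ha
    rw [← hπ, ← hψ, AlgHom.comp_apply, ha, map_zero]
  intro a b hab
  have h3 := h1 _ hab
  rw [map_mul] at h3
  rcases mul_eq_zero.1 h3 with h4 | h4
  · exact Or.inl (h2 a h4)
  · exact Or.inr (h2 b h4)

end Pool.Agent.Helper85.PF
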