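import Pool.Agent.Helper85.PF.Basic

/-! Project PF, piece A1: the Magnus homomorphism exists. -/

set_option autoImplicit false
set_option linter.unusedSectionVars false

universe u

namespace Pool.Agent.Helper85.PF

open Filter Topology

namespace A1aux

section

variable {X : Type u} {k : Type} [CommRing k]

/-- the length filtration -/
theorem wtw_one (w : List X) : wtw (fun _ : X => 1) w = w.length := by
  simp [wtw]

theorem low_pow {c : NC X k} (hc : c [] = 0) (i : ℕ) : Low (fun _ : X => 1) i (c ^ i) := by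
  induction i with
  | zero => exact low_zero _ _
  | succ i ih =>
    rw [pow_succ]
    refine ih.mul _ ?_
    intro w hw
    rw [wtw_one] at hw
    cases w with
    | nil => exact hc
    | cons x w => simp at hw

theorem pow_apply_eq_zero {c : NC X k} (hc : c [] = 0) {i : ℕ} {w : List X}
    (h : w.length < i) : (c ^ i) w = 0 :=
  low_pow hc i w (by rwa [wtw_one])

/-- the inverse of a series with constant term `1` -/
noncomputable def nv (a : NC X k) : NC X k :=
  fun w => (∑ i ∈ Finset.range (w.length + 1), (1 - a) ^ i : NC X k) w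

theorem sum_apply' {κ : Type*} (s : Finset κ) (f : κ → NC X k) (w : List X) :
    (∑ i ∈ s, f i) w = ∑ i ∈ s, f i w := Finset.sum_apply w _ _

theorem nv_sub_low {a : NC X k} (ha : a [] = 1) (n : ℕ) :
    Low (fun _ : X => 1) (n + 1) (nv a - ∑ i ∈ Finset.range (n + 1), (1 - a) ^ i) := by
  intro w hw
  rw [wtw_one] at hw
  have hc : (1 - a : NC X k) [] = 0 := by
    rw [NC.sub_apply, NC.one_nil, ha, sub_self]
  rw [NC.sub_apply, nv, sum_apply', sum_apply', sub_eq_zero]
  refine Finset.sum_subset ?_ ?_
  · intro i hi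
    rw [Finset.mem_range] at hi ⊢
    omega
  · intro i _ hi
    rw [Finset.mem_range] at hi
    exact pow_apply_eq_zero hc (by omega)

theorem nv_nil {a : NC X k} : (nv a) [] = 1 := by
  rw [nv, sum_apply']
  simp

theorem mul_nv {a : NC X k} (ha : a [] = 1) : a * nv a = 1 := by
  have hc : (1 - a : NC X k) [] = 0 := by
    rw [NC.sub_apply, NC.one_nil, ha, sub_self]
  ext w
  have h1 : a * nv a = (1 - (1 - a)) * (∑ i ∈ Finset.range (w.length + 1), (1 - a) ^ i) +
      a * (nv a - ∑ i ∈ Finset.range (w.length + 1), (1 - a) ^ i) := by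
    rw [sub_sub_cancel, mul_sub]
    abel
  have h2 : (a * (nv a - ∑ i ∈ Finset.range (w.length + 1), (1 - a) ^ i) : NC X k) w = 0 :=
    ((nv_sub_low ha w.length).mul_left _ a) w (by rw [wtw_one]; omega)
  rw [h1, NC.add_apply, h2, add_zero, mul_neg_geom_sum, NC.sub_apply,
    pow_apply_eq_zero hc (Nat.lt_succ_self _), sub_zero]

theorem nv_mul {a : NC X k} (ha : a [] = 1) : nv a * a = 1 := by
  have hc : (1 - a : NC X k) [] = 0 := by
    rw [NC.sub_apply, NC.one_nil, ha, sub_self]
  ext w
  have h1 : nv a * a = (∑ i ∈ Finset.range (w.length + 1), (1 - a) ^ i) * (1 - (1 - a)) +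
      (nv a - ∑ i ∈ Finset.range (w.length + 1), (1 - a) ^ i) * a := by
    rw [sub_sub_cancel, sub_mul]
    abel
  have h2 : ((nv a - ∑ i ∈ Finset.range (w.length + 1), (1 - a) ^ i) * a : NC X k) w = 0 :=
    ((nv_sub_low ha w.length).mul_right _ a) w (by rw [wtw_one]; omega)
  rw [h1, NC.add_apply, h2, add_zero, geom_sum_mul_neg, NC.sub_apply,
    pow_apply_eq_zero hc (Nat.lt_succ_self _), sub_zero]

/-- the coefficients of a power of a series with constant term `1` -/
theorem one_add_pow_apply {c : NC X k} (hc : c [] = 0) (N : ℕ) (w : List X) :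
    ((1 + c) ^ N : NC X k) w =
      ∑ j ∈ Finset.range (w.length + 1), (c ^ j) w * ((N.choose j : ℕ) : k) := by
  have h1 : (1 + c) ^ N = ∑ j ∈ Finset.range (N + 1), c ^ j * (NC.C ((N.choose j : ℕ) : k)) := by
    rw [add_comm, (Commute.one_right c).add_pow]
    refine Finset.sum_congr rfl fun j _ => ?_
    rw [one_pow, mul_one, map_natCast]
  rw [h1, sum_apply']
  have h2 : ∀ j, (c ^ j * (NC.C ((N.choose j : ℕ) : k)) : NC X k) w =
      (c ^ j) w * ((N.choose j : ℕ) : k) := fun j => NC.mul_C_apply _ _ _
  simp only [h2]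
  have h3 : ∑ j ∈ Finset.range (N + 1), (c ^ j) w * ((N.choose j : ℕ) : k) =
      ∑ j ∈ Finset.range (N + 1 + (w.length + 1)), (c ^ j) w * ((N.choose j : ℕ) : k) := by
    refine Finset.sum_subset (fun i hi => ?_) (fun i _ hi => ?_)
    · rw [Finset.mem_range] at hi ⊢; omega
    · rw [Finset.mem_range] at hi
      rw [Nat.choose_eq_zero_of_lt (by omega)]
      simp
  have h4 : ∑ j ∈ Finset.range (w.length + 1), (c ^ j) w * ((N.choose j : ℕ) : k) =
      ∑ j ∈ Finset.range (N + 1 + (w.length + 1)), (c ^ j) w * ((N.choose j : ℕ) : k) := by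
    refine Finset.sum_subset (fun i hi => ?_) (fun i _ hi => ?_)
    · rw [Finset.mem_range] at hi ⊢; omega
    · rw [Finset.mem_range] at hi
      rw [pow_apply_eq_zero hc (by omega), zero_mul]
  rw [h3, h4]

end

section

variable (X : Type u) (k : Type) [CommRing k]

/-- series with constant term `1` -/
def HH : Type u := {a : NC X k // a [] = 1}

noncomputable instance : Group (HH X k) where
  mul a b := ⟨a.1 * b.1, by rw [NC.mul_nil, a.2, b.2, one_mul]⟩
  mul_assoc a b c := Subtype.ext (mul_assoc a.1 b.1 c.1)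
  one := ⟨1, NC.one_nil⟩
  one_mul a := Subtype.ext (one_mul a.1)
  mul_one a := Subtype.ext (mul_one a.1)
  inv a := ⟨nv a.1, nv_nil⟩
  inv_mul_cancel a := Subtype.ext (nv_mul a.2)

theorem val_mul (a b : HH X k) : (a * b).1 = a.1 * b.1 := rfl
theorem val_one : (1 : HH X k).1 = 1 := rfl
theorem val_inv (a : HH X k) : (a⁻¹).1 = nv a.1 := rfl

/-- the inclusion -/
def inclH : HH X k →* NC X k where
  toFun a := a.1
  map_one' := rfl
  map_mul' _ _ := rfl

variable [TopologicalSpace k] [IsTopologicalRing k]

instance : TopologicalSpace (HH X k) :=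
  inferInstanceAs (TopologicalSpace {a : NC X k // a [] = 1})

theorem continuous_val' : Continuous fun a : HH X k => a.1 := continuous_subtype_val

theorem continuous_mk' {Z : Type*} [TopologicalSpace Z] (f : Z → HH X k)
    (h : Continuous fun z => (f z).1) : Continuous f :=
  Topology.IsInducing.subtypeVal.continuous_iff.2 h

theorem tendsto_HH {Z : Type*} {l : Filter Z} {f : Z → HH X k} {a : HH X k}
    (h : Tendsto (fun z => (f z).1) l (𝓝 a.1)) : Tendsto f l (𝓝 a) :=
  Topology.IsInducing.subtypeVal.tendsto_nhds_iff.2 h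

instance : IsTopologicalGroup (HH X k) where
  continuous_mul := by
    apply continuous_mk'
    exact ((continuous_val' X k).comp continuous_fst).mul
      ((continuous_val' X k).comp continuous_snd)
  continuous_inv := by
    apply continuous_mk'
    rw [NC.continuous_iff]
    intro w
    have h : Continuous fun a : NC X k =>
        (∑ i ∈ Finset.range (w.length + 1), (1 - a) ^ i : NC X k) w := by
      refine (NC.continuous_apply (k := k) (X := X) w).comp ?_
      exact continuous_finsetSum _ fun i _ => (continuous_const.sub continuous_id).pow i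
    exact h.comp (continuous_val' X k)

theorem isProP_HH (p : ℕ) [Fact p.Prime] [CompactSpace k] [T2Space k]
    [TotallyDisconnectedSpace k]
    (hk : ∀ j, 0 < j → Tendsto (fun n : ℕ => (((p ^ n).choose j : ℕ) : k)) atTop (𝓝 0)) :
    IsProP p (HH X k) := by
  have hcpt : CompactSpace (HH X k) := by
    have h1 : IsClosed {a : NC X k | a [] = 1} :=
      isClosed_eq (NC.continuous_apply []) continuous_const
    exact isCompact_iff_compactSpace.1 h1.isCompact
  refine ⟨hcpt, inferInstanceAs (TotallyDisconnectedSpace {a : NC X k // a [] = 1}), ?_⟩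
  intro U hU hUo
  have : U.Normal := hU
  have : Finite (HH X k ⧸ U) := Subgroup.quotient_finite_of_isOpen U hUo
  have hpg : IsPGroup p (HH X k ⧸ U) := by
    intro g
    obtain ⟨a, rfl⟩ := QuotientGroup.mk_surjective g
    have hlim : Tendsto (fun n : ℕ => a ^ (p ^ n)) atTop (𝓝 1) := by
      refine tendsto_HH X k (NC.tendsto_iff.2 fun w => ?_)
      have hc : (a.1 - 1 : NC X k) [] = 0 := by
        rw [NC.sub_apply, NC.one_nil, a.2, sub_self]
      have h1 : ∀ n : ℕ, (inclH X k (a ^ (p ^ n))) w =
          ∑ j ∈ Finset.range (w.length + 1), ((a.1 - 1) ^ j : NC X k) w *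
            (((p ^ n).choose j : ℕ) : k) := by
        intro n
        have h0 : (inclH X k) a = 1 + (a.1 - 1) := by
          change a.1 = _
          abel
        rw [map_pow, ← one_add_pow_apply hc, h0]
      have h2 : (1 : NC X k) w =
          ∑ j ∈ Finset.range (w.length + 1), ((a.1 - 1) ^ j : NC X k) w *
            (if j = 0 then 1 else 0) := by
        rw [Finset.sum_eq_single 0]
        · simp
        · intro j _ hj
          rw [if_neg hj, mul_zero]
        · intro h
          exact absurd (Finset.mem_range.2 (Nat.succ_pos _)) h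
      change Tendsto (fun n : ℕ => (inclH X k (a ^ (p ^ n))) w) atTop (𝓝 ((1 : NC X k) w))
      rw [h2]
      simp only [h1]
      refine tendsto_finsetSum _ fun j _ => ?_
      refine Tendsto.mul tendsto_const_nhds ?_
      by_cases hj : j = 0
      · subst hj
        simp
      · rw [if_neg hj]
        exact hk j (Nat.pos_of_ne_zero hj)
    have hev : ∀ᶠ n in atTop, a ^ (p ^ n) ∈ U := hlim (hUo.mem_nhds U.one_mem)
    obtain ⟨n, hn⟩ := hev.exists
    refine ⟨n, ?_⟩
    rw [← QuotientGroup.mk_pow]
    exact (QuotientGroup.eq_one_iff _).2 hn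
  obtain ⟨n, hn⟩ := IsPGroup.iff_card.1 hpg
  exact ⟨n, by rw [Subgroup.index_eq_card]; exact hn⟩

end

end A1aux

variable {p : ℕ} [Fact p.Prime] {X F : Type u} [Group F] [TopologicalSpace F]
  [IsTopologicalGroup F] {ι : X → F}

/-- The group `H = {a : NC X k // a [] = 1}` is pro-`p`, and `x ↦ 1 + x` converges to `1`.
PROOF. (1) Inverses: for `a = 1 - c` (`c [] = 0`) put `b w = ∑ i ∈ range (|w|+1), (c^i) w`; then
`c^i w = 0` for `|w| < i` and `a * b = 1`, `b * a = 1` (look at the word `w`: `(c*b) w` only involves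
`b` at words of length `≤ |w|`). Make `H` a subtype with `Group` instance (or a subgroup of the
units). It is a topological group: multiplication by `IsTopologicalRing (NC X k)`, the coefficients
of the inverse are continuous by the formula. It is closed in `NC X k`, so compact, and totally
disconnected.
(2) For `a = 1 + c ∈ H`: `a^(p^n) → 1`, since `(a^(p^n)) w = ∑_{j ≤ |w|} choose (p^n) j * (c^j) w`
(`Commute.add_pow` and `c^j w = 0` for `j > |w|`) and `hk`. So for an open normal subgroup `U` of `H`
every element of the finite group `H ⧸ U` has order a power of `p`: `IsPGroup.iff_card`,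
`Subgroup.index_eq_card`.
(3) `x ↦ 1 + x` tends to `1` along `cofinite` : coefficientwise, `var x w = 0` unless `w = [x]`.
(4) `hF.univ H` (`H : Type u`), composed with the inclusion `H → NC X k`. -/
theorem exists_magnus_k (hF : IsFreeProP p ι) (k : Type) [CommRing k] [TopologicalSpace k]
    [IsTopologicalRing k] [CompactSpace k] [T2Space k] [TotallyDisconnectedSpace k]
    (hk : ∀ j, 0 < j → Tendsto (fun n : ℕ => (((p ^ n).choose j : ℕ) : k)) atTop (𝓝 0)) :
    ∃ μ : F →* NC X k, Continuous μ ∧ ∀ x, μ (ι x) = 1 + NC.var x := by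
  have hH := A1aux.isProP_HH X k p hk
  let f : X → A1aux.HH X k := fun x => ⟨1 + NC.var x, by
    rw [NC.add_apply, NC.one_nil, NC.var_nil, add_zero]⟩
  have hf : Tendsto f cofinite (𝓝 1) := by
    refine A1aux.tendsto_HH X k (NC.tendsto_iff.2 fun w => ?_)
    change Tendsto (fun x => (1 + NC.var x : NC X k) w) cofinite (𝓝 ((1 : NC X k) w))
    refine tendsto_const_nhds.congr' ?_
    have hfin : {x : X | w = [x]}.Finite := by
      apply Set.Subsingleton.finite
      intro x hx y hy
      have : [x] = [y] := (hx : w = [x]).symm.trans hy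
      simpa using this
    have := hfin.compl_mem_cofinite
    filter_upwards [this] with x hx
    have hx' : w ≠ [x] := hx
    rw [NC.add_apply, NC.var, if_neg hx', add_zero]
  obtain ⟨φ, ⟨hφc, hφ⟩, _⟩ := hF.univ (A1aux.HH X k) hH f hf
  refine ⟨(A1aux.inclH X k).comp φ, (A1aux.continuous_val' X k).comp hφc, fun x => ?_⟩
  rw [MonoidHom.comp_apply, hφ x]
  rfl

/-- special case `k = ZMod p` (`choose (p^n) j` is divisible by `p` if `0 < j < p^n`) -/
theorem exists_magnus (hF : IsFreeProP p ι) : ∃ μ : F →* NC X (ZMod p), IsMagnus p ι μ := by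
  have : NeZero p := ⟨(Fact.out : p.Prime).ne_zero⟩
  obtain ⟨μ, hμ, h⟩ := exists_magnus_k hF (ZMod p) (by
    intro j hj
    refine tendsto_const_nhds.congr' ?_
    filter_upwards [eventually_ge_atTop j] with n hn
    have h1 : j < p ^ n := lt_of_le_of_lt hn (Nat.lt_pow_self (Fact.out : p.Prime).one_lt)
    have h2 : p ∣ (p ^ n).choose j :=
      (Fact.out : p.Prime).dvd_choose_pow hj.ne' h1.ne
    exact ((ZMod.natCast_eq_zero_iff _ _).2 h2).symm)
  exact ⟨μ, hμ, h⟩

end Pool.Agent.Helper85.PF
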