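import Pool.Agent.Helper85.PF.Basic

/-! Project PF, piece A3: evaluation of noncommutative power series at nilpotent families. -/

set_option autoImplicit false
set_option linter.unusedSectionVars false

universe u

namespace Pool.Agent.Helper85.PF

open Filter Topology

section evalAux

variable {X k B : Type*} [CommRing k] [Ring B] [Algebra k B]

/-- truncated evaluation -/
private noncomputable def evA (f : X → B) (S : Finset X) : ℕ → NC X k → B
  | 0, _ => 0
  | n + 1, a => algebraMap k B (a []) + ∑ x ∈ S, f x * evA f S n (NC.sh a x)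

private theorem evA_succ (f : X → B) (S : Finset X) (n : ℕ) (a : NC X k) :
    evA f S (n + 1) a = algebraMap k B (a []) + ∑ x ∈ S, f x * evA f S n (NC.sh a x) := rfl

private theorem evA_zero (f : X → B) (S : Finset X) (a : NC X k) : evA f S 0 a = 0 := rfl

private theorem evA_add (f : X → B) (S : Finset X) (n : ℕ) : ∀ a b : NC X k,
    evA f S n (a + b) = evA f S n a + evA f S n b := by
  induction n with
  | zero => intro a b; simp [evA_zero]
  | succ n ih =>
    intro a b
    rw [evA_succ, evA_succ, evA_succ]
    simp only [NC.add_apply, NC.sh_add, ih, map_add, mul_add, Finset.sum_add_distrib]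
    abel

private theorem evA_smul (f : X → B) (S : Finset X) (n : ℕ) (c : k) : ∀ a : NC X k,
    evA f S n (c • a) = c • evA f S n a := by
  induction n with
  | zero => intro a; simp [evA_zero]
  | succ n ih =>
    intro a
    rw [evA_succ, evA_succ]
    simp only [NC.smul_apply, NC.sh_smul, ih, map_mul, smul_add, Finset.smul_sum,
      mul_smul_comm]
    rw [Algebra.smul_def c (algebraMap k B (a []))]

private theorem evA_zero' (f : X → B) (S : Finset X) (n : ℕ) : evA f S n (0 : NC X k) = 0 := by
  have h := evA_add f S n (0 : NC X k) 0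
  rw [add_zero] at h
  exact left_eq_add.1 h

/-- all products of at least `j` values of `f` kill `c` -/
private def Kl (f : X → B) (j : ℕ) (c : B) : Prop := ∀ w : List X, j ≤ w.length →
  (w.map f).prod * c = 0

private theorem Kl.sub {f : X → B} {j : ℕ} {c d : B} (hc : Kl f j c) (hd : Kl f j d) :
    Kl f j (c - d) := fun w hw => by rw [mul_sub, hc w hw, hd w hw, sub_zero]

private theorem Kl.add {f : X → B} {j : ℕ} {c d : B} (hc : Kl f j c) (hd : Kl f j d) :
    Kl f j (c + d) := fun w hw => by rw [mul_add, hc w hw, hd w hw, add_zero]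

private theorem Kl.sum {f : X → B} {j : ℕ} {S : Finset X} {c : X → B}
    (hc : ∀ x ∈ S, Kl f j (c x)) : Kl f j (∑ x ∈ S, c x) := fun w hw => by
  rw [Finset.mul_sum]
  exact Finset.sum_eq_zero fun x hx => hc x hx w hw

private theorem Kl.fmul {f : X → B} {j : ℕ} {c : B} (hc : Kl f (j + 1) c) (x : X) :
    Kl f j (f x * c) := fun w hw => by
  have h := hc (w ++ [x]) (by rw [List.length_append, List.length_singleton]; omega)
  rw [List.map_append, List.prod_append, List.map_singleton, List.prod_singleton, mul_assoc] at h
  exact h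

private theorem Kl.mono {f : X → B} {j j' : ℕ} (h : j ≤ j') {c : B} (hc : Kl f j c) :
    Kl f j' c := fun w hw => hc w (h.trans hw)

private theorem Kl.eq_zero {f : X → B} {c : B} (hc : Kl f 0 c) : c = 0 := by
  have h := hc [] (Nat.zero_le _)
  simpa using h

private theorem Kl.evmul {f : X → B} {j : ℕ} {c : B} (hc : Kl f j c) (S : Finset X) (n : ℕ) :
    ∀ a : NC X k, Kl f j (evA f S n a * c) := by
  induction n with
  | zero =>
    intro a w _
    rw [evA_zero, zero_mul, mul_zero]
  | succ n ih =>
    intro a
    rw [evA_succ, add_mul, Finset.sum_mul]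
    refine Kl.add ?_ (Kl.sum fun x _ => ?_)
    · intro w hw
      rw [← mul_assoc, ← Algebra.commutes, mul_assoc, hc w hw, mul_zero]
    · rw [mul_assoc]
      exact ((ih (NC.sh a x)).mono (Nat.le_succ j)).fmul x

private theorem Kl.of_le {f : X → B} {N : ℕ}
    (hN : ∀ w : List X, w.length = N → (w.map f).prod = 0) {j : ℕ} (h : N ≤ j) (c : B) :
    Kl f j c := by
  intro w hw
  have h1 : w = w.take N ++ w.drop N := (List.take_append_drop N w).symm
  have h2 : ((w.take N).map f).prod = 0 := hN _ (by
    rw [List.length_take]
    omega)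
  rw [h1, List.map_append, List.prod_append, h2, zero_mul, zero_mul]

private theorem evA_step {f : X → B} {N : ℕ}
    (hN : ∀ w : List X, w.length = N → (w.map f).prod = 0) (S : Finset X) (n : ℕ) :
    ∀ (j : ℕ), N ≤ j + n → ∀ a : NC X k, Kl f j (evA f S (n + 1) a - evA f S n a) := by
  induction n with
  | zero =>
    intro j h a
    exact Kl.of_le hN (by omega) _
  | succ n ih =>
    intro j h a
    have e : evA f S (n + 1 + 1) a - evA f S (n + 1) a =
        ∑ x ∈ S, f x * (evA f S (n + 1) (NC.sh a x) - evA f S n (NC.sh a x)) := by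
      rw [evA_succ f S (n + 1) a, evA_succ f S n a]
      simp only [mul_sub, Finset.sum_sub_distrib]
      abel
    rw [e]
    exact Kl.sum fun x _ => (ih (j + 1) (by omega) (NC.sh a x)).fmul x

private theorem evA_mul {f : X → B} {N : ℕ}
    (hN : ∀ w : List X, w.length = N → (w.map f).prod = 0) (S : Finset X) (n : ℕ) :
    ∀ (j : ℕ), N ≤ j + n → ∀ a b : NC X k,
      Kl f j (evA f S n (a * b) - evA f S n a * evA f S n b) := by
  induction n with
  | zero =>
    intro j h a b
    exact Kl.of_le hN (by omega) _
  | succ n ih =>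
    intro j h a b
    have e : evA f S (n + 1) (a * b) - evA f S (n + 1) a * evA f S (n + 1) b =
        ∑ x ∈ S, f x * ((evA f S n (NC.sh a x * b) - evA f S n (NC.sh a x) * evA f S n b) -
          evA f S n (NC.sh a x) * (evA f S (n + 1) b - evA f S n b)) := by
      have e1 : evA f S (n + 1) (a * b) = algebraMap k B (a []) * evA f S (n + 1) b +
          ∑ x ∈ S, f x * evA f S n (NC.sh a x * b) := by
        rw [evA_succ f S n (a * b), evA_succ f S n b, mul_add, Finset.mul_sum, add_assoc,
          ← Finset.sum_add_distrib]
        congr 1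
        · rw [NC.mul_nil, map_mul]
        · refine Finset.sum_congr rfl fun x _ => ?_
          rw [NC.sh_mul', evA_add, ← NC.smul_eq_C_mul, evA_smul, mul_add, Algebra.smul_def,
            ← mul_assoc, ← mul_assoc, Algebra.commutes]
      have e2 : evA f S (n + 1) a * evA f S (n + 1) b = algebraMap k B (a []) *
          evA f S (n + 1) b + ∑ x ∈ S, f x * (evA f S n (NC.sh a x) * evA f S (n + 1) b) := by
        rw [evA_succ f S n a, add_mul, Finset.sum_mul]
        simp only [mul_assoc]
      rw [e1, e2, add_sub_add_left_eq_sub, ← Finset.sum_sub_distrib]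
      refine Finset.sum_congr rfl fun x _ => ?_
      noncomm_ring
    rw [e]
    refine Kl.sum fun x _ => ?_
    refine Kl.fmul (Kl.sub (ih (j + 1) (by omega) (NC.sh a x) b) ?_) x
    exact (evA_step hN S n (j + 1) (by omega) b).evmul S n (NC.sh a x)

open Classical in
/-- the words which matter -/
private noncomputable def wds (S : Finset X) : ℕ → Finset (List X)
  | 0 => ∅
  | n + 1 => insert [] (S.biUnion fun x => (wds S n).image (List.cons x))

private theorem evA_congr (f : X → B) (S : Finset X) (n : ℕ) : ∀ a b : NC X k,
    (∀ w ∈ wds S n, a w = b w) → evA f S n a = evA f S n b := by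
  classical
  induction n with
  | zero => intro a b _; rw [evA_zero, evA_zero]
  | succ n ih =>
    intro a b h
    rw [evA_succ, evA_succ]
    have h1 : a [] = b [] := h [] (by
      unfold wds
      exact Finset.mem_insert_self _ _)
    rw [h1]
    congr 1
    refine Finset.sum_congr rfl fun x hx => ?_
    rw [ih (NC.sh a x) (NC.sh b x)]
    intro w hw
    apply h (x :: w)
    unfold wds
    refine Finset.mem_insert_of_mem (Finset.mem_biUnion.2 ⟨x, hx, Finset.mem_image.2 ⟨w, hw, rfl⟩⟩)

end evalAux

/-- Evaluation of noncommutative power series at a finitely supported family of elements all of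
whose products of `N` factors vanish.
PROOF. Let `S = hfin.toFinset`. Define `E 0 a = 0`, `E (n+1) a = algebraMap (a []) + ∑ x ∈ S, f x * E n (sh a x)`.
For `c : B` say `K n c` if `(w.map f).prod * c = 0` for all words `w` with `w.length + n = N` (or
`≥ N`: `(w.map f).prod = 0` for all `|w| ≥ N`). `K n` is closed under sums and right multiples, `K n c → K (n+1) (f x * c)`,
`K 0 c` always, `K N c ↔ c = 0`. Induction on `n`: `K n (E (n+1) a - E n a)`, and `K n (E n (a*b) - E n a * E n b)`
(`sh (a*b) x = C (a []) * sh b x + sh a x * b`, `E n` is linear). Take `E = E N`: additive, `k`-linear, multiplicative, `E 1 = 1`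
(if `N = 0` then `B` is trivial). The recursion: `E N a - E (N+1) a` is in `K N`. `E n a` depends on finitely
many coefficients of `a` (words of length `< n` with letters in `S`), which gives `W`. -/
theorem exists_eval {X k B : Type*} [CommRing k] [Ring B] [Algebra k B] (f : X → B)
    (hfin : {x | f x ≠ 0}.Finite) (N : ℕ)
    (hN : ∀ w : List X, w.length = N → (w.map f).prod = 0) :
    ∃ E : NC X k →ₐ[k] B, (∀ x, E (NC.var x) = f x) ∧
      (∀ a, E a = algebraMap k B (a []) + ∑ x ∈ hfin.toFinset, f x * E (NC.sh a x)) ∧
      ∃ W : Finset (List X), ∀ a b : NC X k, (∀ w ∈ W, a w = b w) → E a = E b := by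
  classical
  set S := hfin.toFinset with hS
  have hrec : ∀ a : NC X k, evA f S (N + 1) a = algebraMap k B (a []) +
      ∑ x ∈ S, f x * evA f S (N + 1) (NC.sh a x) := by
    intro a
    rw [evA_succ]
    congr 1
    refine Finset.sum_congr rfl fun x _ => ?_
    rw [sub_eq_zero.1 (evA_step hN S N 0 (by omega) (NC.sh a x)).eq_zero]
  have hone : evA f S (N + 1) (1 : NC X k) = 1 := by
    rw [evA_succ]
    simp [evA_zero']
  let E : NC X k →ₐ[k] B :=
    { toFun := evA f S (N + 1)
      map_one' := hone
      map_mul' := fun a b => sub_eq_zero.1 (evA_mul hN S (N + 1) 0 (by omega) a b).eq_zero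
      map_zero' := evA_zero' f S (N + 1)
      map_add' := evA_add f S (N + 1)
      commutes' := fun c => by
        change evA f S (N + 1) (NC.C c) = _
        rw [evA_succ]
        simp [evA_zero'] }
  have hE : ∀ a, E a = evA f S (N + 1) a := fun _ => rfl
  refine ⟨E, ?_, ?_, wds S (N + 1), ?_⟩
  · intro x
    rw [hE, hrec]
    simp only [NC.var_nil, map_zero, zero_add]
    by_cases hx : x ∈ S
    · rw [Finset.sum_eq_single x]
      · rw [NC.sh_var_self, hone, mul_one]
      · intro y _ hy
        rw [NC.sh_var_ne hy, evA_zero', mul_zero]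
      · intro h
        exact absurd hx h
    · have hx0 : f x = 0 := by
        by_contra h
        exact hx (by rw [hS, Set.Finite.mem_toFinset]; exact h)
      rw [hx0]
      refine Finset.sum_eq_zero fun y hy => ?_
      have hyx : y ≠ x := fun h => hx (h ▸ hy)
      rw [NC.sh_var_ne hyx, evA_zero', mul_zero]
  · intro a
    exact hrec a
  · intro a b h
    exact evA_congr f S (N + 1) a b h

section nilp

variable {p : ℕ} [Fact p.Prime] {P : Type*} [Group P]

private theorem exists_fix [Finite P] (hP : IsPGroup p P) (I : Ideal (MonoidAlgebra (ZMod p) P))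
    [Finite (MonoidAlgebra (ZMod p) P)] (hI : I ≠ ⊤) :
    ∃ v : MonoidAlgebra (ZMod p) P, v ∉ I ∧
      ∀ g : P, (MonoidAlgebra.of (ZMod p) P g - 1) * v ∈ I := by
  classical
  let M := MonoidAlgebra (ZMod p) P ⧸ I
  have : Finite M := Finite.of_surjective (Submodule.mkQ I) (Submodule.mkQ_surjective I)
  have : Nontrivial M := Submodule.Quotient.nontrivial_iff.2 hI
  let : MulAction P M := MulAction.compHom M (MonoidAlgebra.of (ZMod p) P)
  have hpM : ∀ m : M, p • m = 0 := by
    intro m
    rw [← Nat.cast_smul_eq_nsmul (MonoidAlgebra (ZMod p) P) p m]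
    have h0 : ((p : ℕ) : MonoidAlgebra (ZMod p) P) = 0 := by
      rw [← map_natCast (algebraMap (ZMod p) (MonoidAlgebra (ZMod p) P)), ZMod.natCast_self,
        map_zero]
    rw [h0, zero_smul]
  have hdvd : p ∣ Nat.card M := by
    obtain ⟨m, hm⟩ := exists_ne (0 : M)
    have h1 : addOrderOf m = p := addOrderOf_eq_prime (hpM m) hm
    rw [← h1]
    exact addOrderOf_dvd_natCard m
  have hmod := hP.card_modEq_card_fixedPoints M
  have hdvd2 : p ∣ Nat.card (MulAction.fixedPoints P M) :=
    (Nat.modEq_zero_iff_dvd.1 (hmod.symm.trans (Nat.modEq_zero_iff_dvd.2 hdvd)))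
  have h0 : (0 : M) ∈ MulAction.fixedPoints P M := by
    intro g
    change MonoidAlgebra.of (ZMod p) P g • (0 : M) = 0
    exact smul_zero _
  have hlt : 1 < Nat.card (MulAction.fixedPoints P M) := by
    have hpos : 0 < Nat.card (MulAction.fixedPoints P M) := by
      have : Nonempty (MulAction.fixedPoints P M) := ⟨⟨0, h0⟩⟩
      exact Nat.card_pos
    exact lt_of_lt_of_le (Fact.out : p.Prime).one_lt (Nat.le_of_dvd hpos hdvd2)
  have : Nontrivial (MulAction.fixedPoints P M) := Finite.one_lt_card_iff_nontrivial.1 hlt
  obtain ⟨⟨m, hm⟩, hne⟩ := exists_ne (⟨0, h0⟩ : MulAction.fixedPoints P M)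
  have hm0 : m ≠ 0 := fun h => hne (Subtype.ext h)
  obtain ⟨v, rfl⟩ := Submodule.mkQ_surjective I m
  refine ⟨v, ?_, ?_⟩
  · intro hv
    apply hm0
    rw [Submodule.mkQ_apply, Submodule.Quotient.mk_eq_zero]
    exact hv
  · intro g
    have h1 : MonoidAlgebra.of (ZMod p) P g • (Submodule.mkQ I v) = Submodule.mkQ I v := hm g
    rw [← map_smul, ← sub_eq_zero, ← map_sub, Submodule.mkQ_apply,
      Submodule.Quotient.mk_eq_zero] at h1
    rw [sub_mul, one_mul]
    exact h1

/-- The augmentation ideal of the group algebra of a finite `p`-group over `ZMod p` is nilpotent.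
PROOF. More generally for a finite `ZMod p`-module `V` with an action of `P`, some `N` (depending on
`Nat.card V`) is such that all products of `N` operators `g - 1` vanish on `V`: strong induction on the cardinality; if
`V ≠ 0` then the submodule `V^P` of fixed vectors is not `0` (`IsPGroup.card_modEq_card_fixedPoints`; `p ∣ Nat.card V`), apply
the induction hypothesis to `V ⧸ V^P`. Take `V = MonoidAlgebra (ZMod p) P` and apply to `1`. (You may
also do the induction with subgroups of the additive group: ascending chain of fixed vectors.) -/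
theorem exists_nilp {p : ℕ} [Fact p.Prime] {P : Type*} [Group P] [Finite P] (hP : IsPGroup p P) :
    ∃ N : ℕ, ∀ l : List P, l.length = N →
      (l.map fun g => MonoidAlgebra.of (ZMod p) P g - 1).prod = 0 := by
  classical
  let A := MonoidAlgebra (ZMod p) P
  have : Finite A := by
    have : Fintype P := Fintype.ofFinite P
    have : NeZero p := ⟨(Fact.out : p.Prime).ne_zero⟩
    have h1 : Finite (P →₀ ZMod p) := inferInstance
    exact Finite.of_injective (MonoidAlgebra.coeff : A → (P →₀ ZMod p))
      MonoidAlgebra.coeff_injective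
  let Good : Ideal A → Prop := fun I => ∃ N : ℕ, ∀ l : List P, l.length = N → ∀ v ∈ I,
    (l.map fun g => MonoidAlgebra.of (ZMod p) P g - 1).prod * v = 0
  have : Finite (Ideal A) := Finite.of_injective (fun I : Ideal A => (I : Set A))
    SetLike.coe_injective
  have hbot : Good ⊥ := ⟨0, fun l _ v hv => by
    rw [Ideal.mem_bot] at hv
    rw [hv, mul_zero]⟩
  obtain ⟨I, hImax⟩ := (Set.toFinite {I : Ideal A | Good I}).exists_maximal ⟨⊥, hbot⟩
  have hIG : Good I := hImax.prop
  by_cases htop : I = ⊤
  · obtain ⟨N, hN⟩ := hIG
    refine ⟨N, fun l hl => ?_⟩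
    have := hN l hl 1 (by rw [htop]; exact Submodule.mem_top)
    rwa [mul_one] at this
  · exfalso
    obtain ⟨v, hv, hvI⟩ := exists_fix hP I htop
    have hkey : ∀ (a : A) (g : P), (MonoidAlgebra.of (ZMod p) P g - 1) * (a * v) ∈ I := by
      intro a g
      induction a using MonoidAlgebra.induction_on with
      | of h =>
        have h1 := I.sub_mem (hvI (g * h)) (hvI h)
        have e : (MonoidAlgebra.of (ZMod p) P g - 1) * (MonoidAlgebra.of (ZMod p) P h * v) =
            (MonoidAlgebra.of (ZMod p) P (g * h) - 1) * v -
              (MonoidAlgebra.of (ZMod p) P h - 1) * v := by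
          rw [map_mul]
          noncomm_ring
        rw [e]
        exact h1
      | add a b ha hb =>
        rw [add_mul, mul_add]
        exact I.add_mem ha hb
      | smul c a ha =>
        have e : (MonoidAlgebra.of (ZMod p) P g - 1) * (c • a * v) =
            algebraMap (ZMod p) A c * ((MonoidAlgebra.of (ZMod p) P g - 1) * (a * v)) := by
          rw [smul_mul_assoc, mul_smul_comm, Algebra.smul_def]
        rw [e]
        exact I.mul_mem_left _ ha
    have hG' : Good (I ⊔ Ideal.span {v}) := by
      obtain ⟨N, hN⟩ := hIG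
      refine ⟨N + 1, fun l hl u hu => ?_⟩
      obtain ⟨i, hi, w, hw, rfl⟩ := Submodule.mem_sup.1 hu
      obtain ⟨a, rfl⟩ := Submodule.mem_span_singleton.1 hw
      obtain ⟨l', g, rfl⟩ : ∃ l' g, l = l' ++ [g] := by
        have hne : l ≠ [] := by
          rintro rfl
          simp at hl
        exact ⟨l.dropLast, l.getLast hne, (List.dropLast_append_getLast hne).symm⟩
      have hl' : l'.length = N := by
        rw [List.length_append, List.length_singleton] at hl
        omega
      rw [List.map_append, List.prod_append, List.map_singleton, List.prod_singleton, mul_assoc]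
      apply hN l' hl'
      rw [mul_add]
      refine I.add_mem (I.mul_mem_left _ hi) ?_
      exact hkey a g
    have hle : I ≤ I ⊔ Ideal.span {v} := le_sup_left
    have hle2 := hImax.le_of_ge hG' hle
    exact hv (hle2 (le_sup_right (a := I) (Ideal.mem_span_singleton_self v)))

end nilp

end Pool.Agent.Helper85.PF
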