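import Pool.Agent.Helper85.PF.St.A2
import Pool.Agent.Helper85.PF.St.A3

/-! Project PF, piece A4: evaluation in the group algebras of the finite quotients of `F`, and
injectivity of the Magnus homomorphism. -/

set_option autoImplicit false
set_option linter.unusedSectionVars false

universe u

namespace Pool.Agent.Helper85.PF

open Filter Topology

variable {p : ℕ} [Fact p.Prime] {X F : Type u} [Group F] [TopologicalSpace F]
  [IsTopologicalGroup F] {ι : X → F}

/-- a locally constant map to a discrete space is continuous -/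
private theorem cont_of_eventually {A B : Type*} [TopologicalSpace A] [TopologicalSpace B]
    (f : A → B) (h : ∀ a, ∀ᶠ x in 𝓝 a, f x = f a) : Continuous f := by
  rw [continuous_iff_continuousAt]
  intro a
  exact (tendsto_const_nhds (x := f a)).congr' ((h a).mono fun x hx => hx.symm)

/-- PROOF. `P = F ⧸ N` is a finite `p`-group (`hF.isProP`). `f x = of (mk (ι x)) - 1` is finitely supported
(`hF.conv`: almost all `ι x ∈ N`), nilpotent by `exists_nilp`. `exists_eval` gives `E`, with `S = hfin.toFinset`. `g ↦ E (μ g)`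
is a continuous monoid homomorphism to `MonoidAlgebra (ZMod p) P` with the discrete topology (`W` and the continuity of the
coefficients of `μ`; `ZMod p` is discrete), as is `g ↦ of (mk g)` (`N` is open);
they agree on `ι x`, so `hom_ext`. -/
theorem exists_groupAlg_eval (hF : IsFreeProP p ι) {μ : F →* NC X (ZMod p)} (hμ : IsMagnus p ι μ)
    (N : Subgroup F) [N.Normal] (hN : IsOpen (N : Set F)) :
    ∃ (E : NC X (ZMod p) →ₐ[ZMod p] MonoidAlgebra (ZMod p) (F ⧸ N)) (S : Finset X)
      (W : Finset (List X)),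
      (∀ g, E (μ g) = MonoidAlgebra.of (ZMod p) (F ⧸ N) (QuotientGroup.mk g)) ∧
      (∀ a, E a = algebraMap (ZMod p) _ (a []) +
        ∑ x ∈ S, (MonoidAlgebra.of (ZMod p) (F ⧸ N) (QuotientGroup.mk (ι x)) - 1) *
          E (NC.sh a x)) ∧
      (∀ a b : NC X (ZMod p), (∀ w ∈ W, a w = b w) → E a = E b) := by
  have hcomp : CompactSpace F := hF.isProP.compact
  have hfinP : Finite (F ⧸ N) := Subgroup.quotient_finite_of_isOpen N hN
  have hPp : IsPGroup p (F ⧸ N) := by
    obtain ⟨n, hn⟩ := hF.isProP.index N inferInstance hN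
    exact IsPGroup.of_card (n := n) (by rw [← hn, Subgroup.index])
  have hN1 : (N : Set F) ∈ 𝓝 (1 : F) := hN.mem_nhds N.one_mem
  set f : X → MonoidAlgebra (ZMod p) (F ⧸ N) :=
    fun x => MonoidAlgebra.of (ZMod p) (F ⧸ N) (QuotientGroup.mk (ι x)) - 1 with hf
  have hfin : {x | f x ≠ 0}.Finite := by
    have h1 : {x | ι x ∉ N}.Finite := by
      have h2 := hF.conv.eventually hN1
      rw [Filter.eventually_cofinite] at h2
      exact h2
    refine h1.subset ?_
    intro x hx hxN
    apply hx
    have h3 : (QuotientGroup.mk (ι x) : F ⧸ N) = 1 := (QuotientGroup.eq_one_iff _).2 hxN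
    rw [hf]
    simp only
    rw [h3, map_one, sub_self]
  obtain ⟨N0, hN0⟩ := exists_nilp (p := p) hPp
  obtain ⟨E, hEvar, hErec, W, hW⟩ := exists_eval (k := ZMod p) f hfin N0 (by
    intro w hw
    have h4 := hN0 (w.map fun x => (QuotientGroup.mk (ι x) : F ⧸ N)) (by
      rw [List.length_map, hw])
    rw [List.map_map] at h4
    exact h4)
  refine ⟨E, hfin.toFinset, W, ?_, hErec, hW⟩
  letI : TopologicalSpace (MonoidAlgebra (ZMod p) (F ⧸ N)) := ⊥
  have : DiscreteTopology (MonoidAlgebra (ZMod p) (F ⧸ N)) := ⟨rfl⟩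
  have hφ : Continuous ((E : NC X (ZMod p) →* MonoidAlgebra (ZMod p) (F ⧸ N)).comp μ) := by
    refine cont_of_eventually _ fun g0 => ?_
    have h5 : ∀ᶠ g in 𝓝 g0, ∀ w ∈ W, μ g w = μ g0 w := by
      rw [Filter.eventually_all_finset]
      intro w _
      have h6 : Continuous fun g => μ g w := (NC.continuous_apply w).comp hμ.cont
      exact h6.continuousAt.eventually (p := fun z => z = μ g0 w)
        ((isOpen_discrete {μ g0 w}).mem_nhds rfl)
    exact h5.mono fun g hg => hW _ _ hg
  have hψ : Continuous ((MonoidAlgebra.of (ZMod p) (F ⧸ N)).comp (QuotientGroup.mk' N)) := by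
    refine cont_of_eventually _ fun g0 => ?_
    have h5 : ∀ᶠ g in 𝓝 g0, g0⁻¹ * g ∈ N := by
      have h6 : Continuous fun g => g0⁻¹ * g := continuous_const_mul _
      have h7 : Tendsto (fun g => g0⁻¹ * g) (𝓝 g0) (𝓝 (g0⁻¹ * g0)) := h6.continuousAt
      rw [inv_mul_cancel] at h7
      exact h7.eventually hN1
    refine h5.mono fun g hg => ?_
    have h8 : (QuotientGroup.mk' N) g = (QuotientGroup.mk' N) g0 :=
      ((QuotientGroup.eq (s := N)).2 hg).symm
    rw [MonoidHom.comp_apply, MonoidHom.comp_apply, h8]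
  have heq := hom_ext hF ((E : NC X (ZMod p) →* MonoidAlgebra (ZMod p) (F ⧸ N)).comp μ)
    ((MonoidAlgebra.of (ZMod p) (F ⧸ N)).comp (QuotientGroup.mk' N)) hφ hψ (by
      intro x
      change E (μ (ι x)) = MonoidAlgebra.of (ZMod p) (F ⧸ N) (QuotientGroup.mk (ι x))
      rw [hμ.var x, map_add, map_one, hEvar x, hf]
      exact add_sub_cancel _ _)
  intro g
  exact DFunLike.congr_fun heq g

/-- PROOF. If `μ g = μ h` then `g⁻¹ * h` lies in every open normal subgroup (previous theorem, `MonoidAlgebra.of_injective`),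
and these intersect trivially in a compact totally disconnected (Hausdorff) group. -/
theorem magnus_injective (hF : IsFreeProP p ι) {μ : F →* NC X (ZMod p)} (hμ : IsMagnus p ι μ) :
    Function.Injective μ := by
  have hcomp : CompactSpace F := hF.isProP.compact
  have htd : TotallyDisconnectedSpace F := hF.isProP.totDisc
  intro g h hgh
  by_contra hne
  have hne' : (1 : F) ≠ g⁻¹ * h := by
    intro h1
    apply hne
    rw [eq_comm, inv_mul_eq_one] at h1
    exact h1
  obtain ⟨H, hH⟩ := ProfiniteGrp.exist_openNormalSubgroup_sub_open_nhds_of_one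
    (isOpen_compl_singleton (x := g⁻¹ * h)) (by exact hne')
  obtain ⟨E, S, W, hE, -, -⟩ := exists_groupAlg_eval hF hμ H.toSubgroup H.isOpen'
  have h2 := hE g
  rw [hgh, hE h] at h2
  have h3 := MonoidAlgebra.of_injective h2
  have h4 : g⁻¹ * h ∈ H.toSubgroup := QuotientGroup.eq.1 h3.symm
  exact hH h4 rfl

end Pool.Agent.Helper85.PF
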