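import Pool.Agent.Helper85.PF.St.A4

/-! Project PF, piece B1: the syzygy lemma; regular Fox derivatives. -/

set_option autoImplicit false
set_option linter.unusedSectionVars false

universe u

namespace Pool.Agent.Helper85.PF

open Filter Topology

section

variable {X k : Type*} [CommRing k] [TopologicalSpace k] [IsTopologicalRing k] [CompactSpace k]
  [T2Space k]

theorem syzygy {u v : NC X k} (hu : u [] = 0) (hv : v ∈ clIdeal u) :
    v [] = 0 ∧ ∃ a : NC X k, ∀ z, NC.sh v z - NC.sh u z * a ∈ clIdeal u := by
  constructor
  · have hI : IsClosed (((NC.aug : NC X k →+* k).toAddMonoidHom.ker : AddSubgroup (NC X k)) :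
        Set (NC X k)) := by
      have : (((NC.aug : NC X k →+* k).toAddMonoidHom.ker : AddSubgroup (NC X k)) :
          Set (NC X k)) = (fun a : NC X k => a []) ⁻¹' {0} := rfl
      rw [this]
      exact isClosed_singleton.preimage (NC.continuous_apply [])
    have := clIdeal_le hI (u := u) (fun b c => by
      change (b * u * c : NC X k) [] = 0
      rw [NC.mul_nil, NC.mul_nil, hu]
      simp) hv
    exact this
  · let I : AddSubgroup (NC X k) :=
      { carrier := {v | ∃ a : NC X k, ∀ z, NC.sh v z - NC.sh u z * a ∈ clIdeal u}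
        zero_mem' := ⟨0, fun z => by simp⟩
        add_mem' := by
          rintro v w ⟨a, ha⟩ ⟨b, hb⟩
          refine ⟨a + b, fun z => ?_⟩
          have : NC.sh (v + w) z - NC.sh u z * (a + b) =
              (NC.sh v z - NC.sh u z * a) + (NC.sh w z - NC.sh u z * b) := by
            rw [NC.sh_add]
            noncomm_ring
          rw [this]
          exact add_mem (ha z) (hb z)
        neg_mem' := by
          rintro v ⟨a, ha⟩
          refine ⟨-a, fun z => ?_⟩
          have : NC.sh (-v) z - NC.sh u z * (-a) = -(NC.sh v z - NC.sh u z * a) := by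
            rw [NC.sh_neg]
            noncomm_ring
          rw [this]
          exact neg_mem (ha z) }
    have hI : IsClosed (I : Set (NC X k)) := by
      let T : Set (NC X k × NC X k) := {q | ∀ z, NC.sh q.1 z - NC.sh u z * q.2 ∈ clIdeal u}
      have hT : IsClosed T := by
        have : T = ⋂ z, (fun q : NC X k × NC X k => NC.sh q.1 z - NC.sh u z * q.2) ⁻¹'
            (clIdeal u : Set (NC X k)) := by
          ext q
          simp [T]
        rw [this]
        refine isClosed_iInter fun z => (isClosed_clIdeal u).preimage ?_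
        exact ((NC.continuous_sh z).comp continuous_fst).sub
          (continuous_const.mul continuous_snd)
      have h2 : (I : Set (NC X k)) = Prod.fst '' T := by
        ext v
        constructor
        · rintro ⟨a, ha⟩
          exact ⟨(v, a), ha, rfl⟩
        · rintro ⟨q, hq, rfl⟩
          exact ⟨q.2, hq⟩
      rw [h2]
      exact (hT.isCompact.image continuous_fst).isClosed
    have := clIdeal_le hI (u := u) (fun b c => by
      refine ⟨NC.C (b []) * c, fun z => ?_⟩
      have : NC.sh (b * u * c) z - NC.sh u z * (NC.C (b []) * c) = NC.sh b z * u * c := by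
        rw [NC.sh_mul', NC.sh_mul', NC.mul_nil, hu, mul_zero, map_zero, zero_mul, zero_add,
          ← mul_assoc (NC.sh u z), ← NC.C_commutes]
        noncomm_ring
      rw [this]
      exact mul_mem_clIdeal_right c (mul_mem_clIdeal_left _ (mem_clIdeal_self u))) hv
    exact this

theorem eq_zero_of_regular {u v : NC X k} (hu : u [] = 0) (x : X)
    (hreg : ∀ a : NC X k, NC.sh u x * a ∈ clIdeal u → a ∈ clIdeal u) (hv : v ∈ clIdeal u)
    (hsupp : ∀ w : List X, x ∈ w → v w = 0) : v = 0 := by
  have key : ∀ (w : List X) (v : NC X k), v ∈ clIdeal u → (∀ w : List X, x ∈ w → v w = 0) →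
      v w = 0 := by
    intro w
    induction w with
    | nil => exact fun v hv _ => (syzygy hu hv).1
    | cons z w ih =>
      intro v hv hs
      by_cases hz : z = x
      · exact hs _ (by simp [hz])
      obtain ⟨a, ha⟩ := (syzygy hu hv).2
      have hx : NC.sh v x = 0 := NC.ext fun w' => hs (x :: w') (by simp)
      have h1 : NC.sh u x * a ∈ clIdeal u := by
        have := ha x
        rw [hx, zero_sub] at this
        simpa using neg_mem this
      have h2 : NC.sh u z * a ∈ clIdeal u := mul_mem_clIdeal_left _ (hreg a h1)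
      have h3 : NC.sh v z ∈ clIdeal u := by
        have := add_mem (ha z) h2
        simpa using this
      exact ih (NC.sh v z) h3 fun w' hw' => hs (z :: w') (List.mem_cons_of_mem _ hw')
  exact NC.ext fun w => key w v hv hsupp

end

section kill

variable {X k : Type*} [Ring k]

open Classical in
/-- put the variable `x` equal to `0` -/
private noncomputable def killFun (x : X) (a : NC X k) : NC X k :=
  fun w => if x ∈ w then 0 else a w

private theorem killFun_pos {x : X} {w : List X} (h : x ∈ w) (a : NC X k) :
    killFun x a w = 0 := by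
  unfold killFun
  rw [if_pos h]

private theorem killFun_neg {x : X} {w : List X} (h : x ∉ w) (a : NC X k) :
    killFun x a w = a w := by
  unfold killFun
  rw [if_neg h]

private theorem sh_killFun_self (x : X) (a : NC X k) : NC.sh (killFun x a) x = 0 :=
  NC.ext fun w => killFun_pos (by simp) a

private theorem sh_killFun_ne {x z : X} (h : z ≠ x) (a : NC X k) :
    NC.sh (killFun x a) z = killFun x (NC.sh a z) := by
  ext w
  rw [NC.sh_apply]
  by_cases hw : x ∈ w
  · rw [killFun_pos hw, killFun_pos (List.mem_cons_of_mem _ hw)]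
  · rw [killFun_neg hw, killFun_neg (by simp [hw, Ne.symm h]), NC.sh_apply]

private theorem killFun_mul (x : X) (w : List X) : ∀ a b : NC X k,
    killFun x (a * b) w = (killFun x a * killFun x b) w := by
  induction w with
  | nil =>
    intro a b
    rw [NC.mul_nil, killFun_neg (by simp), killFun_neg (by simp), killFun_neg (by simp),
      NC.mul_nil]
  | cons z w ih =>
    intro a b
    rw [NC.mul_cons]
    by_cases hz : z = x
    · subst hz
      have h1 : z ∈ z :: w := by simp
      rw [killFun_pos h1 (a * b), killFun_pos h1 b, sh_killFun_self, zero_mul]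
      simp
    · rw [sh_killFun_ne hz, ← ih]
      by_cases hw : x ∈ w
      · rw [killFun_pos (List.mem_cons_of_mem _ hw), killFun_pos (List.mem_cons_of_mem _ hw),
          killFun_pos hw]
        simp
      · have hw' : x ∉ z :: w := by simp [hw, Ne.symm hz]
        rw [killFun_neg hw', killFun_neg hw', killFun_neg hw, killFun_neg (by simp),
          NC.mul_cons]

private theorem killFun_one (x : X) : killFun x (1 : NC X k) = 1 := by
  ext w
  cases w with
  | nil => rw [killFun_neg (by simp)]
  | cons z w =>
    by_cases h : x ∈ z :: w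
    · rw [killFun_pos h]; rfl
    · rw [killFun_neg h]

private noncomputable def kill (x : X) : NC X k →* NC X k where
  toFun := killFun x
  map_one' := killFun_one x
  map_mul' a b := NC.ext fun w => killFun_mul x w a b

private theorem continuous_kill [TopologicalSpace k] (x : X) :
    Continuous (kill x : NC X k → NC X k) := by
  refine NC.continuous_iff.2 fun w => ?_
  by_cases hw : x ∈ w
  · have : (fun z : NC X k => (kill x : NC X k →* NC X k) z w) = fun _ => 0 :=
      funext fun a => killFun_pos hw a
    rw [this]
    exact continuous_const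
  · have : (fun z : NC X k => (kill x : NC X k →* NC X k) z w) = fun a => a w :=
      funext fun a => killFun_neg hw a
    rw [this]
    exact NC.continuous_apply w

private theorem kill_var_ne {x y : X} (h : y ≠ x) :
    (kill x : NC X k →* NC X k) (1 + NC.var y) = 1 + NC.var y := by
  ext w
  by_cases hw : x ∈ w
  · have h1 : (kill x : NC X k →* NC X k) (1 + NC.var y) w = 0 := killFun_pos hw _
    rw [h1, NC.add_apply]
    have h2 : (1 : NC X k) w = 0 := by
      cases w with
      | nil => simp at hw
      | cons z w => rfl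
    have h3 : (NC.var y : NC X k) w = 0 := by
      unfold NC.var
      rw [if_neg]
      rintro rfl
      simp [Ne.symm h] at hw
    rw [h2, h3, add_zero]
  · exact killFun_neg hw _

end kill

variable {p : ℕ} [Fact p.Prime] {X F : Type u} [Group F] [TopologicalSpace F]
  [IsTopologicalGroup F] {ι : X → F}

theorem magnus_nil (hF : IsFreeProP p ι) {μ : F →* NC X (ZMod p)}
    (hμ : IsMagnus p ι μ) (g : F) : μ g [] = 1 := by
  have h := hom_ext hF ((NC.aug : NC X (ZMod p) →+* ZMod p).toMonoidHom.comp μ) 1
    ((NC.continuous_apply []).comp hμ.cont) continuous_const (fun x => by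
      change μ (ι x) [] = 1
      rw [hμ.var, NC.add_apply, NC.var_nil, add_zero]
      rfl)
  exact DFunLike.congr_fun h g

theorem mem_clIdeal_of_mem_RN {μ : F →* NC X (ZMod p)} (hμ : IsMagnus p ι μ) {r g : F}
    (hg : g ∈ RN r) : μ g - 1 ∈ clIdeal (μ r - 1) := by
  let N : Subgroup F :=
    { carrier := {g | μ g - 1 ∈ clIdeal (μ r - 1)}
      one_mem' := by
        change μ 1 - 1 ∈ clIdeal (μ r - 1)
        rw [map_one, sub_self]
        exact zero_mem _
      mul_mem' := by
        intro a b ha hb
        change μ (a * b) - 1 ∈ clIdeal (μ r - 1)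
        have : μ (a * b) - 1 = (μ a - 1) * μ b + (μ b - 1) := by
          rw [map_mul]; noncomm_ring
        rw [this]
        exact add_mem (mul_mem_clIdeal_right _ ha) hb
      inv_mem' := by
        intro a ha
        change μ a⁻¹ - 1 ∈ clIdeal (μ r - 1)
        have h1 : μ a⁻¹ * μ a = 1 := by rw [← map_mul, inv_mul_cancel, map_one]
        have : μ a⁻¹ - 1 = -(μ a⁻¹ * (μ a - 1)) := by
          rw [mul_sub, h1, mul_one, neg_sub]
        rw [this]
        exact neg_mem (mul_mem_clIdeal_left _ ha) }
  have hN : N.Normal := by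
    constructor
    intro a ha b
    change μ (b * a * b⁻¹) - 1 ∈ clIdeal (μ r - 1)
    have h1 : μ b * μ b⁻¹ = 1 := by rw [← map_mul, mul_inv_cancel, map_one]
    have : μ (b * a * b⁻¹) - 1 = μ b * (μ a - 1) * μ b⁻¹ := by
      rw [map_mul, map_mul, mul_sub, sub_mul, mul_one, h1]
    rw [this]
    exact mul_mem_clIdeal_right _ (mul_mem_clIdeal_left _ ha)
  have hcl : IsClosed (N : Set F) :=
    (isClosed_clIdeal (μ r - 1)).preimage (hμ.cont.sub continuous_const)
  have hr : r ∈ N := mem_clIdeal_self _
  have h1 : Subgroup.normalClosure {r} ≤ N := Subgroup.normalClosure_le_normal (by simpa using hr)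
  exact Subgroup.topologicalClosure_minimal _ h1 hcl hg

theorem magnus_avoid {μ : F →* NC X (ZMod p)} (hμ : IsMagnus p ι μ) {x : X} {g : F}
    (hg : g ∈ FY ι {x}ᶜ) (w : List X) (hw : x ∈ w) : μ g w = 0 := by
  let N : Subgroup F :=
    { carrier := {g | (kill x : NC X (ZMod p) →* NC X (ZMod p)) (μ g) = μ g}
      one_mem' := by
        change (kill x : NC X (ZMod p) →* NC X (ZMod p)) (μ 1) = μ 1
        rw [map_one, map_one]
      mul_mem' := by
        intro a b ha hb
        change (kill x : NC X (ZMod p) →* NC X (ZMod p)) (μ (a * b)) = μ (a * b)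
        have ha' : (kill x : NC X (ZMod p) →* NC X (ZMod p)) (μ a) = μ a := ha
        have hb' : (kill x : NC X (ZMod p) →* NC X (ZMod p)) (μ b) = μ b := hb
        rw [map_mul, map_mul, ha', hb']
      inv_mem' := by
        intro a ha
        change (kill x : NC X (ZMod p) →* NC X (ZMod p)) (μ a⁻¹) = μ a⁻¹
        have ha' : (kill x : NC X (ZMod p) →* NC X (ZMod p)) (μ a) = μ a := ha
        have h1 : (kill x : NC X (ZMod p) →* NC X (ZMod p)) (μ a⁻¹) * μ a = 1 := by
          conv_lhs => rw [← ha']
          rw [← map_mul, ← map_mul, inv_mul_cancel, map_one, map_one]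
        have h2 : μ a * μ a⁻¹ = 1 := by rw [← map_mul, mul_inv_cancel, map_one]
        calc (kill x : NC X (ZMod p) →* NC X (ZMod p)) (μ a⁻¹)
            = (kill x : NC X (ZMod p) →* NC X (ZMod p)) (μ a⁻¹) * (μ a * μ a⁻¹) := by
              rw [h2, mul_one]
          _ = μ a⁻¹ := by rw [← mul_assoc, h1, one_mul] }
  have hcl : IsClosed (N : Set F) :=
    isClosed_eq ((continuous_kill x).comp hμ.cont) hμ.cont
  have h1 : Subgroup.closure (ι '' {x}ᶜ) ≤ N := by
    rw [Subgroup.closure_le]
    rintro _ ⟨y, hy, rfl⟩
    change (kill x : NC X (ZMod p) →* NC X (ZMod p)) (μ (ι y)) = μ (ι y)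
    rw [hμ.var]
    exact kill_var_ne hy
  have h2 : (kill x : NC X (ZMod p) →* NC X (ZMod p)) (μ g) = μ g :=
    Subgroup.topologicalClosure_minimal _ h1 hcl hg
  rw [← h2]
  exact killFun_pos hw _

theorem staysFree_of_regular (hF : IsFreeProP p ι) {μ : F →* NC X (ZMod p)}
    (hμ : IsMagnus p ι μ) (r : F) (x : X)
    (hreg : ∀ a, NC.sh (μ r - 1) x * a ∈ clIdeal (μ r - 1) → a ∈ clIdeal (μ r - 1)) :
    StaysFree ι r x := by
  have hinj := magnus_injective hF hμ
  have hu : (μ r - 1 : NC X (ZMod p)) [] = 0 := by
    rw [NC.sub_apply, magnus_nil hF hμ, NC.one_nil, sub_self]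
  unfold StaysFree
  rw [injective_iff_map_eq_one]
  rintro ⟨g, hg⟩ h
  have hgR : g ∈ RN r := by
    simpa using h
  have h1 := mem_clIdeal_of_mem_RN hμ hgR
  have h2 : μ g - 1 = 0 := by
    refine eq_zero_of_regular hu x hreg h1 fun w hw => ?_
    rw [NC.sub_apply, magnus_avoid hμ hg w hw]
    cases w with
    | nil => simp at hw
    | cons z w => simp
  have h3 : g = 1 := hinj (by rw [map_one]; exact sub_eq_zero.1 h2)
  exact Subtype.ext h3

end Pool.Agent.Helper85.PF
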