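import Pool.Agent.Helper85.PF.St.B1

/-! Project PF, piece E1: the graded criterion for a completely prime closed ideal. -/

set_option autoImplicit false
set_option linter.unusedSectionVars false

universe u

namespace Pool.Agent.Helper85.PF

open Filter Topology

variable {X k : Type*} [CommRing k] [TopologicalSpace k] [IsTopologicalRing k] [CompactSpace k]
  [T2Space k]

theorem isPrimeCl_of_graded [Finite X] (wt : X → ℕ) (hwt : ∀ x, 0 < wt x) {u : NC X k} {n : ℕ}
    (hn : 0 < n) (hlow : Low wt n u) (K : AddSubgroup (NC X k))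
    (K1 : ∀ a b : NC X k, a ∈ K → b * a ∈ K) (K1' : ∀ a b : NC X k, a ∈ K → a * b ∈ K)
    (K2 : ∀ (d : ℕ) (a : NC X k), a ∈ K → hc wt d a ∈ K)
    (K3 : ∀ (d : ℕ) (a : NC X k), hc wt d a ∈ K →
      ∃ j ∈ clIdeal u, Low wt d j ∧ hc wt d j = hc wt d a)
    (K4 : ∀ (d e : ℕ) (a b : NC X k), hc wt d a * hc wt e b ∈ K → hc wt d a ∈ K ∨ hc wt e b ∈ K)
    (K5 : hc wt n u ∈ K) (K6 : ∃ z, NC.sh (hc wt n u) z ∉ K) : IsPrimeCl u := by
  classical
  have := Fintype.ofFinite X
  have hu0 : u [] = 0 := hlow [] (by simpa using hn)
  -- reduction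
  have red : ∀ a : NC X k, a ∉ clIdeal u → ∃ (a' : NC X k) (d : ℕ), a - a' ∈ clIdeal u ∧
      Low wt d a' ∧ hc wt d a' ∉ K := by
    intro a ha
    by_contra hcon
    push Not at hcon
    have hstep : ∀ d : ℕ, ∃ a' : NC X k, a - a' ∈ clIdeal u ∧ Low wt d a' := by
      intro d
      induction d with
      | zero => exact ⟨a, by simp, low_zero wt a⟩
      | succ d ih =>
        obtain ⟨a', h1, h2⟩ := ih
        obtain ⟨j, hj, hj1, hj2⟩ := K3 d a' (hcon a' d h1 h2)
        refine ⟨a' - j, ?_, ?_⟩
        · have : a - (a' - j) = (a - a') + j := by abel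
          rw [this]
          exact add_mem h1 hj
        · refine Low.succ_of_hc wt (Low.sub wt h2 hj1) ?_
          rw [hc_sub, hj2, sub_self]
    choose f hf1 hf2 using hstep
    have hlim : Tendsto (fun d => a - f d) atTop (𝓝 a) := by
      rw [NC.tendsto_iff]
      intro w
      refine tendsto_const_nhds.congr' ?_
      filter_upwards [eventually_gt_atTop (wtw wt w)] with d hd
      rw [NC.sub_apply, hf2 d w hd, sub_zero]
    exact ha ((isClosed_clIdeal u).mem_of_tendsto hlim (Eventually.of_forall hf1))
  -- sums of homogeneous parts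
  have hcsum : ∀ (m : ℕ) (v : NC X k), 0 < m → hc wt m v =
      ∑ z ∈ Finset.univ.filter (fun z => wt z ≤ m), NC.var z * hc wt (m - wt z) (NC.sh v z) := by
    intro m v hm
    conv_lhs => rw [eq_sum_var_mul_sh v, hc_add]
    have h1 : hc wt m (NC.C (v []) : NC X k) = 0 := by
      ext w
      rw [hc_apply]
      cases w with
      | nil => rw [if_neg (by simp; omega)]; rfl
      | cons x w => simp
    rw [h1, zero_add, hc_sum, Finset.sum_filter]
    refine Finset.sum_congr rfl fun z _ => ?_
    split_ifs with h
    · exact hc_var_mul wt z h _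
    · exact hc_var_mul_lt wt z (by omega) _
  -- the main induction
  have main : ∀ m : ℕ, ∀ v ∈ clIdeal u, Low wt m v → hc wt m v ∈ K := by
    intro m
    induction m using Nat.strong_induction_on with
    | _ m ih =>
    intro v hv hlv
    obtain ⟨hv0, a, ha⟩ := syzygy hu0 hv
    rcases Nat.eq_zero_or_pos m with hm | hm
    · subst hm
      rw [hc_zero_eq wt hwt, hv0, map_zero]
      exact zero_mem K
    by_cases haJ : a ∈ clIdeal u
    · have h1 : ∀ z, NC.sh v z ∈ clIdeal u := by
        intro z
        have := add_mem (ha z) (mul_mem_clIdeal_left (NC.sh u z) haJ)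
        simpa using this
      rw [hcsum m v hm]
      refine sum_mem fun z hz => ?_
      have hz' := (Finset.mem_filter.1 hz).2
      have hz2 := hwt z
      exact K1 _ _ (ih (m - wt z) (by omega) _ (h1 z) (hlv.sh wt z))
    · obtain ⟨a', d, h1, h2, h3⟩ := red a haJ
      have ha' : ∀ z, NC.sh v z - NC.sh u z * a' ∈ clIdeal u := by
        intro z
        have : NC.sh v z - NC.sh u z * a' = (NC.sh v z - NC.sh u z * a) +
            NC.sh u z * (a - a') := by noncomm_ring
        rw [this]
        exact add_mem (ha z) (mul_mem_clIdeal_left _ h1)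
      by_cases hdn : d + n < m
      · exfalso
        obtain ⟨z, hz⟩ := K6
        have hzn : wt z ≤ n := by
          by_contra hcon
          rw [sh_hc_lt wt (by omega)] at hz
          exact hz (zero_mem K)
        have hz2 := hwt z
        have hlow1 : Low wt ((n - wt z) + d) (NC.sh u z * a') := (hlow.sh wt z).mul wt h2
        have hlow2 : Low wt (m - wt z) (NC.sh v z) := hlv.sh wt z
        have hlow3 : Low wt ((n - wt z) + d) (NC.sh v z - NC.sh u z * a') :=
          (hlow2.mono wt (by omega)).sub wt hlow1
        have h4 := ih ((n - wt z) + d) (by omega) _ (ha' z) hlow3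
        rw [hc_sub, hc_of_low wt (by omega) hlow2, zero_sub,
          hc_mul_of_low wt (hlow.sh wt z) h2] at h4
        have h5 := neg_mem h4
        rw [neg_neg] at h5
        rcases K4 _ _ _ _ h5 with h6 | h6
        · rw [← sh_hc wt hzn] at h6
          exact hz h6
        · exact h3 h6
      · -- each component
        have h4 : ∀ z, wt z ≤ m → hc wt (m - wt z) (NC.sh v z) -
            hc wt (m - wt z) (NC.sh u z * a') ∈ K := by
          intro z hz
          rw [← hc_sub]
          have hz2 := hwt z
          refine ih (m - wt z) (by omega) _ (ha' z) ((hlv.sh wt z).sub wt ?_)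
          exact ((hlow.sh wt z).mul wt h2).mono wt (by omega)
        have h5 : u * a' = ∑ z, NC.var z * (NC.sh u z * a') := by
          conv_lhs => rw [eq_sum_var_mul_sh u]
          rw [hu0, map_zero, zero_add, Finset.sum_mul]
          exact Finset.sum_congr rfl fun z _ => mul_assoc _ _ _
        have h6 : hc wt m (u * a') = ∑ z ∈ Finset.univ.filter (fun z => wt z ≤ m),
            NC.var z * hc wt (m - wt z) (NC.sh u z * a') := by
          rw [h5, hc_sum, Finset.sum_filter]
          refine Finset.sum_congr rfl fun z _ => ?_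
          split_ifs with h
          · exact hc_var_mul wt z h _
          · exact hc_var_mul_lt wt z (by omega) _
        have h7 : hc wt m (u * a') ∈ K := by
          by_cases hdm : n + d = m
          · subst hdm
            rw [hc_mul_of_low wt hlow h2]
            exact K1' _ _ K5
          · rw [hc_of_low wt (by omega) (hlow.mul wt h2)]
            exact zero_mem K
        have h8 : hc wt m v - hc wt m (u * a') ∈ K := by
          rw [hcsum m v hm, h6, ← Finset.sum_sub_distrib]
          refine sum_mem fun z hz => ?_
          rw [← mul_sub]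
          exact K1 _ _ (h4 z (Finset.mem_filter.1 hz).2)
        have := add_mem h8 h7
        simpa using this
  -- conclusion
  intro a b hab
  by_contra hcon
  push Not at hcon
  obtain ⟨a', d, h1, h2, h3⟩ := red a hcon.1
  obtain ⟨b', e, h4, h5, h6⟩ := red b hcon.2
  have h7 : a' * b' ∈ clIdeal u := by
    have : a' * b' = a * b - a * (b - b') - (a - a') * b' := by noncomm_ring
    rw [this]
    exact sub_mem (sub_mem hab (mul_mem_clIdeal_left _ h4)) (mul_mem_clIdeal_right _ h1)
  have h8 := main (d + e) _ h7 (h2.mul wt h5)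
  rw [hc_mul_of_low wt h2 h5] at h8
  rcases K4 _ _ _ _ h8 with h9 | h9
  · exact h3 h9
  · exact h6 h9

end Pool.Agent.Helper85.PF
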