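import Mathlib

/-! Project PF, piece G3A: the Poincaré-Birkhoff-Witt representation. -/

set_option autoImplicit false

namespace Pool.Agent.Helper85.PF

attribute [local instance 100] LieRing.ofAssociativeRing

open MvPolynomial

section PBWaux

variable {k L I : Type*} [Field k] [LieRing L] [LieAlgebra k L] [LinearOrder I]
  (b : Module.Basis I k L)

private noncomputable abbrev DgA (k I : Type*) [Field k] (m : ℕ) : Submodule k (MvPolynomial I k) :=
  restrictTotalDegree I k m

private lemma memD_iff {k I : Type*} [Field k] (m : ℕ) (f : MvPolynomial I k) :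
    f ∈ DgA k I m ↔ f.totalDegree ≤ m := mem_restrictTotalDegree I m f

private lemma mono_memD {k I : Type*} [Field k] {m : ℕ} {M : I →₀ ℕ} (h : M.degree ≤ m) :
    (monomial M (1 : k)) ∈ DgA k I m := by
  rw [memD_iff]
  refine (totalDegree_monomial_le M (1 : k)).trans ?_
  exact h

private lemma D_span {k I : Type*} [Field k] (m : ℕ) :
    DgA k I m = Submodule.span k ((fun M : I →₀ ℕ => monomial M (1 : k)) '' {M | M.degree ≤ m}) := by
  unfold DgA restrictTotalDegree
  rw [restrictSupport_eq_span]
  rfl

private lemma D_mono {k I : Type*} [Field k] {m n : ℕ} (h : m ≤ n) : DgA k I m ≤ DgA k I n := by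
  intro f hf
  rw [memD_iff] at hf ⊢
  exact hf.trans h

private lemma X_mul_memD {k I : Type*} [Field k] {m : ℕ} {f : MvPolynomial I k} (i : I)
    (hf : f ∈ DgA k I m) : X i * f ∈ DgA k I (m + 1) := by
  rw [memD_iff] at hf ⊢
  refine (totalDegree_mul _ _).trans ?_
  rw [totalDegree_X]
  omega

include b in
private lemma memW (A : L →ₗ[k] Module.End k (MvPolynomial I k))
    (W : Submodule k (MvPolynomial I k)) (n : ℕ)
    (h : ∀ i (M : I →₀ ℕ), M.degree ≤ n → A (b i) (monomial M 1) ∈ W) (x : L)
    (f : MvPolynomial I k) (hf : f ∈ DgA k I n) : A x f ∈ W := by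
  have h1 : ∀ i, ∀ g ∈ DgA k I n, A (b i) g ∈ W := by
    intro i g hg
    have : DgA k I n ≤ W.comap (A (b i)) := by
      rw [D_span, Submodule.span_le]
      rintro _ ⟨M, hM, rfl⟩
      exact h i M hM
    exact this hg
  have h2 : (⊤ : Submodule k L) ≤ W.comap (A.flip f) := by
    rw [← b.span_eq, Submodule.span_le]
    rintro _ ⟨i, rfl⟩
    exact h1 i f hf
  exact h2 (Submodule.mem_top : x ∈ ⊤)

include b in
private lemma extW (A B : L →ₗ[k] Module.End k (MvPolynomial I k)) (n : ℕ)
    (h : ∀ i (M : I →₀ ℕ), M.degree ≤ n → A (b i) (monomial M 1) = B (b i) (monomial M 1)) (x : L)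
    (f : MvPolynomial I k) (hf : f ∈ DgA k I n) : A x f = B x f := by
  have := memW b (A - B) ⊥ n (by
    intro i M hM
    rw [Submodule.mem_bot, LinearMap.sub_apply, LinearMap.sub_apply, h i M hM, sub_self]) x f hf
  rw [Submodule.mem_bot, LinearMap.sub_apply, LinearMap.sub_apply, sub_eq_zero] at this
  exact this

private noncomputable def hdA (M : I →₀ ℕ) (i : I) : I :=
  if h : M.support.Nonempty then M.support.min' h else i

private noncomputable def stpVal (T : L →ₗ[k] Module.End k (MvPolynomial I k)) (i : I)
    (M : I →₀ ℕ) : MvPolynomial I k :=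
  if ∀ l ∈ M.support, i ≤ l then X i * monomial M 1
  else X i * monomial M 1 +
    T (b (hdA M i)) (T (b i) (monomial (M - Finsupp.single (hdA M i) 1) 1)
      - X i * monomial (M - Finsupp.single (hdA M i) 1) 1) +
    T ⁅b i, b (hdA M i)⁆ (monomial (M - Finsupp.single (hdA M i) 1) 1)

private noncomputable def mkA (v : I → (I →₀ ℕ) → MvPolynomial I k) :
    L →ₗ[k] Module.End k (MvPolynomial I k) :=
  b.constr k (fun i => (basisMonomials I k).constr k (fun M => v i M))

private lemma mkA_apply (v : I → (I →₀ ℕ) → MvPolynomial I k) (i : I) (M : I →₀ ℕ) :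
    mkA b v (b i) (monomial M 1) = v i M := by
  unfold mkA
  rw [Module.Basis.constr_basis]
  have : (monomial M (1 : k)) = basisMonomials I k M := rfl
  rw [this, Module.Basis.constr_basis]

private noncomputable def actA : ℕ → L →ₗ[k] Module.End k (MvPolynomial I k)
  | 0 => mkA b (fun i M => X i * monomial M 1)
  | n + 1 => mkA b (stpVal b (actA n))

private lemma hdA_spec (M : I →₀ ℕ) (i : I) (h : ¬ ∀ l ∈ M.support, i ≤ l) :
    hdA M i ∈ M.support ∧ (∀ l ∈ M.support, hdA M i ≤ l) ∧ hdA M i < i := by
  push Not at h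
  obtain ⟨l, hl, hli⟩ := h
  have hne : M.support.Nonempty := ⟨l, hl⟩
  unfold hdA
  rw [dif_pos hne]
  exact ⟨Finset.min'_mem _ _, fun l hl => Finset.min'_le _ _ hl,
    lt_of_le_of_lt (Finset.min'_le _ _ hl) hli⟩

private lemma deg_pred (M : I →₀ ℕ) (j : I) (h : j ∈ M.support) :
    (M - Finsupp.single j 1).degree + 1 = M.degree := by
  have h1 : M - Finsupp.single j 1 + Finsupp.single j 1 = M := by
    ext l
    by_cases hl : l = j
    · subst hl
      have : M l ≠ 0 := Finsupp.mem_support_iff.mp h
      simp
      omega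
    · simp [Finsupp.single_eq_of_ne hl]
  conv_rhs => rw [← h1]
  rw [map_add, Finsupp.degree_single]

/-- `T` is good in degrees at most `n`. -/
private def GoodA (n : ℕ) (T : L →ₗ[k] Module.End k (MvPolynomial I k)) : Prop :=
  ∀ m ≤ n, ∀ i, ∀ f ∈ DgA k I m, T (b i) f - X i * f ∈ DgA k I m

private lemma good_mem {n : ℕ} {T : L →ₗ[k] Module.End k (MvPolynomial I k)} (hT : GoodA b n T)
    {m : ℕ} (hm : m ≤ n) (x : L) (f : MvPolynomial I k) (hf : f ∈ DgA k I m) :
    T x f ∈ DgA k I (m + 1) := by
  refine memW b T _ m (fun i M hM => ?_) x f hf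
  have h1 := hT m hm i _ (mono_memD (k := k) hM)
  have h2 := X_mul_memD i (mono_memD (k := k) hM)
  have h3 := Submodule.add_mem _ (D_mono (Nat.le_succ m) h1) h2
  simpa using h3

private lemma good_actA (n : ℕ) : GoodA b n (actA b n) := by
  induction n with
  | zero =>
    intro m hm i f hf
    have hm0 : m = 0 := by omega
    subst hm0
    have h : ∀ i (M : I →₀ ℕ), M.degree ≤ 0 → actA b 0 (b i) (monomial M 1) =
        (b.constr k (fun i => LinearMap.mulLeft k (X i : MvPolynomial I k))
          : L →ₗ[k] Module.End k (MvPolynomial I k)) (b i) (monomial M 1) := by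
      intro i M _
      rw [Module.Basis.constr_basis]
      unfold actA
      rw [mkA_apply]
      rfl
    have := extW b _ _ 0 h (b i) f hf
    rw [this, Module.Basis.constr_basis]
    simp
  | succ n ih =>
    intro m hm i f hf
    have h1 : DgA k I m ≤ (DgA k I m).comap (actA b (n + 1) (b i) - LinearMap.mulLeft k (X i)) := by
      conv_lhs => rw [D_span]
      rw [Submodule.span_le]
      rintro _ ⟨M, hM, rfl⟩
      simp only [Set.mem_ofPred_eq] at hM
      change actA b (n + 1) (b i) (monomial M 1) - X i * monomial M 1 ∈ DgA k I m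
      rw [actA, mkA_apply]
      unfold stpVal
      by_cases hc : ∀ l ∈ M.support, i ≤ l
      · rw [if_pos hc, sub_self]
        exact Submodule.zero_mem _
      · rw [if_neg hc]
        obtain ⟨h2, h3, h4⟩ := hdA_spec M i hc
        have h5 := deg_pred M _ h2
        set j := hdA M i with hj
        set N := M - Finsupp.single j 1 with hN
        have h6 : N.degree ≤ n := by omega
        have h7 := ih N.degree h6 i _ (mono_memD (k := k) le_rfl)
        have h8 := good_mem b ih h6 (b j) _ h7
        have h9 := good_mem b ih h6 ⁅b i, b j⁆ _ (mono_memD (k := k) le_rfl)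
        have h10 := Submodule.add_mem _ h8 h9
        rw [h5] at h10
        have h11 := D_mono hM h10
        rw [add_assoc, add_sub_cancel_left]
        exact h11
    exact h1 hf

private lemma agree_succ (n : ℕ) : ∀ (x : L) (f : MvPolynomial I k), f ∈ DgA k I n →
    actA b (n + 1) x f = actA b n x f := by
  induction n with
  | zero =>
    intro x f hf
    refine extW b _ _ 0 (fun i M hM => ?_) x f hf
    rw [actA, mkA_apply, actA, mkA_apply]
    unfold stpVal
    have hM0 : M = 0 := by
      rw [← Finsupp.degree_eq_zero_iff]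
      omega
    subst hM0
    rw [if_pos (by simp)]
  | succ n ih =>
    intro x f hf
    refine extW b _ _ (n + 1) (fun i M hM => ?_) x f hf
    rw [actA, mkA_apply]
    conv_rhs => rw [actA, mkA_apply]
    unfold stpVal
    by_cases hc : ∀ l ∈ M.support, i ≤ l
    · rw [if_pos hc, if_pos hc]
    · rw [if_neg hc, if_neg hc]
      obtain ⟨h2, h3, h4⟩ := hdA_spec M i hc
      have h5 := deg_pred M _ h2
      set j := hdA M i with hj
      set N := M - Finsupp.single j 1 with hN
      have h6 : N.degree ≤ n := by omega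
      have hNn : (monomial N (1 : k)) ∈ DgA k I n := mono_memD h6
      rw [ih _ _ hNn, ih _ _ hNn]
      have h7 := good_actA b n n le_rfl i _ hNn
      rw [ih _ _ h7]

private lemma agree_le {n m : ℕ} (h : n ≤ m) (x : L) (f : MvPolynomial I k)
    (hf : f ∈ DgA k I n) : actA b m x f = actA b n x f := by
  induction m, h using Nat.le_induction with
  | base => rfl
  | succ m hm ih => rw [agree_succ b m x f (D_mono hm hf), ih]

private noncomputable def phiA : L →ₗ[k] Module.End k (MvPolynomial I k) :=
  mkA b (fun i M => actA b M.degree (b i) (monomial M 1))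

private lemma phiA_eq (n : ℕ) (x : L) (f : MvPolynomial I k) (hf : f ∈ DgA k I n) :
    phiA b x f = actA b n x f := by
  refine extW b _ _ n (fun i M hM => ?_) x f hf
  unfold phiA
  rw [mkA_apply]
  exact (agree_le b hM _ _ (mono_memD le_rfl)).symm

private lemma phiA_F3 (n : ℕ) (i : I) (f : MvPolynomial I k) (hf : f ∈ DgA k I n) :
    phiA b (b i) f - X i * f ∈ DgA k I n := by
  rw [phiA_eq b n _ _ hf]
  exact good_actA b n n le_rfl i f hf

private lemma phiA_F1 (i : I) (M : I →₀ ℕ) (h : ∀ l ∈ M.support, i ≤ l) :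
    phiA b (b i) (monomial M 1) = monomial (M + Finsupp.single i 1) 1 := by
  have h1 : phiA b (b i) (monomial M 1) = X i * monomial M 1 := by
    rw [phiA_eq b (M.degree + 1) _ _ (mono_memD (Nat.le_succ _)), actA, mkA_apply]
    unfold stpVal
    rw [if_pos h]
  rw [h1, X, monomial_mul, one_mul, add_comm]

private lemma phiA_F2 (i j : I) (N : I →₀ ℕ) (hj : ∀ l ∈ N.support, j ≤ l) (hji : j < i) :
    phiA b (b i) (monomial (N + Finsupp.single j 1) 1) =
      X i * monomial (N + Finsupp.single j 1) 1 +
      phiA b (b j) (phiA b (b i) (monomial N 1) - X i * monomial N 1) +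
      phiA b ⁅b i, b j⁆ (monomial N 1) := by
  have hdeg : (N + Finsupp.single j 1).degree = N.degree + 1 := by
    rw [map_add, Finsupp.degree_single]
  have hjs : j ∈ (N + Finsupp.single j 1).support := by
    simp
  have hc : ¬ ∀ l ∈ (N + Finsupp.single j 1).support, i ≤ l := by
    intro h
    exact absurd (h j hjs) (not_le.mpr hji)
  have hhd : hdA (N + Finsupp.single j 1) i = j := by
    obtain ⟨h2, h3, h4⟩ := hdA_spec _ i hc
    refine le_antisymm (h3 j hjs) ?_
    rcases Finset.mem_union.mp (Finsupp.support_add h2) with h | h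
    · exact hj _ h
    · have := Finsupp.support_single_subset h
      rw [Finset.mem_singleton] at this
      exact this.symm.le
  rw [phiA_eq b (N.degree + 1) _ _ (mono_memD hdeg.le), actA, mkA_apply]
  unfold stpVal
  rw [if_neg hc, hhd, add_tsub_cancel_right]
  have hN : (monomial N (1 : k)) ∈ DgA k I N.degree := mono_memD le_rfl
  rw [← phiA_eq b N.degree _ _ hN, ← phiA_eq b N.degree _ _ hN,
    ← phiA_eq b N.degree _ _ (phiA_F3 b _ i _ hN)]

private lemma easyA (i j : I) (N : I →₀ ℕ) (hj : ∀ l ∈ N.support, j ≤ l) (hji : j < i) :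
    phiA b (b i) (phiA b (b j) (monomial N 1)) - phiA b (b j) (phiA b (b i) (monomial N 1)) =
      phiA b ⁅b i, b j⁆ (monomial N 1) := by
  rw [phiA_F1 b j N hj, phiA_F2 b i j N hj hji, map_sub]
  have h1 : phiA b (b j) (X i * monomial N 1) = X i * monomial (N + Finsupp.single j 1) 1 := by
    have h2 : (X i * monomial N (1 : k)) = monomial (N + Finsupp.single i 1) 1 := by
      rw [X, monomial_mul, one_mul, add_comm]
    rw [h2, phiA_F1 b j]
    · rw [X, monomial_mul, one_mul]
      congr 1
      abel_nf
    · intro l hl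
      rcases Finset.mem_union.mp (Finsupp.support_add hl) with h | h
      · exact hj _ h
      · have := Finsupp.support_single_subset h
        rw [Finset.mem_singleton] at this
        rw [this]
        exact hji.le
  rw [h1]
  abel

private noncomputable def RA (y : L) : L →ₗ[k] Module.End k (MvPolynomial I k) where
  toFun x := phiA b x * phiA b y - phiA b y * phiA b x - phiA b ⁅x, y⁆
  map_add' x x' := by
    rw [map_add, add_mul, mul_add, add_lie, map_add]
    abel
  map_smul' c x := by
    rw [map_smul, smul_lie, map_smul, RingHom.id_apply, smul_sub, smul_sub, smul_mul_assoc,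
      mul_smul_comm]

private lemma RA_apply (x y : L) (f : MvPolynomial I k) : RA b y x f =
    phiA b x (phiA b y f) - phiA b y (phiA b x f) - phiA b ⁅x, y⁆ f := rfl

private lemma RA_swap (x y : L) (f : MvPolynomial I k) : RA b y x f = - RA b x y f := by
  rw [RA_apply, RA_apply, ← lie_skew x y, map_neg, LinearMap.neg_apply]
  abel

private lemma RA_ext (n : ℕ)
    (h : ∀ i j (M : I →₀ ℕ), M.degree ≤ n → RA b (b j) (b i) (monomial M 1) = 0)
    (x y : L) (f : MvPolynomial I k) (hf : f ∈ DgA k I n) : RA b y x f = 0 := by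
  have h1 : ∀ j, ∀ x, ∀ f ∈ DgA k I n, RA b (b j) x f = 0 := by
    intro j x f hf
    have := memW b (RA b (b j)) ⊥ n (fun i M hM => by
      rw [Submodule.mem_bot]
      exact h i j M hM) x f hf
    simpa using this
  rw [RA_swap]
  have := memW b (RA b x) ⊥ n (fun i M hM => by
      rw [Submodule.mem_bot, RA_swap, h1 i x _ (mono_memD hM), neg_zero]) y f hf
  rw [Submodule.mem_bot] at this
  rw [this, neg_zero]

private lemma hardA (n : ℕ)
    (ih : ∀ (x y : L) (f : MvPolynomial I k), f ∈ DgA k I n → RA b y x f = 0)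
    (i j l : I) (Q : I →₀ ℕ) (hQ : Q.degree ≤ n) (hl : ∀ s ∈ Q.support, l ≤ s)
    (hli : l < i) (hlj : l < j) :
    RA b (b j) (b i) (monomial (Q + Finsupp.single l 1) 1) = 0 := by
  have hq : (monomial Q (1 : k)) ∈ DgA k I n := mono_memD hQ
  have ih' : ∀ (x y : L) (f : MvPolynomial I k), f ∈ DgA k I n →
      phiA b x (phiA b y f) = phiA b y (phiA b x f) + phiA b ⁅x, y⁆ f := by
    intro x y f hf
    have := ih x y f hf
    rw [RA_apply, sub_sub, sub_eq_zero] at this
    exact this
  -- key identity
  have key : ∀ i j : I, l < i → l < j →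
      phiA b (b i) (phiA b (b j) (phiA b (b l) (monomial Q 1))) =
        phiA b (b l) (phiA b (b i) (phiA b (b j) (monomial Q 1))) +
        phiA b ⁅b i, b l⁆ (phiA b (b j) (monomial Q 1)) +
        (phiA b ⁅b j, b l⁆ (phiA b (b i) (monomial Q 1)) +
        phiA b ⁅b i, ⁅b j, b l⁆⁆ (monomial Q 1)) := by
    intro i j hli hlj
    rw [ih' (b j) (b l) _ hq, map_add, ih' (b i) ⁅b j, b l⁆ _ hq]
    congr 1
    set w := phiA b (b j) (monomial Q 1) - X j * monomial Q 1 with hw
    have hwD : w ∈ DgA k I n := phiA_F3 b n j _ hq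
    have h1 : phiA b (b j) (monomial Q 1) = monomial (Q + Finsupp.single j 1) 1 + w := by
      have : (monomial (Q + Finsupp.single j 1) (1 : k)) = X j * monomial Q 1 := by
        rw [X, monomial_mul, one_mul, add_comm]
      rw [hw, this]
      abel
    rw [h1, map_add, map_add, map_add, map_add, map_add, ih' (b i) (b l) _ hwD]
    have h2 := easyA b i l (Q + Finsupp.single j 1) (by
      intro s hs
      rcases Finset.mem_union.mp (Finsupp.support_add hs) with h | h
      · exact hl _ h
      · have := Finsupp.support_single_subset h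
        rw [Finset.mem_singleton] at this
        rw [this]
        exact hlj.le) hli
    rw [sub_eq_iff_eq_add] at h2
    rw [h2]
    abel
  rw [← phiA_F1 b l Q hl, RA_apply, key i j hli hlj, key j i hlj hli,
    ih' ⁅b i, b j⁆ (b l) _ hq]
  have h3 : phiA b (b l) (phiA b (b i) (phiA b (b j) (monomial Q 1))) -
      phiA b (b l) (phiA b (b j) (phiA b (b i) (monomial Q 1))) =
      phiA b (b l) (phiA b ⁅b i, b j⁆ (monomial Q 1)) := by
    rw [← map_sub, ih' (b i) (b j) _ hq, add_sub_cancel_left]
  have h4 : phiA b ⁅b i, ⁅b j, b l⁆⁆ (monomial Q 1) - phiA b ⁅b j, ⁅b i, b l⁆⁆ (monomial Q 1) =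
      phiA b ⁅⁅b i, b j⁆, b l⁆ (monomial Q 1) := by
    rw [← LinearMap.sub_apply, ← map_sub, lie_lie]
  rw [← h3, ← h4]
  abel

private lemma RA_zero (n : ℕ) : ∀ (x y : L) (f : MvPolynomial I k), f ∈ DgA k I n →
    RA b y x f = 0 := by
  have main : ∀ n : ℕ, (∀ m, m + 1 = n → ∀ (x y : L) (f : MvPolynomial I k), f ∈ DgA k I m →
      RA b y x f = 0) → ∀ (x y : L) (f : MvPolynomial I k), f ∈ DgA k I n → RA b y x f = 0 := by
    intro n ih
    apply RA_ext
    -- the case `j < i`
    have hlt : ∀ i j (M : I →₀ ℕ), M.degree ≤ n → j < i → RA b (b j) (b i) (monomial M 1) = 0 := by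
      intro i j M hM hji
      by_cases hc : ∀ l ∈ M.support, j ≤ l
      · rw [RA_apply, easyA b i j M hc hji, sub_self]
      · obtain ⟨h2, h3, h4⟩ := hdA_spec M j hc
        set l := hdA M j with hl
        have h5 := deg_pred M l h2
        obtain ⟨m, hm⟩ : ∃ m, m + 1 = n := ⟨n - 1, by omega⟩
        have h6 : M - Finsupp.single l 1 + Finsupp.single l 1 = M := by
          ext s
          by_cases hs : s = l
          · have : M s ≠ 0 := by
              rw [hs]
              exact Finsupp.mem_support_iff.mp h2
            simp [hs]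
            rw [hs] at this
            omega
          · simp [Finsupp.single_eq_of_ne hs]
        have h7 := hardA b m (ih m hm) i j l (M - Finsupp.single l 1) (by omega) (by
          intro s hs
          apply h3
          rw [Finsupp.mem_support_iff] at hs ⊢
          intro h0
          apply hs
          simp [h0]) (h4.trans hji) h4
        rw [h6] at h7
        exact h7
    intro i j M hM
    rcases lt_trichotomy i j with h | h | h
    · rw [RA_swap, hlt j i M hM h, neg_zero]
    · subst h
      rw [RA_apply, lie_self, map_zero, LinearMap.zero_apply, sub_self, sub_zero]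
    · exact hlt i j M hM h
  induction n with
  | zero => exact main 0 (fun m hm => by omega)
  | succ n ih =>
    refine main (n + 1) (fun m hm => ?_)
    have : m = n := by omega
    subst this
    exact ih

end PBWaux

/-- A Lie algebra `L` with an ordered basis `b` acts on the polynomial ring in the variables `X i`, the basis vector `b i` acting as
multiplication with `X i` up to terms of lower degree.
PROOF (Humphreys, 17.4). Monomials `X_M`, `M : I →₀ ℕ` (or multisets); `i ≤ M` means `i ≤ j` for all `j` in `M`. Write `c i j = ⁅b i, b j⁆ ∈ L`.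
Define `lam M i : MvPolynomial I k` by strong recursion on the degree of `M`, the correction term of the action `b i · X_M = X_i X_M + lam M i`:
`lam M i = 0` if `i ≤ M`; otherwise let `j = min M < i`, `N = M - j`, `lam M i = b j · (lam N i) + (c i j) · X_N` where the actions are on polynomials of
degree `≤ deg N` (put in the recursion: sum over the monomials `K` of `lam N i` with a `dite` on `deg K < deg M`), `b j · X_K = X_j X_K + lam K j`, and `⁅b i, b j⁆` acts through its
coordinates `b.repr`. Then `deg (lam M i) ≤ deg M` (strong induction). Extend linearly to `φ : L →ₗ End`.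
(C) `b i · b j · X_N - b j · b i · X_N = ⁅b i, b j⁆ · X_N` for all `i, j, N` by induction on `deg N`: if `j < i` and `j ≤ N` it is the definition
(`M = N + j`, `b j · X_N = X_M`, `b j · (X_i X_N) = X_j X_i X_N`); `i < j`, `i ≤ N` is symmetric, `i = j` trivial. Otherwise `N = k + P`, `k = min N < i, j`,
`X_N = b k · X_P`; by induction `b j · X_N = b k · b j · X_P + ⁅b j, b k⁆ · X_P`, `b j · X_P = X_j X_P + w`, `deg w ≤ deg P`; the easy case for `(i, k, j + P)` and the induction
hypothesis for `w` give `b i · b k · (b j · X_P) = b k · b i · b j · X_P + ⁅b i, b k⁆ · b j · X_P`; so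
`b i b j X_N = b k b i b j X_P + ⁅b i, b k⁆ b j X_P + ⁅b j, b k⁆ b i X_P + ⁅b i, ⁅b j, b k⁆⁆ X_P`; subtract the same with `i, j` exchanged and use the
induction hypothesis for `P` and the Jacobi identity. -/
theorem exists_pbw_rep {k L I : Type*} [Field k] [LieRing L] [LieAlgebra k L] [LinearOrder I]
    (b : Module.Basis I k L) :
    ∃ φ : L →ₗ⁅k⁆ Module.End k (MvPolynomial I k), ∀ (i : I) (m : ℕ) (f : MvPolynomial I k),
      f.totalDegree ≤ m → (φ (b i) f - X i * f).totalDegree ≤ m := by
  refine ⟨{ toLinearMap := phiA b, map_lie' := ?_ }, ?_⟩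
  · intro x y
    apply LinearMap.ext
    intro f
    have h := RA_zero b f.totalDegree x y f ((memD_iff _ _).mpr le_rfl)
    rw [RA_apply, sub_eq_zero] at h
    change phiA b ⁅x, y⁆ f = _
    rw [← h]
    rfl
  · intro i m f hf
    exact (memD_iff _ _).mp (phiA_F3 b m i f ((memD_iff _ _).mpr hf))

end Pool.Agent.Helper85.PF
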