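import Pool.Agent.Helper85.PF.St.G3A

/-! Project PF, piece G3B: enveloping algebras are domains. -/

set_option autoImplicit false

namespace Pool.Agent.Helper85.PF

attribute [local instance 100] LieRing.ofAssociativeRing

open MvPolynomial

section aux

universe u v w

variable {k : Type u} {L : Type v} {I : Type w} [Field k] [LieRing L] [LieAlgebra k L]

/-- zero or of degree `< d` -/
private def Td (d : ℕ) (g : MvPolynomial I k) : Prop := g = 0 ∨ g.totalDegree < d

private theorem Td.zero (d : ℕ) : Td d (0 : MvPolynomial I k) := Or.inl rfl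

private theorem Td.of_le {m : ℕ} {g : MvPolynomial I k} (h : g.totalDegree ≤ m) : Td (m + 1) g :=
  Or.inr (Nat.lt_succ_of_le h)

private theorem Td.mono {d d' : ℕ} (h : d ≤ d') {g : MvPolynomial I k} (hg : Td d g) :
    Td d' g := by
  rcases hg with hg | hg
  · exact Or.inl hg
  · exact Or.inr (lt_of_lt_of_le hg h)

private theorem Td.add {d : ℕ} {g g' : MvPolynomial I k} (hg : Td d g) (hg' : Td d g') :
    Td d (g + g') := by
  rcases hg with hg | hg
  · rw [hg, zero_add]; exact hg'
  · rcases hg' with hg' | hg'
    · rw [hg', add_zero]; exact Or.inr hg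
    · exact Or.inr (lt_of_le_of_lt (totalDegree_add g g') (max_lt hg hg'))

private theorem Td.smul {d : ℕ} {g : MvPolynomial I k} (c : k) (hg : Td d g) :
    Td d (c • g) := by
  rcases hg with hg | hg
  · rw [hg, smul_zero]; exact Td.zero d
  · exact Or.inr (lt_of_le_of_lt (totalDegree_smul_le c g) hg)

private theorem Td.sum {ι : Type*} {d : ℕ} (t : Finset ι) (g : ι → MvPolynomial I k)
    (h : ∀ i ∈ t, Td d (g i)) : Td d (∑ i ∈ t, g i) := by
  classical
  induction t using Finset.induction_on with
  | empty => rw [Finset.sum_empty]; exact Td.zero d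
  | insert a t ha ih =>
    rw [Finset.sum_insert ha]
    exact (h a (Finset.mem_insert_self a t)).add
      (ih fun i hi => h i (Finset.mem_insert_of_mem hi))

private theorem Td.mul {d n : ℕ} {g p : MvPolynomial I k} (hp : p.totalDegree ≤ n)
    (hg : Td d g) : Td (n + d) (p * g) := by
  rcases hg with hg | hg
  · rw [hg, mul_zero]; exact Td.zero _
  · exact Or.inr (lt_of_le_of_lt (totalDegree_mul p g) (by omega))

/-- product of the basis vectors in the list -/
private noncomputable def ee (b : Module.Basis I k L) (l : List I) :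
    UniversalEnvelopingAlgebra k L :=
  (l.map fun i => UniversalEnvelopingAlgebra.ι k (b i)).prod

/-- product of the variables in the list -/
private noncomputable def PP (k : Type u) {I : Type w} [Field k] (l : List I) :
    MvPolynomial I k :=
  (l.map fun i => (X i : MvPolynomial I k)).prod

/-- span of the products of less than `n` basis vectors -/
private noncomputable def VV (b : Module.Basis I k L) (n : ℕ) :
    Submodule k (UniversalEnvelopingAlgebra k L) :=
  Submodule.span k {x | ∃ l : List I, l.length < n ∧ ee b l = x}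

private theorem ee_nil (b : Module.Basis I k L) : ee b [] = 1 := by
  simp [ee]

private theorem ee_cons (b : Module.Basis I k L) (i : I) (l : List I) :
    ee b (i :: l) = UniversalEnvelopingAlgebra.ι k (b i) * ee b l := by
  simp [ee]

private theorem ee_append (b : Module.Basis I k L) (l l' : List I) :
    ee b (l ++ l') = ee b l * ee b l' := by
  simp [ee]

private theorem PP_cons (i : I) (l : List I) : PP k (i :: l) = X i * PP k l := by
  simp [PP]

private theorem PP_deg (l : List I) : (PP k l).totalDegree ≤ l.length := by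
  induction l with
  | nil => simp [PP]
  | cons i l ih =>
    rw [PP_cons, List.length_cons]
    refine (totalDegree_mul _ _).trans ?_
    rw [totalDegree_X]
    omega

private theorem ee_mem (b : Module.Basis I k L) {l : List I} {n : ℕ} (h : l.length < n) :
    ee b l ∈ VV b n :=
  Submodule.subset_span ⟨l, h, rfl⟩

private theorem VV_mono (b : Module.Basis I k L) {m n : ℕ} (h : m ≤ n) : VV b m ≤ VV b n := by
  refine Submodule.span_mono ?_
  rintro x ⟨l, hl, rfl⟩
  exact ⟨l, lt_of_lt_of_le hl h, rfl⟩

private theorem iota_mul_mem (b : Module.Basis I k L) (c : L) {n : ℕ}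
    {x : UniversalEnvelopingAlgebra k L} (hx : x ∈ VV b n) :
    UniversalEnvelopingAlgebra.ι k c * x ∈ VV b (n + 1) := by
  have key : ∀ i : I, ∀ x ∈ VV b n, UniversalEnvelopingAlgebra.ι k (b i) * x ∈ VV b (n + 1) := by
    intro i x hx
    unfold VV at hx
    induction hx using Submodule.span_induction with
    | mem x hx =>
      obtain ⟨l, hl, rfl⟩ := hx
      rw [← ee_cons]
      exact ee_mem b (by rw [List.length_cons]; omega)
    | zero => rw [mul_zero]; exact Submodule.zero_mem _
    | add x y _ _ hx hy => rw [mul_add]; exact Submodule.add_mem _ hx hy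
    | smul c x _ hx => rw [mul_smul_comm]; exact Submodule.smul_mem _ _ hx
  have hc : c ∈ Submodule.span k (Set.range b) := by rw [b.span_eq]; trivial
  induction hc using Submodule.span_induction with
  | mem c hc =>
    obtain ⟨i, rfl⟩ := hc
    exact key i x hx
  | zero => rw [map_zero, zero_mul]; exact Submodule.zero_mem _
  | add c d _ _ hc hd => rw [map_add, add_mul]; exact Submodule.add_mem _ hc hd
  | smul r c _ hc => rw [map_smul, smul_mul_assoc]; exact Submodule.smul_mem _ _ hc

private theorem ee_perm (b : Module.Basis I k L) {l l' : List I} (h : l.Perm l') :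
    ee b l - ee b l' ∈ VV b l.length := by
  induction h with
  | nil => rw [sub_self]; exact Submodule.zero_mem _
  | cons i h ih =>
    rw [ee_cons, ee_cons, ← mul_sub, List.length_cons]
    exact iota_mul_mem b _ ih
  | swap i j l =>
    rw [ee_cons, ee_cons, ee_cons, ee_cons, List.length_cons, List.length_cons]
    have h1 : UniversalEnvelopingAlgebra.ι k (b j) *
        (UniversalEnvelopingAlgebra.ι k (b i) * ee b l) -
        UniversalEnvelopingAlgebra.ι k (b i) * (UniversalEnvelopingAlgebra.ι k (b j) * ee b l) =
        UniversalEnvelopingAlgebra.ι k ⁅b j, b i⁆ * ee b l := by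
      rw [LieHom.map_lie, LieRing.of_associative_ring_bracket]
      noncomm_ring
    rw [h1]
    exact iota_mul_mem b _ (ee_mem b (by omega))
  | trans h1 h2 ih1 ih2 =>
    rw [← h1.length_eq] at ih2
    have := Submodule.add_mem _ ih1 ih2
    rwa [sub_add_sub_cancel] at this

private theorem VV_mul (b : Module.Basis I k L) {m n : ℕ} {x y : UniversalEnvelopingAlgebra k L}
    (hx : x ∈ VV b m) (hy : y ∈ VV b n) : x * y ∈ VV b (m + n) := by
  unfold VV at hx
  induction hx using Submodule.span_induction with
  | mem x hx =>
    obtain ⟨l, hl, rfl⟩ := hx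
    unfold VV at hy
    induction hy using Submodule.span_induction with
    | mem y hy =>
      obtain ⟨l', hl', rfl⟩ := hy
      rw [← ee_append]
      exact ee_mem b (by rw [List.length_append]; omega)
    | zero => rw [mul_zero]; exact Submodule.zero_mem _
    | add x y _ _ hx hy => rw [mul_add]; exact Submodule.add_mem _ hx hy
    | smul c x _ hx => rw [mul_smul_comm]; exact Submodule.smul_mem _ _ hx
  | zero => rw [zero_mul]; exact Submodule.zero_mem _
  | add x y _ _ hx hy => rw [add_mul]; exact Submodule.add_mem _ hx hy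
  | smul c x _ hx => rw [smul_mul_assoc]; exact Submodule.smul_mem _ _ hx

private theorem adjoin_top :
    Algebra.adjoin k (Set.range (UniversalEnvelopingAlgebra.ι k (L := L))) = ⊤ := by
  set S := Algebra.adjoin k (Set.range (UniversalEnvelopingAlgebra.ι k (L := L))) with hS
  let f : L →ₗ⁅k⁆ S :=
    { toFun := fun x => ⟨UniversalEnvelopingAlgebra.ι k x,
        Algebra.subset_adjoin ⟨x, rfl⟩⟩
      map_add' := fun x y => by ext; simp
      map_smul' := fun c x => by ext; simp
      map_lie' := by
        intro x y
        ext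
        simp [LieRing.of_associative_ring_bracket] }
  have h1 : S.val.comp (UniversalEnvelopingAlgebra.lift k f) =
      AlgHom.id k (UniversalEnvelopingAlgebra k L) := by
    apply UniversalEnvelopingAlgebra.hom_ext
    ext x
    simp [f]
  rw [eq_top_iff]
  intro x _
  have h2 : x = S.val (UniversalEnvelopingAlgebra.lift k f x) := by
    have := congrArg (fun g => g x) h1
    simpa using this.symm
  rw [h2]
  exact (UniversalEnvelopingAlgebra.lift k f x).2

private theorem exists_VV (b : Module.Basis I k L) (x : UniversalEnvelopingAlgebra k L) :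
    ∃ n, x ∈ VV b n := by
  have hx : x ∈ Algebra.adjoin k (Set.range (UniversalEnvelopingAlgebra.ι k (L := L))) := by
    rw [adjoin_top]; trivial
  induction hx using Algebra.adjoin_induction with
  | mem x hx =>
    obtain ⟨c, rfl⟩ := hx
    refine ⟨2, ?_⟩
    have := iota_mul_mem b c (ee_mem b (l := []) (n := 1) (by simp))
    rwa [ee_nil, mul_one] at this
  | algebraMap r =>
    refine ⟨1, ?_⟩
    rw [Algebra.algebraMap_eq_smul_one]
    exact Submodule.smul_mem _ _ (by rw [← ee_nil b]; exact ee_mem b (by simp))
  | add x y _ _ hx hy =>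
    obtain ⟨m, hm⟩ := hx
    obtain ⟨n, hn⟩ := hy
    exact ⟨max m n, Submodule.add_mem _ (VV_mono b (le_max_left _ _) hm)
      (VV_mono b (le_max_right _ _) hn)⟩
  | mul x y _ _ hx hy =>
    obtain ⟨m, hm⟩ := hx
    obtain ⟨n, hn⟩ := hy
    exact ⟨m + n, VV_mul b hm hn⟩

private theorem PP_toList (s : I →₀ ℕ) :
    PP k (Finsupp.toMultiset s).toList = monomial s 1 := by
  have h1 : PP k (Finsupp.toMultiset s).toList =
      ((Finsupp.toMultiset s).map fun i => (X i : MvPolynomial I k)).prod := by
    unfold PP
    conv_rhs => rw [← Multiset.coe_toList (Finsupp.toMultiset s)]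
    rw [Multiset.map_coe, Multiset.prod_coe]
  rw [h1]
  induction s using Finsupp.induction_linear with
  | zero => simp
  | add f g hf hg =>
    have hf' := hf (by
      unfold PP
      conv_rhs => rw [← Multiset.coe_toList (Finsupp.toMultiset f)]
      rw [Multiset.map_coe, Multiset.prod_coe])
    have hg' := hg (by
      unfold PP
      conv_rhs => rw [← Multiset.coe_toList (Finsupp.toMultiset g)]
      rw [Multiset.map_coe, Multiset.prod_coe])
    rw [map_add, Multiset.map_add, Multiset.prod_add, hf', hg', monomial_mul, mul_one]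
  | single i n =>
    rw [Finsupp.toMultiset_single, Multiset.map_nsmul, Multiset.prod_nsmul,
      Multiset.map_singleton, Multiset.prod_singleton, X_pow_eq_monomial]

/-- the symmetrisation-like map -/
private noncomputable def EE' (b : Module.Basis I k L) :
    MvPolynomial I k →ₗ[k] UniversalEnvelopingAlgebra k L :=
  (basisMonomials I k).constr k fun s => ee b (Finsupp.toMultiset s).toList

private theorem EE'_monomial (b : Module.Basis I k L) (s : I →₀ ℕ) :
    EE' b (monomial s 1) = ee b (Finsupp.toMultiset s).toList := by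
  have := (basisMonomials I k).constr_basis k
    (fun s => ee b (Finsupp.toMultiset s).toList) s
  rw [coe_basisMonomials] at this
  exact this

private theorem VV_succ (b : Module.Basis I k L) (n : ℕ) {x : UniversalEnvelopingAlgebra k L}
    (hx : x ∈ VV b (n + 1)) :
    ∃ σ : MvPolynomial I k, σ.IsHomogeneous n ∧ x - EE' b σ ∈ VV b n := by
  classical
  unfold VV at hx
  induction hx using Submodule.span_induction with
  | mem x hx =>
    obtain ⟨l, hl, rfl⟩ := hx
    rcases Nat.lt_succ_iff_lt_or_eq.1 hl with h | h
    · refine ⟨0, isHomogeneous_zero _ _ _, ?_⟩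
      rw [map_zero, sub_zero]
      exact ee_mem b h
    · have hs : Finsupp.toMultiset (Multiset.toFinsupp (l : Multiset I)) = (l : Multiset I) :=
        Multiset.toFinsupp_toMultiset _
      refine ⟨monomial (Multiset.toFinsupp (l : Multiset I)) 1, ?_, ?_⟩
      · refine isHomogeneous_monomial _ ?_
        rw [← h]
        have := Finsupp.card_toMultiset (Multiset.toFinsupp (l : Multiset I))
        rw [hs, Multiset.coe_card] at this
        rw [this]
        rfl
      · rw [EE'_monomial, hs, ← h]
        apply ee_perm b
        rw [← Multiset.coe_eq_coe, Multiset.coe_toList]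
  | zero =>
    refine ⟨0, isHomogeneous_zero _ _ _, ?_⟩
    rw [map_zero, sub_zero]
    exact Submodule.zero_mem _
  | add x y _ _ hx hy =>
    obtain ⟨σ, h1, h2⟩ := hx
    obtain ⟨τ, h3, h4⟩ := hy
    refine ⟨σ + τ, h1.add h3, ?_⟩
    have := Submodule.add_mem _ h2 h4
    rw [map_add]
    rwa [sub_add_sub_comm] at this
  | smul c x _ hx =>
    obtain ⟨σ, h1, h2⟩ := hx
    refine ⟨c • σ, ?_, ?_⟩
    · rw [smul_eq_C_mul]
      exact h1.C_mul c
    · rw [map_smul, ← smul_sub]
      exact Submodule.smul_mem _ _ h2

variable (b : Module.Basis I k L) (φ : L →ₗ⁅k⁆ Module.End k (MvPolynomial I k))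
  (hφ : ∀ (i : I) (m : ℕ) (f : MvPolynomial I k),
      f.totalDegree ≤ m → (φ (b i) f - X i * f).totalDegree ≤ m)

include hφ in
private theorem act_Td {d : ℕ} {f : MvPolynomial I k} (hf : Td d f) (i : I) :
    Td d (φ (b i) f - X i * f) := by
  rcases hf with hf | hf
  · rw [hf, map_zero, mul_zero, sub_zero]; exact Td.zero d
  · cases d with
    | zero => exact absurd hf (Nat.not_lt_zero _)
    | succ d => exact Td.of_le (hφ i d f (Nat.le_of_lt_succ hf))

include hφ in
private theorem act_ee {m : ℕ} {f : MvPolynomial I k} (hf : f.totalDegree ≤ m) (l : List I) :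
    Td (l.length + m) (UniversalEnvelopingAlgebra.lift k φ (ee b l) f - PP k l * f) := by
  induction l with
  | nil =>
    rw [ee_nil, map_one]
    left
    simp [PP]
  | cons i l ih =>
    set g := UniversalEnvelopingAlgebra.lift k φ (ee b l) f with hg
    have hPf : (PP k l * f).totalDegree ≤ l.length + m :=
      (totalDegree_mul _ _).trans (add_le_add (PP_deg l) hf)
    have hgT : Td (l.length + m + 1) g := by
      have h1 : g = (g - PP k l * f) + PP k l * f := by ring
      rw [h1]
      exact (ih.mono (Nat.le_succ _)).add (Td.of_le hPf)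
    have h2 : UniversalEnvelopingAlgebra.lift k φ (ee b (i :: l)) f = φ (b i) g := by
      rw [ee_cons, map_mul, UniversalEnvelopingAlgebra.lift_ι_apply]
      rfl
    have h3 : φ (b i) g - PP k (i :: l) * f =
        (φ (b i) g - X i * g) + X i * (g - PP k l * f) := by
      rw [PP_cons]; ring
    rw [h2, h3, List.length_cons]
    refine Td.add ((act_Td b φ hφ hgT i).mono (by omega)) ?_
    exact (Td.mul (n := 1) (by rw [totalDegree_X]) ih).mono (by omega)

include hφ in
private theorem act_VV {n m : ℕ} {f : MvPolynomial I k} (hf : f.totalDegree ≤ m)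
    {x : UniversalEnvelopingAlgebra k L} (hx : x ∈ VV b n) :
    Td (n + m) (UniversalEnvelopingAlgebra.lift k φ x f) := by
  unfold VV at hx
  induction hx using Submodule.span_induction with
  | mem x hx =>
    obtain ⟨l, hl, rfl⟩ := hx
    have h1 := act_ee b φ hφ hf l
    have h2 : UniversalEnvelopingAlgebra.lift k φ (ee b l) f =
        (UniversalEnvelopingAlgebra.lift k φ (ee b l) f - PP k l * f) + PP k l * f := by ring
    rw [h2]
    refine (h1.mono (by omega)).add ?_
    have h3 : Td (l.length + m + 1) (PP k l * f) :=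
      Td.of_le ((totalDegree_mul _ _).trans (add_le_add (PP_deg l) hf))
    exact h3.mono (by omega)
  | zero => rw [map_zero]; exact Td.zero _
  | add x y _ _ hx hy => rw [map_add]; exact Td.add hx hy
  | smul c x _ hx => rw [map_smul]; exact Td.smul c hx

include hφ in
private theorem act_EE {n m : ℕ} {σ : MvPolynomial I k} (hσ : σ.IsHomogeneous n)
    {f : MvPolynomial I k} (hf : f.totalDegree ≤ m) :
    Td (n + m) (UniversalEnvelopingAlgebra.lift k φ (EE' b σ) f - σ * f) := by
  have h1 : σ = ∑ s ∈ σ.support, coeff s σ • (monomial s 1 : MvPolynomial I k) := by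
    conv_lhs => rw [σ.as_sum]
    refine Finset.sum_congr rfl fun s _ => ?_
    rw [smul_monomial, smul_eq_mul, mul_one]
  have h2 : UniversalEnvelopingAlgebra.lift k φ (EE' b σ) f - σ * f =
      ∑ s ∈ σ.support, coeff s σ •
        (UniversalEnvelopingAlgebra.lift k φ (ee b (Finsupp.toMultiset s).toList) f -
          PP k (Finsupp.toMultiset s).toList * f) := by
    have h3 : EE' b σ = ∑ s ∈ σ.support, coeff s σ • ee b (Finsupp.toMultiset s).toList := by
      conv_lhs => rw [h1]
      rw [map_sum]
      exact Finset.sum_congr rfl fun s _ => by rw [map_smul, EE'_monomial]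
    have h4 : σ * f = ∑ s ∈ σ.support, coeff s σ • (PP k (Finsupp.toMultiset s).toList * f) := by
      conv_lhs => rw [h1]
      rw [Finset.sum_mul]
      exact Finset.sum_congr rfl fun s _ => by rw [PP_toList, smul_mul_assoc]
    rw [h3, h4, map_sum, LinearMap.sum_apply, ← Finset.sum_sub_distrib]
    refine Finset.sum_congr rfl fun s _ => ?_
    rw [map_smul, LinearMap.smul_apply, smul_sub]
  rw [h2]
  refine Td.sum _ _ fun s hs => Td.smul _ ?_
  have h5 : (Finsupp.toMultiset s).toList.length = n := by
    rw [Multiset.length_toList, Finsupp.card_toMultiset]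
    have h51 := hσ (mem_support_iff.1 hs)
    have h52 : Finsupp.weight (1 : I → ℕ) s = s.degree := by
      have := congrArg (fun F => F s) (Finsupp.degree_eq_weight_one (σ := I) (R := ℕ))
      exact this.symm
    rw [h52] at h51
    exact h51
  have h6 := act_ee b φ hφ hf (Finsupp.toMultiset s).toList
  rwa [h5] at h6

/-- the symbol -/
private theorem exists_symbol {x : UniversalEnvelopingAlgebra k L} (hx : x ≠ 0) :
    ∃ (n : ℕ) (σ : MvPolynomial I k), σ ≠ 0 ∧ σ.IsHomogeneous n ∧ x - EE' b σ ∈ VV b n := by
  classical
  have hex := exists_VV b x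
  have hn := Nat.find_spec hex
  have hmin := fun m (hm : m < Nat.find hex) => Nat.find_min hex hm
  rcases hN : Nat.find hex with _ | n
  · rw [hN] at hn
    exfalso
    apply hx
    have : VV b 0 = ⊥ := by
      unfold VV
      rw [Submodule.span_eq_bot]
      rintro y ⟨l, hl, rfl⟩
      exact absurd hl (Nat.not_lt_zero _)
    rw [this] at hn
    exact (Submodule.mem_bot k).1 hn
  · rw [hN] at hn hmin
    obtain ⟨σ, h1, h2⟩ := VV_succ b n hn
    refine ⟨n, σ, ?_, h1, h2⟩
    rintro rfl
    rw [map_zero, sub_zero] at h2
    exact hmin n (Nat.lt_succ_self n) h2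

include hφ in
private theorem act_symbol {n m : ℕ} {x : UniversalEnvelopingAlgebra k L}
    {σ : MvPolynomial I k} (hσ : σ.IsHomogeneous n) (hx : x - EE' b σ ∈ VV b n)
    {f : MvPolynomial I k} (hf : f.totalDegree ≤ m) :
    Td (n + m) (UniversalEnvelopingAlgebra.lift k φ x f - σ * f) := by
  have h1 : UniversalEnvelopingAlgebra.lift k φ x f - σ * f =
      UniversalEnvelopingAlgebra.lift k φ (x - EE' b σ) f +
        (UniversalEnvelopingAlgebra.lift k φ (EE' b σ) f - σ * f) := by
    rw [map_sub, LinearMap.sub_apply]
    ring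
  rw [h1]
  exact (act_VV b φ hφ hf hx).add (act_EE b φ hφ hσ hf)

end aux

/-- PROOF. Choose a basis `b` (`Module.Basis.ofVectorSpace`) and a linear order on its index type `I`; `exists_pbw_rep` gives `φ`, and `π = UniversalEnvelopingAlgebra.lift k φ`.
`U_n` = span of the products of at most `n` elements `ι (b i)` (all lists, or sorted lists). (1) Every product of `n` elements `ι (b i)` is congruent mod `U_{n-1}` to any permutation of
itself (`ι x * ι y - ι y * ι x = ι ⁅x,y⁆`), so `U_n` = span of the sorted products `e_s` (`s : Multiset I`, `card s = n`) + `U_{n-1}`. (2) For a product `e` of `n` elements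
`b i_1, ..., b i_n` and `f` of degree `≤ m`: `π e f - X i_1 ⋯ X i_n * f` has degree `≤ m + n - 1` (degree `< m + n`; treat `m + n = 0` apart). (3) Let `a ≠ 0`, `n` minimal with `a ∈ U_n`; `a = ∑ c_s e_s + a'`, `a' ∈ U_{n-1}`; `σ = ∑ c_s X^s` is homogeneous of degree `n` and
nonzero (otherwise all `c_s = 0` and `a ∈ U_{n-1}`; for `n = 0`: `a = c • 1`), and `π a f ≡ σ * f` modulo degree `< n + m` for all `f` of degree `≤ m`. (4) For `a, b ≠ 0` with `σ, τ` of degrees `n, l`: `π (a*b) 1 = π a (π b 1) ≡ σ * τ ≠ 0`
modulo degree `< n + l`, `σ * τ` is homogeneous of degree `n + l`; so `a * b ≠ 0`. -/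
theorem noZeroDivisors_UEA (k L : Type*) [Field k] [LieRing L] [LieAlgebra k L] :
    NoZeroDivisors (UniversalEnvelopingAlgebra k L) := by
  classical
  refine ⟨?_⟩
  intro x y hxy
  by_contra hcon
  push Not at hcon
  obtain ⟨hx, hy⟩ := hcon
  let b := Module.Basis.ofVectorSpace k L
  letI : LinearOrder (Module.Basis.ofVectorSpaceIndex k L) :=
    IsWellOrder.linearOrder WellOrderingRel
  obtain ⟨φ, hφ⟩ := exists_pbw_rep b
  obtain ⟨n, σ, hσ0, hσ, hxσ⟩ := exists_symbol b hx
  obtain ⟨l, τ, hτ0, hτ, hyτ⟩ := exists_symbol b hy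
  have h1 : Td (l + 0) (UniversalEnvelopingAlgebra.lift k φ y 1 - τ * 1) :=
    act_symbol b φ hφ hτ hyτ (by rw [totalDegree_one])
  rw [add_zero, mul_one] at h1
  set g := UniversalEnvelopingAlgebra.lift k φ y 1 with hg
  have hgd : g.totalDegree ≤ l := by
    have h2 : g = (g - τ) + τ := by ring
    have h3 : (g - τ).totalDegree ≤ l := by
      rcases h1 with h | h
      · rw [h, totalDegree_zero]; exact Nat.zero_le _
      · exact h.le
    rw [h2]
    exact (totalDegree_add _ _).trans (max_le h3 hτ.totalDegree_le)
  have h4 : Td (n + l) (UniversalEnvelopingAlgebra.lift k φ x g - σ * g) :=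
    act_symbol b φ hφ hσ hxσ hgd
  have h5 : UniversalEnvelopingAlgebra.lift k φ x g = 0 := by
    have : UniversalEnvelopingAlgebra.lift k φ (x * y) 1 =
        UniversalEnvelopingAlgebra.lift k φ x g := by
      rw [map_mul]; rfl
    rw [← this, hxy, map_zero]
    rfl
  have h6 : Td (n + l) (σ * τ) := by
    have h7 : σ * τ = (-1 : k) • (UniversalEnvelopingAlgebra.lift k φ x g - σ * g) +
        (-1 : k) • (σ * (g - τ)) := by
      rw [h5]
      simp only [neg_smul, one_smul]
      ring
    rw [h7]
    exact (h4.smul _).add ((Td.mul hσ.totalDegree_le h1).smul _)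
  have h8 : σ * τ ≠ 0 := mul_ne_zero hσ0 hτ0
  rcases h6 with h | h
  · exact h8 h
  · rw [(hσ.mul hτ).totalDegree h8] at h
    exact lt_irrefl _ h

end Pool.Agent.Helper85.PF
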